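import Mathlib
import Pool.Agent.H16.BB.TypeF

/-!
Definitions for the concrete form of the theorem: finitely presented groups of type FP, Poincaré
duality groups, and groups acting freely on connected, simply connected and acyclic flag complexes.
-/

set_option autoImplicit false

namespace Pool.Agent.H16.BV

open CategoryTheory Function Pool.Agent.H16.BB

/-- The module `M` has a resolution of length `n` by finitely generated projective modules. -/
def HasRes (R : Type) [Ring R] : ℕ → (M : Type) → [AddCommGroup M] → [Module R M] → Prop
  | 0, M, _, _ => Module.Finite R M ∧ Module.Projective R M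
  | n + 1, M, _, _ => ∃ (P : Type) (_ : AddCommGroup P) (_ : Module R P) (f : P →ₗ[R] M),
      Surjective f ∧ Module.Finite R P ∧ Module.Projective R P ∧ HasRes R n (LinearMap.ker f)

/-- Type FP: the trivial module `ℤ` has a finite resolution by finitely generated projective
modules over the group ring. -/
def FP (G : Type) [Group G] : Prop :=
  ∃ n, HasRes (MonoidAlgebra ℤ G) n (Representation.trivial ℤ G ℤ).asModule

/-- Finitely presented groups of type FP. -/
def FPres (G : Type) [Group G] : Prop := Group.IsFinitelyPresented G ∧ FP G

/-- Right multiplication by `g` on `ℤ[G]`. -/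
noncomputable def rmul {G : Type} [Group G] (g : G) :
    Rep.leftRegular ℤ G ⟶ Rep.leftRegular ℤ G :=
  Rep.leftRegularHom (Rep.leftRegular ℤ G) (MonoidAlgebra.single g 1)

/-- Poincaré duality groups of dimension `n` with their orientation characters: `G` is finitely
presented of type FP, `H^i(G; ℤ[G])` is trivial for `i ≠ n` and infinite cyclic for `i = n`, and
right multiplication by `g` acts on it as `w(g)`. -/
def PDn (n : ℕ) (X : OGrp) : Prop :=
  FPres X.G ∧ (∀ i, i ≠ n → Subsingleton (groupCohomology (Rep.leftRegular ℤ X.G) i)) ∧
    Nonempty (groupCohomology (Rep.leftRegular ℤ X.G) n ≃+ ℤ) ∧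
    ∀ (g : X.G) (x : groupCohomology (Rep.leftRegular ℤ X.G) n),
      (groupCohomology.map (MonoidHom.id X.G) (rmul g) n).hom x = ((X.w g : ℤˣ) : ℤ) • x

/-- Poincaré duality groups with their orientation characters. -/
def PD (X : OGrp) : Prop := ∃ n, PDn n X

section Flag

variable {V : Type} (Γ : SimpleGraph V) (c : V → ℕ)

/-- The simplices of the flag complex, as lists of pairwise adjacent vertices with decreasing
values of the function `c`. -/
def IsClq (l : List V) : Prop := l.Pairwise fun a b => Γ.Adj a b ∧ c b < c a

/-- The boundary of a simplex (with the empty simplex, of length 0). -/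
noncomputable def bdList : List V → List V →₀ ℤ
  | [] => 0
  | v :: l => Finsupp.single l 1 - (bdList l).mapDomain (List.cons v)

/-- The boundary of a chain. -/
noncomputable def bd : (List V →₀ ℤ) →ₗ[ℤ] (List V →₀ ℤ) := Finsupp.linearCombination ℤ bdList

/-- The augmented chain complex of the flag complex is exact. -/
def Acyc : Prop :=
  ∀ (n : ℕ) (z : List V →₀ ℤ), (∀ l ∈ z.support, IsClq Γ c l ∧ l.length = n) → bd z = 0 →
    ∃ y : List V →₀ ℤ, (∀ l ∈ y.support, IsClq Γ c l ∧ l.length = n + 1) ∧ bd y = z

/-- Every cocycle with values in a group is a coboundary: the fundamental group is trivial. -/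
def SC : Prop :=
  ∀ (M : Type) [Group M] (x : V → V → M),
    (∀ u v, Γ.Adj u v → x u v * x v u = 1) →
    (∀ u v w, Γ.Adj u v → Γ.Adj v w → Γ.Adj u w → x u v * x v w = x u w) →
    ∃ b : V → M, ∀ u v, Γ.Adj u v → x u v = b u * (b v)⁻¹

end Flag

/-- The vertices of the flag complex of `D`. -/
abbrev Vtx {G : Type} [Group G] (D : Datum G) : Type := {p : ℕ × G // p.1 < D.m}

/-- The graph of `D`. -/
abbrev gr {G : Type} [Group G] (D : Datum G) : SimpleGraph (Vtx D) := D.edges.comap Subtype.val

/-- The number of the orbit. -/
abbrev col {G : Type} [Group G] (D : Datum G) : Vtx D → ℕ := fun p => p.1.1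

/-- The flag complex of `D` is connected, simply connected and acyclic. -/
def Good {G : Type} [Group G] (D : Datum G) : Prop :=
  0 < D.m ∧ (gr D).Connected ∧ SC (gr D) ∧ Acyc (gr D) (col D)

end Pool.Agent.H16.BV
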