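import Mathlib
import Pool.Agent.H16.BV.Defs
import Pool.Agent.H16.BB.Chain

/-!
The cubical complex of a right-angled Artin group `RAAG Γ`: the cube `(x, l)` has the vertices
`x v_1 … v_k` for sublists of `l`. `c` is a colouring of the vertices, cliques are lists with
decreasing colours (`IsClq`). This file: definitions and statements of the basic facts.

PROOFS. All by induction on the list, from the recursion
`dCube x (v :: l) = (x v, l) - (x, l) - v :: dCube x l`.
`d_mem`, `d_up`, `d_down`: a cube in the support of `dCube x l` is `(x, l')` or `(x v, l')` with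
`l'` obtained by removing one entry `v` of `l`; sublists of cliques are cliques (`List.Sublist`).
`d_d`: first show `(dCube (x * gen v) l) = (dCube x l).mapDomain (fun p => (p.1 * gen v, p.2))` if
`v` is adjacent to all entries of `l` (right multiplication by `v` commutes with the right
multiplications by the entries), then
`d (dCube x (v :: l)) = dCube (x v) l - dCube x l - (d of v :: dCube x l)` and
`d (v :: y) = rmul v y - y - v :: d y` for chains `y`.
-/

set_option autoImplicit false

namespace Pool.Agent.H16.BV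

open Function Pool.Agent.H16.BB

variable {V : Type} (Γ : SimpleGraph V) (c : V → ℕ)

/-- Chains of cubes. -/
abbrev Ch : Type := (RAAG Γ × List V) →₀ ℤ

variable {Γ}

/-- The generators. -/
def gen (v : V) : RAAG Γ := PresentedGroup.of v

/-- The boundary of a cube. -/
noncomputable def dCube (x : RAAG Γ) : List V → Ch Γ
  | [] => 0
  | v :: l => Finsupp.single (x * gen v, l) 1 - Finsupp.single (x, l) 1 -
      (dCube x l).mapDomain fun p => (p.1, v :: p.2)

/-- The boundary. -/
noncomputable def d : Ch Γ →ₗ[ℤ] Ch Γ := Finsupp.linearCombination ℤ fun p => dCube p.1 p.2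

/-- Right multiplication of the first components by `gen v`. -/
noncomputable def rm (v : V) : Ch Γ →ₗ[ℤ] Ch Γ :=
  Finsupp.lmapDomain ℤ ℤ fun p => (p.1 * gen v, p.2)

/-- Adding `v` in front of the lists. -/
noncomputable def cns (v : V) : Ch Γ →ₗ[ℤ] Ch Γ :=
  Finsupp.lmapDomain ℤ ℤ fun p => (p.1, v :: p.2)

/-- The sum of the coefficients. -/
noncomputable def aug : Ch Γ →ₗ[ℤ] ℤ := Finsupp.linearCombination ℤ fun _ => (1 : ℤ)

/-- The height of a vertex. -/
def ht (x : RAAG Γ) : ℤ :=
  Multiplicative.toAdd (raagLift (Γ := Γ) (fun _ => Multiplicative.ofAdd (1 : ℤ))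
    (fun _ _ _ => Commute.all _ _) x)

theorem ht_one : ht (1 : RAAG Γ) = 0 := by
  unfold ht
  rw [map_one]
  rfl

theorem ht_mul (x y : RAAG Γ) : ht (x * y) = ht x + ht y := by
  unfold ht
  rw [map_mul]
  rfl

theorem ht_gen (v : V) : ht (gen v : RAAG Γ) = 1 := by
  unfold ht gen
  rw [raagLift_of]
  rfl

variable (Γ)

/-- Cubes of dimension `n`. -/
def K (n : ℕ) : Submodule ℤ (Ch Γ) :=
  Finsupp.supported ℤ ℤ {p | IsClq Γ c p.2 ∧ p.2.length = n}

/-- Cubes of dimension `n` above the height `a`. -/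
def KU (a : ℤ) (n : ℕ) : Submodule ℤ (Ch Γ) :=
  Finsupp.supported ℤ ℤ {p | IsClq Γ c p.2 ∧ p.2.length = n ∧ a ≤ ht p.1}

/-- Cubes of dimension `n` below the height `b`. -/
def KD (b : ℤ) (n : ℕ) : Submodule ℤ (Ch Γ) :=
  Finsupp.supported ℤ ℤ {p | IsClq Γ c p.2 ∧ p.2.length = n ∧ ht p.1 + n ≤ b}

/-- Cubes of dimension `n` with vertices in the set `U`. -/
def KS (U : Set V) (n : ℕ) : Submodule ℤ (Ch Γ) :=
  Finsupp.supported ℤ ℤ {p | IsClq Γ c p.2 ∧ p.2.length = n ∧ ∀ v ∈ p.2, v ∈ U}

variable {Γ} {c}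

private theorem dCube_cons (x : RAAG Γ) (v : V) (l : List V) :
    dCube x (v :: l) = rm v (Finsupp.single (x, l) 1) - Finsupp.single (x, l) 1 -
      cns v (dCube x l) := by
  unfold rm cns
  rw [Finsupp.lmapDomain_apply, Finsupp.lmapDomain_apply, Finsupp.mapDomain_single]
  rfl

theorem d_single (x : RAAG Γ) (l : List V) (a : ℤ) : d (Finsupp.single (x, l) a) = a • dCube x l := by
  unfold d
  rw [Finsupp.linearCombination_single]

private theorem cns_single (v : V) (x : RAAG Γ) (l : List V) (a : ℤ) :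
    cns v (Finsupp.single (x, l) a) = Finsupp.single (x, v :: l) a := by
  unfold cns
  rw [Finsupp.lmapDomain_apply, Finsupp.mapDomain_single]

private theorem rm_single (v : V) (x : RAAG Γ) (l : List V) (a : ℤ) :
    rm v (Finsupp.single (x, l) a) = Finsupp.single (x * gen v, l) a := by
  unfold rm
  rw [Finsupp.lmapDomain_apply, Finsupp.mapDomain_single]

private theorem d_cns' (v : V) (y : Ch Γ) : d (cns v y) = rm v y - y - cns v (d y) := by
  induction y using Finsupp.induction_linear with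
  | zero => simp
  | add f g hf hg =>
    rw [map_add, map_add, hf, hg, map_add, map_add, map_add]
    abel
  | single p a =>
    obtain ⟨x, l⟩ := p
    rw [cns_single, d_single, d_single, dCube_cons, map_smul, smul_sub, smul_sub, ← map_smul,
      Finsupp.smul_single, smul_eq_mul, mul_one]

/-- The boundary of a cone. -/
theorem d_cns (v : V) (y : Ch Γ) (hy : ∀ p ∈ y.support, ∀ w ∈ p.2, Γ.Adj v w) :
    d (cns v y) = rm v y - y - cns v (d y) := d_cns' v y

private theorem rm_cns (v w : V) (y : Ch Γ) : rm v (cns w y) = cns w (rm v y) := by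
  induction y using Finsupp.induction_linear with
  | zero => simp
  | add f g hf hg => rw [map_add, map_add, hf, hg, map_add, map_add]
  | single p a =>
    obtain ⟨x, l⟩ := p
    rw [cns_single, rm_single, rm_single, cns_single]

private theorem rm_dCube (v : V) (x : RAAG Γ) (l : List V) (h : ∀ w ∈ l, Γ.Adj v w) :
    rm v (dCube x l) = dCube (x * gen v) l := by
  induction l with
  | nil => simp [dCube]
  | cons w l ih =>
    have hc : (gen v : RAAG Γ) * gen w = gen w * gen v :=
      (raag_comm (h w List.mem_cons_self)).eq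
    rw [dCube_cons, dCube_cons, map_sub, map_sub, rm_cns, ih fun u hu => h u (List.mem_cons_of_mem _ hu),
      rm_single, rm_single, rm_single, rm_single, mul_assoc, mul_assoc, hc]

private theorem sum_singles (z : Ch Γ) : z = ∑ p ∈ z.support, Finsupp.single p (z p) := by
  conv_lhs => rw [← Finsupp.sum_single z]
  rfl

private theorem d_sum (z : Ch Γ) : d z = ∑ p ∈ z.support, z p • dCube p.1 p.2 := by
  unfold d
  rw [Finsupp.linearCombination_apply]
  rfl

theorem d_rm (v : V) (y : Ch Γ) (hy : ∀ p ∈ y.support, ∀ w ∈ p.2, Γ.Adj v w) :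
    d (rm v y) = rm v (d y) := by
  conv_lhs => rw [sum_singles y]
  rw [d_sum y, map_sum, map_sum, map_sum]
  refine Finset.sum_congr rfl fun p hp => ?_
  obtain ⟨x, l⟩ := p
  rw [rm_single, d_single, map_smul, rm_dCube v x l (hy _ hp)]

private theorem dCube_support (x : RAAG Γ) (l : List V) :
    ∀ p ∈ (dCube x l).support, p.2.Sublist l ∧ p.2.length + 1 = l.length ∧
      (p.1 = x ∨ ∃ v ∈ l, p.1 = x * gen v) := by
  classical
  induction l with
  | nil =>
    intro p hp
    simp [dCube] at hp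
  | cons v l ih =>
    intro p hp
    unfold dCube at hp
    have h1 := Finsupp.support_sub hp
    rw [Finset.mem_union] at h1
    rcases h1 with h1 | h1
    · have h2 := Finsupp.support_sub h1
      rw [Finset.mem_union] at h2
      rcases h2 with h2 | h2
      · have h3 := Finset.mem_singleton.1 (Finsupp.support_single_subset h2)
        subst h3
        exact ⟨List.sublist_cons_self _ _, rfl, Or.inr ⟨v, List.mem_cons_self, rfl⟩⟩
      · have h3 := Finset.mem_singleton.1 (Finsupp.support_single_subset h2)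
        subst h3
        exact ⟨List.sublist_cons_self _ _, rfl, Or.inl rfl⟩
    · have h2 := Finsupp.mapDomain_support h1
      obtain ⟨r, hr, rfl⟩ := Finset.mem_image.1 h2
      obtain ⟨a, b, e⟩ := ih r hr
      refine ⟨a.cons_cons v, by simp [← b], ?_⟩
      rcases e with e | ⟨w, hw, e⟩
      · exact Or.inl e
      · exact Or.inr ⟨w, List.mem_cons_of_mem _ hw, e⟩

private theorem d_mem_gen {s t : Set (RAAG Γ × List V)}
    (h : ∀ p ∈ s, ∀ r ∈ (dCube p.1 p.2).support, r ∈ t) {z : Ch Γ}
    (hz : z ∈ Finsupp.supported ℤ ℤ s) : d z ∈ Finsupp.supported ℤ ℤ t := by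
  rw [d_sum]
  refine Submodule.sum_mem _ fun p hp => Submodule.smul_mem _ _ ?_
  rw [Finsupp.mem_supported]
  intro r hr
  exact h p (hz hp) r hr

theorem d_mem {n : ℕ} {z : Ch Γ} (hz : z ∈ K Γ c (n + 1)) : d z ∈ K Γ c n := by
  refine d_mem_gen ?_ hz
  rintro p ⟨h1, h2⟩ r hr
  obtain ⟨a, b, -⟩ := dCube_support _ _ r hr
  exact ⟨h1.sublist a, by omega⟩

theorem d_memS {U : Set V} {n : ℕ} {z : Ch Γ} (hz : z ∈ KS Γ c U (n + 1)) : d z ∈ KS Γ c U n := by
  refine d_mem_gen ?_ hz
  rintro p ⟨h1, h2, h3⟩ r hr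
  obtain ⟨a, b, -⟩ := dCube_support _ _ r hr
  exact ⟨h1.sublist a, by omega, fun v hv => h3 v (a.subset hv)⟩

private theorem ht_support {x : RAAG Γ} {l : List V} {p : RAAG Γ × List V}
    (h : p.1 = x ∨ ∃ v ∈ l, p.1 = x * gen v) : ht x ≤ ht p.1 ∧ ht p.1 ≤ ht x + 1 := by
  rcases h with h | ⟨v, -, h⟩
  · rw [h]
    omega
  · rw [h, ht_mul, ht_gen]
    omega

theorem d_up {a : ℤ} {n : ℕ} {z : Ch Γ} (hz : z ∈ KU Γ c a (n + 1)) : d z ∈ KU Γ c a n := by
  refine d_mem_gen ?_ hz
  rintro p ⟨h1, h2, h3⟩ r hr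
  obtain ⟨a, b, e⟩ := dCube_support _ _ r hr
  exact ⟨h1.sublist a, by omega, h3.trans (ht_support e).1⟩

theorem d_down {b : ℤ} {n : ℕ} {z : Ch Γ} (hz : z ∈ KD Γ c b (n + 1)) : d z ∈ KD Γ c b n := by
  refine d_mem_gen ?_ hz
  rintro p ⟨h1, h2, h3⟩ r hr
  obtain ⟨a, b, e⟩ := dCube_support _ _ r hr
  have h4 := (ht_support e).2
  refine ⟨h1.sublist a, by omega, ?_⟩
  push_cast at h3
  linarith

theorem d_zero {z : Ch Γ} (hz : z ∈ K Γ c 0) : d z = 0 := by
  rw [d_sum]
  refine Finset.sum_eq_zero fun p hp => ?_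
  have h1 : p.2 = [] := List.length_eq_zero_iff.1 (hz hp).2
  rw [h1]
  simp [dCube]

private theorem d_dCube (x : RAAG Γ) (l : List V) (h : IsClq Γ c l) : d (dCube x l) = 0 := by
  induction l with
  | nil => simp [dCube]
  | cons v l ih =>
    have h1 : IsClq Γ c l := List.Pairwise.of_cons h
    have h2 : ∀ w ∈ l, Γ.Adj v w := fun w hw => (List.rel_of_pairwise_cons h hw).1
    have h3 : ∀ p ∈ (Finsupp.single (x, l) 1 : Ch Γ).support, ∀ w ∈ p.2, Γ.Adj v w := by
      intro p hp
      have h4 := Finset.mem_singleton.1 (Finsupp.support_single_subset hp)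
      subst h4
      exact h2
    rw [dCube_cons, map_sub, map_sub, d_rm v _ h3, d_cns', d_single, one_smul, ih h1, map_zero]
    abel

theorem d_d {n : ℕ} {z : Ch Γ} (hz : z ∈ K Γ c n) : d (d z) = 0 := by
  rw [d_sum z, map_sum]
  refine Finset.sum_eq_zero fun p hp => ?_
  rw [map_smul, d_dCube p.1 p.2 (hz hp).1, smul_zero]

theorem aug_d (z : Ch Γ) (hz : z ∈ K Γ c 1) : aug (d z) = 0 := by
  rw [d_sum z, map_sum]
  refine Finset.sum_eq_zero fun p hp => ?_
  obtain ⟨v, hv⟩ := List.length_eq_one_iff.1 (hz hp).2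
  rw [map_smul, hv]
  unfold aug
  simp [dCube, Finsupp.linearCombination_single]

end Pool.Agent.H16.BV
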