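import Mathlib
import Pool.Agent.H16.BV.Cube
import Pool.Agent.H16.BB.Kernel

/-!
The action of `D.Grp D.m` on the right-angled Artin group of the graph of `D`.

PROOF. `G` acts on the vertices `(i, h)` by `g • (i, h) = (i, g h)` (`vAct`), preserving adjacency
(`D.edges` is defined by `q.2⁻¹ * p.2`) and `col`, hence by automorphisms on `RAAG (gr D)`
(`raagLift`); `act` is `D.lift` of this homomorphism `G →* Equiv.Perm (RAAG (gr D))` and of the left
multiplications by `gen (i, 1)` for `i < D.m` (and `1` for `i ≥ D.m`). The relation: the left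
multiplication by `gen (i, 1)` commutes with `g` (left multiplication by `gen (j, 1)`) `g⁻¹` =
left multiplication by `gen (j, g)`, since `(j, g)` is adjacent to `(i, 1)` for `(j, g) ∈ D.T i`.
`act_mul_gen`, `ht_act`: both sides are multiplicative in `a`: check for `a = ι g` and `a = v i`
(use `D.hom_ext`-style induction: the set of `a` with the property for all `x` is a subgroup
containing the generators, `Datum.closure_eq`).
`inv` : the homomorphism `RAAG (gr D) →* D.Grp D.m` sending `gen p` to `D.cj p`
(`Datum.cj_comm`). `act_eq`: `a = inv (act a 1) * ι (ret a)` for all `a`, by induction on `a` as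
above, with `inv (g • x) = ι g * inv x * (ι g)⁻¹` and `act (ι g) x = g • x`, which is multiplicative
in `x`, `act (v i) x = gen (i, 1) * x`.
-/

set_option autoImplicit false

namespace Pool.Agent.H16.BV

open Function Pool.Agent.H16.BB

variable {G : Type} [Group G] (D : Datum G)

/-- The action of `G` on the vertices. -/
def vAct : G →* Equiv.Perm (Vtx D) where
  toFun g :=
    { toFun := fun p => ⟨(p.1.1, g * p.1.2), p.2⟩
      invFun := fun p => ⟨(p.1.1, g⁻¹ * p.1.2), p.2⟩
      left_inv := fun p => by simp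
      right_inv := fun p => by simp }
  map_one' := by
    ext p <;> simp
  map_mul' a b := by
    ext p <;> simp [mul_assoc]

private theorem adj_iff (p q : Vtx D) : (gr D).Adj p q ↔
    ((p.1.1, q.1.2⁻¹ * p.1.2) ∈ D.T q.1.1 ∨ (q.1.1, p.1.2⁻¹ * q.1.2) ∈ D.T p.1.1) := by
  rw [SimpleGraph.comap_adj, Datum.edges, SimpleGraph.fromRel_adj]
  constructor
  · exact fun h => h.2
  · intro h
    refine ⟨fun e => ?_, h⟩
    rcases h with h | h
    · have h0 := D.lt _ _ h
      have h1 : p.1.1 < q.1.1 := h0
      have h2 : p.1.1 = q.1.1 := congrArg Prod.fst e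
      omega
    · have h0 := D.lt _ _ h
      have h1 : q.1.1 < p.1.1 := h0
      have h2 : p.1.1 = q.1.1 := congrArg Prod.fst e
      omega

theorem vAct_adj (g : G) (p q : Vtx D) : (gr D).Adj (vAct D g p) (vAct D g q) ↔ (gr D).Adj p q := by
  rw [adj_iff, adj_iff]
  have e1 : ((vAct D g q).1.2)⁻¹ * (vAct D g p).1.2 = q.1.2⁻¹ * p.1.2 := by
    change (g * q.1.2)⁻¹ * (g * p.1.2) = _
    group
  have e2 : ((vAct D g p).1.2)⁻¹ * (vAct D g q).1.2 = p.1.2⁻¹ * q.1.2 := by
    change (g * p.1.2)⁻¹ * (g * q.1.2) = _
    group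
  rw [e1, e2]
  exact Iff.rfl

theorem vAct_col (g : G) (p : Vtx D) : col D (vAct D g p) = col D p := rfl

/-- The colours of adjacent vertices are different. -/
theorem col_ne (p q : Vtx D) (h : (gr D).Adj p q) : col D p ≠ col D q := by
  rw [adj_iff] at h
  intro e
  have e' : p.1.1 = q.1.1 := e
  rcases h with h | h
  · have h0 := D.lt _ _ h
    have h1 : p.1.1 < q.1.1 := h0
    omega
  · have h0 := D.lt _ _ h
    have h1 : q.1.1 < p.1.1 := h0
    omega

/-- The generators of `D.Grp k` generate it. -/
theorem closure_eq (k : ℕ) (N : Subgroup (D.Grp k)) (h1 : ∀ g, D.ι k g ∈ N)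
    (h2 : ∀ i, i < k → D.v k i ∈ N) : N = ⊤ := by
  rw [eq_top_iff]
  rintro a -
  obtain ⟨x, rfl⟩ := QuotientGroup.mk'_surjective _ a
  have hv : ∀ i, D.v k i ∈ N := by
    intro i
    rcases lt_or_ge i k with hi | hi
    · exact h2 i hi
    · rw [Datum.v_eq_one D k hi]
      exact N.one_mem
  induction x using Monoid.Coprod.induction_on with
  | inl g => exact h1 g
  | inr w =>
    induction w using FreeGroup.induction_on with
    | C1 =>
      rw [map_one, map_one]
      exact N.one_mem
    | of i => exact hv i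
    | inv_of i hi =>
      rw [map_inv, map_inv]
      exact N.inv_mem (hv i)
    | mul x y hx hy =>
      rw [map_mul, map_mul]
      exact N.mul_mem hx hy
  | mul x y hx hy =>
    rw [map_mul]
    exact N.mul_mem hx hy

private theorem gen_comm {p q : Vtx D} (h : (gr D).Adj p q) :
    Commute (gen p : RAAG (gr D)) (gen q) := raag_comm h

private noncomputable def gHom (g : G) : RAAG (gr D) →* RAAG (gr D) :=
  raagLift (fun p => gen (vAct D g p)) fun a b hab => gen_comm D ((vAct_adj D g a b).2 hab)

private theorem gHom_gen (g : G) (p : Vtx D) : gHom D g (gen p) = gen (vAct D g p) :=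
  raagLift_of _ _ _

private theorem gHom_one : gHom D 1 = MonoidHom.id _ := by
  apply raag_hom_ext
  intro p
  change gHom D 1 (gen p) = gen p
  rw [gHom_gen, map_one]
  rfl

private theorem gHom_mul (a b : G) : gHom D (a * b) = (gHom D a).comp (gHom D b) := by
  apply raag_hom_ext
  intro p
  change gHom D (a * b) (gen p) = gHom D a (gHom D b (gen p))
  rw [gHom_gen, gHom_gen, gHom_gen, map_mul]
  rfl

/-- The action of `G` on `RAAG (gr D)` by automorphisms. -/
noncomputable def gAct : G →* MulAut (RAAG (gr D)) :=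
  MonoidHom.mk' (fun g => MonoidHom.toMulEquiv (gHom D g) (gHom D g⁻¹)
    (by rw [← gHom_mul, inv_mul_cancel, gHom_one]) (by rw [← gHom_mul, mul_inv_cancel, gHom_one]))
    (fun a b => by
      apply MulEquiv.ext
      intro x
      change gHom D (a * b) x = gHom D a (gHom D b x)
      rw [gHom_mul]
      rfl)

theorem gAct_gen (g : G) (p : Vtx D) : gAct D g (gen p) = gen (vAct D g p) := gHom_gen D g p

private noncomputable def fG : G →* Equiv.Perm (RAAG (gr D)) :=
  (MulAut.toPerm (RAAG (gr D))).comp (gAct D)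

private theorem fG_apply (g : G) (x : RAAG (gr D)) : fG D g x = gAct D g x := rfl

private theorem fG_inv_apply (g : G) (x : RAAG (gr D)) : (fG D g)⁻¹ x = gAct D g⁻¹ x := by
  rw [← map_inv]
  rfl

private noncomputable def xL (i : ℕ) : Equiv.Perm (RAAG (gr D)) :=
  if h : i < D.m then Equiv.mulLeft (gen (⟨(i, 1), h⟩ : Vtx D)) else 1

private theorem xL_apply {i : ℕ} (h : i < D.m) (x : RAAG (gr D)) :
    xL D i x = gen (⟨(i, 1), h⟩ : Vtx D) * x := by
  unfold xL
  rw [dif_pos h]
  rfl

private theorem xL_one {i : ℕ} (h : D.m ≤ i) : xL D i = 1 := by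
  unfold xL
  rw [dif_neg (not_lt.2 h)]

private theorem conj_apply {i : ℕ} (h : i < D.m) (g : G) (x : RAAG (gr D)) :
    (fG D g * xL D i * (fG D g)⁻¹) x = gen (⟨(i, g), h⟩ : Vtx D) * x := by
  rw [Equiv.Perm.mul_apply, Equiv.Perm.mul_apply, xL_apply D h, fG_apply, fG_inv_apply, map_mul,
    gAct_gen]
  have e1 : gAct D g (gAct D g⁻¹ x) = x := by
    have : gAct D g * gAct D g⁻¹ = 1 := by rw [← map_mul, mul_inv_cancel, map_one]
    exact DFunLike.congr_fun this x
  rw [e1]
  congr 2
  apply Subtype.ext
  change (i, g * 1) = (i, g)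
  rw [mul_one]

/-- The action of `D.Grp D.m` on `RAAG (gr D)`. -/
noncomputable def act : D.Grp D.m →* Equiv.Perm (RAAG (gr D)) :=
  D.lift D.m (fG D) (xL D) (by
    intro i p hp
    rcases lt_or_ge i D.m with hi | hi
    · have hp1 : p.1 < i := D.lt i p hp
      have hpm : p.1 < D.m := hp1.trans hi
      have hadj : (gr D).Adj (⟨(i, 1), hi⟩ : Vtx D) ⟨(p.1, p.2), hpm⟩ := by
        rw [adj_iff]
        right
        change (p.1, (1 : G)⁻¹ * p.2) ∈ D.T i
        rw [inv_one, one_mul]
        exact hp
      apply Equiv.ext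
      intro x
      change xL D i ((fG D p.2 * xL D p.1 * (fG D p.2)⁻¹) x) =
        (fG D p.2 * xL D p.1 * (fG D p.2)⁻¹) (xL D i x)
      rw [conj_apply D hpm, conj_apply D hpm, xL_apply D hi, xL_apply D hi, ← mul_assoc,
        ← mul_assoc, (gen_comm D hadj).eq]
    · rw [xL_one D hi]
      exact Commute.one_left _) fun i hi => xL_one D hi

theorem act_ι (g : G) (x : RAAG (gr D)) : act D (D.ι D.m g) x = gAct D g x := by
  have h : act D (D.ι D.m g) = fG D g := D.lift_ι g
  rw [h]
  rfl

theorem act_v (i : ℕ) (hi : i < D.m) (x : RAAG (gr D)) :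
    act D (D.v D.m i) x = gen (⟨(i, 1), hi⟩ : Vtx D) * x := by
  have h : act D (D.v D.m i) = xL D i := D.lift_v i
  rw [h, xL_apply D hi]

theorem act_mul_gen (a : D.Grp D.m) (x : RAAG (gr D)) (p : Vtx D) :
    act D a (x * gen p) = act D a x * gen (vAct D (D.ret D.m a) p) := by
  let N : Subgroup (D.Grp D.m) :=
    { carrier := {a | ∀ (x : RAAG (gr D)) (p : Vtx D),
        act D a (x * gen p) = act D a x * gen (vAct D (D.ret D.m a) p)}
      mul_mem' := by
        intro a b ha hb x p
        rw [map_mul (act D), map_mul (D.ret D.m), map_mul (vAct D), Equiv.Perm.mul_apply,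
          Equiv.Perm.mul_apply, hb, ha]
        rfl
      one_mem' := by
        intro x p
        rw [map_one, map_one, map_one]
        rfl
      inv_mem' := by
        intro a ha x p
        have h1 := ha (act D a⁻¹ x) (vAct D (D.ret D.m a⁻¹) p)
        have h2 : act D a (act D a⁻¹ x) = x := by
          rw [map_inv]
          exact Equiv.apply_symm_apply _ _
        have h3 : vAct D (D.ret D.m a) (vAct D (D.ret D.m a⁻¹) p) = p := by
          have : vAct D (D.ret D.m a) * vAct D (D.ret D.m a⁻¹) = 1 := by
            rw [← map_mul, ← map_mul, mul_inv_cancel, map_one, map_one]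
          exact DFunLike.congr_fun this p
        rw [h2, h3] at h1
        rw [← h1]
        rw [map_inv (act D)]
        exact Equiv.symm_apply_apply _ _ }
  have hN : N = ⊤ := by
    apply closure_eq
    · intro g x p
      rw [act_ι, act_ι, map_mul, gAct_gen, Datum.ret_ι]
    · intro i hi x p
      rw [act_v D i hi, act_v D i hi, Datum.ret_v, map_one, mul_assoc]
      rfl
  have ha : a ∈ N := by rw [hN]; exact Subgroup.mem_top a
  exact ha x p

theorem ht_act (a : D.Grp D.m) (x : RAAG (gr D)) :
    ht (act D a x) = Multiplicative.toAdd (D.deg D.m a) + ht x := by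
  have hg : ∀ (g : G) (y : RAAG (gr D)), ht (gAct D g y) = ht y := by
    intro g y
    have h : (raagLift (Γ := gr D) (fun _ => Multiplicative.ofAdd (1 : ℤ))
        (fun _ _ _ => Commute.all _ _)).comp (gAct D g).toMonoidHom =
        raagLift (Γ := gr D) (fun _ => Multiplicative.ofAdd (1 : ℤ))
        (fun _ _ _ => Commute.all _ _) := by
      apply raag_hom_ext
      intro p
      change raagLift (Γ := gr D) (fun _ => Multiplicative.ofAdd (1 : ℤ))
        (fun _ _ _ => Commute.all _ _) (gAct D g (gen p)) = _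
      rw [gAct_gen, raagLift_of]
      exact raagLift_of _ _ _
    exact congrArg Multiplicative.toAdd (DFunLike.congr_fun h y)
  let N : Subgroup (D.Grp D.m) :=
    { carrier := {a | ∀ x : RAAG (gr D),
        ht (act D a x) = Multiplicative.toAdd (D.deg D.m a) + ht x}
      mul_mem' := by
        intro a b ha hb x
        rw [map_mul, map_mul, Equiv.Perm.mul_apply, ha, hb, toAdd_mul, add_assoc]
      one_mem' := by
        intro x
        rw [map_one, map_one, toAdd_one, zero_add]
        rfl
      inv_mem' := by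
        intro a ha x
        have h1 := ha (act D a⁻¹ x)
        have h2 : act D a (act D a⁻¹ x) = x := by
          rw [map_inv]
          exact Equiv.apply_symm_apply _ _
        rw [h2] at h1
        rw [map_inv (D.deg D.m), toAdd_inv, h1]
        ring }
  have hN : N = ⊤ := by
    apply closure_eq
    · intro g x
      rw [act_ι, hg, Datum.deg_ι, toAdd_one, zero_add]
    · intro i hi x
      rw [act_v D i hi, ht_mul, ht_gen, Datum.deg_v D _ hi, toAdd_ofAdd]
  have ha : a ∈ N := by rw [hN]; exact Subgroup.mem_top a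
  exact ha x

/-- The inclusion of the right-angled Artin group. -/
noncomputable def inv : RAAG (gr D) →* D.Grp D.m :=
  raagLift (fun p => D.cj D.m p.1) fun _ _ hab => D.cj_comm hab

theorem inv_gen (p : Vtx D) : inv D (gen p) = D.cj D.m p.1 := raagLift_of _ _ _

theorem inv_gAct (g : G) (x : RAAG (gr D)) :
    inv D (gAct D g x) = D.ι D.m g * inv D x * (D.ι D.m g)⁻¹ := by
  have h : (inv D).comp (gAct D g).toMonoidHom =
      (MulAut.conj (D.ι D.m g)).toMonoidHom.comp (inv D) := by
    apply raag_hom_ext
    intro p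
    change inv D (gAct D g (gen p)) = D.ι D.m g * inv D (gen p) * (D.ι D.m g)⁻¹
    rw [gAct_gen, inv_gen, inv_gen]
    change D.ι D.m (g * p.1.2) * D.v D.m p.1.1 * (D.ι D.m (g * p.1.2))⁻¹ =
      D.ι D.m g * (D.ι D.m p.1.2 * D.v D.m p.1.1 * (D.ι D.m p.1.2)⁻¹) * (D.ι D.m g)⁻¹
    rw [map_mul]
    group
  exact DFunLike.congr_fun h x

theorem act_inv (x y : RAAG (gr D)) : act D (inv D x) y = x * y := by
  have h : (act D).comp (inv D) = MulAction.toPermHom (RAAG (gr D)) (RAAG (gr D)) := by
    apply raag_hom_ext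
    intro p
    apply Equiv.ext
    intro y
    change act D (inv D (gen p)) y = gen p * y
    rw [inv_gen, Datum.cj, map_mul, map_mul, Equiv.Perm.mul_apply, Equiv.Perm.mul_apply, ← map_inv,
      act_ι, act_v D p.1.1 p.2, act_ι, map_mul, gAct_gen]
    have e1 : gAct D p.1.2 (gAct D p.1.2⁻¹ y) = y := by
      have : gAct D p.1.2 * gAct D p.1.2⁻¹ = 1 := by rw [← map_mul, mul_inv_cancel, map_one]
      exact DFunLike.congr_fun this y
    rw [e1]
    congr 2
    apply Subtype.ext
    change (p.1.1, p.1.2 * 1) = p.1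
    rw [mul_one]
  exact Equiv.congr_fun (DFunLike.congr_fun h x) y

theorem ret_inv (x : RAAG (gr D)) : D.ret D.m (inv D x) = 1 := by
  have h : (D.ret D.m).comp (inv D) = 1 := by
    apply raag_hom_ext
    intro p
    change D.ret D.m (inv D (gen p)) = 1
    rw [inv_gen, Datum.ret_cj]
  exact DFunLike.congr_fun h x

theorem act_eq (a : D.Grp D.m) : a = inv D (act D a 1) * D.ι D.m (D.ret D.m a) := by
  have key : ∀ a : D.Grp D.m, a = inv D (act D a 1) * D.ι D.m (D.ret D.m a) →
      ∀ y : RAAG (gr D), inv D (act D a y) =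
        a * inv D y * (D.ι D.m (D.ret D.m a))⁻¹ := by
    intro a ha y
    have h1 : act D a y = act D a 1 * gAct D (D.ret D.m a) y := by
      conv_lhs => rw [ha]
      rw [map_mul, Equiv.Perm.mul_apply, act_ι, act_inv]
    rw [h1, map_mul, inv_gAct]
    have h2 : a * inv D y * (D.ι D.m (D.ret D.m a))⁻¹ =
        (inv D (act D a 1) * D.ι D.m (D.ret D.m a)) * inv D y * (D.ι D.m (D.ret D.m a))⁻¹ := by
      rw [← ha]
    rw [h2]
    group
  let N : Subgroup (D.Grp D.m) :=
    { carrier := {a | a = inv D (act D a 1) * D.ι D.m (D.ret D.m a)}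
      mul_mem' := by
        intro a b ha hb
        change a * b = inv D (act D (a * b) 1) * D.ι D.m (D.ret D.m (a * b))
        have hb' : b = inv D (act D b 1) * D.ι D.m (D.ret D.m b) := hb
        rw [map_mul (act D), Equiv.Perm.mul_apply, key a ha, map_mul (D.ret D.m), map_mul (D.ι D.m)]
        conv_lhs => rw [hb']
        group
      one_mem' := by
        change (1 : D.Grp D.m) = inv D (act D 1 1) * D.ι D.m (D.ret D.m 1)
        rw [map_one (act D), Equiv.Perm.one_apply, map_one (inv D), map_one (D.ret D.m),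
          map_one (D.ι D.m), mul_one]
      inv_mem' := by
        intro a ha
        change a⁻¹ = inv D (act D a⁻¹ 1) * D.ι D.m (D.ret D.m a⁻¹)
        have h1 := key a ha (act D a⁻¹ 1)
        have h2 : act D a (act D a⁻¹ 1) = 1 := by
          rw [map_inv]
          exact Equiv.apply_symm_apply _ _
        rw [h2, map_one] at h1
        rw [map_inv (D.ret D.m), map_inv (D.ι D.m)]
        refine inv_eq_of_mul_eq_one_right ?_
        rw [← mul_assoc]
        exact h1.symm }
  have hN : N = ⊤ := by
    apply closure_eq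
    · intro g
      change D.ι D.m g = inv D (act D (D.ι D.m g) 1) * D.ι D.m (D.ret D.m (D.ι D.m g))
      rw [act_ι, map_one, map_one, one_mul, Datum.ret_ι]
    · intro i hi
      change D.v D.m i = inv D (act D (D.v D.m i) 1) * D.ι D.m (D.ret D.m (D.v D.m i))
      rw [act_v D i hi, mul_one, inv_gen, Datum.ret_v, map_one, mul_one, Datum.cj, map_one, one_mul,
        inv_one, mul_one]
  have ha : a ∈ N := by rw [hN]; exact Subgroup.mem_top a
  exact ha

end Pool.Agent.H16.BV
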