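import Mathlib
import Pool.Agent.H16.BV.Defs

/-!
Permutation modules of free actions with finitely many orbits are finitely generated and free.

PROOF. Choose a set `O` of representatives of the orbits (finite: a subset of `S`); every `x` is
`q • o` for a unique pair `(q, o)` (freeness). The map `(O →₀ MonoidAlgebra ℤ Q) → X →₀ ℤ`,
`single o (single q 1) ↦ single (q • o) 1` is a linear bijection over `MonoidAlgebra ℤ Q`. (Or: it is
a basis; or use `Representation.finsuppLEquivFreeAsModule`.)
-/

set_option autoImplicit false

namespace Pool.Agent.H16.BV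

open Function

/-- The permutation representation. -/
noncomputable def permRep (Q X : Type) [Group Q] [MulAction Q X] :
    Representation ℤ Q (X →₀ ℤ) where
  toFun q := Finsupp.lmapDomain ℤ ℤ fun x => q • x
  map_one' := by
    ext
    simp
  map_mul' a b := by
    ext
    simp [mul_smul]

theorem permRep_single {Q X : Type} [Group Q] [MulAction Q X] (q : Q) (x : X) (a : ℤ) :
    permRep Q X q (Finsupp.single x a) = Finsupp.single (q • x) a := by
  simp [permRep]

theorem perm_free (Q X : Type) [Group Q] [MulAction Q X] (hfree : ∀ (q : Q) (x : X), q • x = x → q = 1)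
    (hfin : ∃ S : Set X, S.Finite ∧ ∀ x, ∃ q : Q, q • x ∈ S) :
    Module.Finite (MonoidAlgebra ℤ Q) (permRep Q X).asModule ∧
      Module.Projective (MonoidAlgebra ℤ Q) (permRep Q X).asModule := by
  classical
  obtain ⟨S, hS, hSc⟩ := hfin
  let O := MulAction.orbitRel.Quotient Q X
  have : Finite O := by
    have : Finite S := hS
    refine Finite.of_surjective (fun s : S => (Quotient.mk (MulAction.orbitRel Q X) (s : X) : O)) ?_
    intro o
    induction o using Quotient.inductionOn with
    | h x =>
      obtain ⟨q, hq⟩ := hSc x
      refine ⟨⟨q • x, hq⟩, Quotient.sound ?_⟩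
      exact ⟨q, rfl⟩
  let out : O → X := Quotient.out
  have hout : ∀ x : X, ∃ q : Q, q • out (Quotient.mk (MulAction.orbitRel Q X) x) = x := by
    intro x
    have := (Quotient.exact (Quotient.out_eq (Quotient.mk (MulAction.orbitRel Q X) x)))
    obtain ⟨q, hq⟩ := Setoid.symm' (MulAction.orbitRel Q X) this
    exact ⟨q, hq⟩
  let E : O × Q ≃ X := Equiv.ofBijective (fun p => p.2 • out p.1) (by
    constructor
    · rintro ⟨o, q⟩ ⟨o', q'⟩ h
      simp only at h
      have ho : o = o' := by
        rw [← Quotient.out_eq o, ← Quotient.out_eq o']
        refine Quotient.sound ⟨q⁻¹ * q', ?_⟩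
        show (q⁻¹ * q') • out o' = out o
        rw [mul_smul, ← h, inv_smul_smul]
      subst ho
      have : (q'⁻¹ * q) • out o = out o := by
        rw [mul_smul, h, inv_smul_smul]
      have := hfree _ _ this
      rw [inv_mul_eq_one] at this
      rw [this]
    · intro x
      obtain ⟨q, hq⟩ := hout x
      exact ⟨(_, q), hq⟩)
  let v : O → (permRep Q X).asModule := fun o =>
    (permRep Q X).asModuleEquiv.symm (Finsupp.single (out o) 1)
  let L : (O →₀ MonoidAlgebra ℤ Q) →ₗ[MonoidAlgebra ℤ Q] (permRep Q X).asModule :=
    Finsupp.linearCombination (MonoidAlgebra ℤ Q) v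
  let e : (O →₀ MonoidAlgebra ℤ Q) ≃ₗ[ℤ] (X →₀ ℤ) :=
    (Finsupp.mapRange.linearEquiv (MonoidAlgebra.coeffLinearEquiv ℤ)).trans
      ((Finsupp.curryLinearEquiv (M := ℤ) (α := O) (β := Q) ℤ).symm.trans
        (Finsupp.domLCongr E))
  have key : ∀ z, (permRep Q X).asModuleEquiv (L z) = e z := by
    intro z
    induction z using Finsupp.induction_linear with
    | zero => simp
    | add x y hx hy => rw [map_add, map_add, map_add, hx, hy]
    | single o a =>
      induction a using MonoidAlgebra.induction_linear with
      | zero => simp
      | add x y hx hy =>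
        rw [Finsupp.single_add, map_add, map_add, map_add, hx, hy]
      | single q a =>
        have h1 : L (Finsupp.single o (MonoidAlgebra.single q a)) =
            (MonoidAlgebra.single q a) • v o :=
          Finsupp.linearCombination_single _ _ _
        rw [h1, Representation.asModuleEquiv_map_smul, Representation.asAlgebraHom_single]
        simp only [v, LinearEquiv.apply_symm_apply, LinearMap.smul_apply, permRep_single]
        simp [e, E]
  have hbij : Bijective L := by
    have h2 : (L : _ → _) = (permRep Q X).asModuleEquiv.symm ∘ e := by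
      funext z
      simp [← key]
    rw [h2]
    exact (permRep Q X).asModuleEquiv.symm.bijective.comp e.bijective
  let LE := LinearEquiv.ofBijective L hbij
  exact ⟨Module.Finite.equiv LE, Module.Projective.of_equiv LE⟩

end Pool.Agent.H16.BV
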