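import Mathlib
import Pool.Agent.H16.BV.Perm

/-!
A finite exact complex of permutation modules of free actions with finitely many orbits shows that
the group is of type FP.

PROOF. The equivariant ℤ-linear maps are linear over `MonoidAlgebra ℤ Q`
(`MonoidAlgebra.equivariantOfLinearOfComm` or by `MonoidAlgebra.induction_on`; note that
`asModule` is a synonym). Let `N j = ker (∂ j)`, a submodule of `(X (j+1) →₀ ℤ)`.
Claim: `HasRes (MonoidAlgebra ℤ Q) k (N j)` if `m ≤ j + 1 + k`: for `k = 0`, `X (j + 1)`... if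
`m ≤ j + 1` then, as `X m` is empty, `X n = ∅`-chains: by exactness all chain groups from `m` on:
only needed: `N j = range (∂ (j+1))`. Simplest: prove by induction on `k` that
`HasRes k (N j)` for `j + 1 + k = m`: for `k = 0`, `N j` is a submodule of the zero module
`X m →₀ ℤ`, so it is zero; for `k + 1`: `∂ (j+1) : (X (j+2) →₀ ℤ) → N j` is surjective by exactness,
its source is finitely generated projective by `perm_free`, its kernel is `N (j+1)` (up to the
obvious linear equivalence: `HasRes` passes to isomorphic modules, lemma `HasRes.equiv`).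
Then `ε : (X 0 →₀ ℤ) → ℤ` is surjective with kernel `range (∂ 0)`, onto which `∂ 0` maps `X 1 →₀ ℤ`
with kernel `N 0`. If `m = 0` or `m = 1` argue directly (`X 0` empty contradicts `hsurj`; `X 1`
empty: the kernel of `ε` is zero).
-/

set_option autoImplicit false

namespace Pool.Agent.H16.BV

open Function

theorem HasRes.equiv {R : Type} [Ring R] (n : ℕ) {M N : Type} [AddCommGroup M] [Module R M]
    [AddCommGroup N] [Module R N] (e : M ≃ₗ[R] N) (h : HasRes R n M) : HasRes R n N := by
  induction n generalizing M N with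
  | zero =>
    obtain ⟨h1, h2⟩ := h
    exact ⟨Module.Finite.equiv e, Module.Projective.of_equiv e⟩
  | succ n ih =>
    obtain ⟨P, iP, mP, f, hf, hfin, hproj, hk⟩ := h
    refine ⟨P, iP, mP, e.toLinearMap.comp f, e.surjective.comp hf, hfin, hproj, ?_⟩
    have hker : LinearMap.ker (e.toLinearMap.comp f) = LinearMap.ker f := by
      rw [LinearMap.ker_comp, LinearEquiv.ker]
      rfl
    exact ih (LinearEquiv.ofEq _ _ hker.symm) hk

/-- An equivariant map as a linear map over the group ring. -/
private noncomputable def liftMap {Q V W : Type} [Group Q] [AddCommGroup V] [AddCommGroup W]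
    (ρ : Representation ℤ Q V) (σ : Representation ℤ Q W) (f : V →ₗ[ℤ] W)
    (hf : ∀ q z, f (ρ q z) = σ q (f z)) : ρ.asModule →ₗ[MonoidAlgebra ℤ Q] σ.asModule where
  toFun z := σ.asModuleEquiv.symm (f (ρ.asModuleEquiv z))
  map_add' x y := by simp
  map_smul' r x := by
    simp only [RingHom.id_apply]
    rw [LinearEquiv.symm_apply_eq, Representation.asModuleEquiv_map_smul,
      Representation.asModuleEquiv_map_smul, LinearEquiv.apply_symm_apply]
    induction r using MonoidAlgebra.induction_linear with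
    | zero => simp
    | add a b ha hb => simp only [map_add, LinearMap.add_apply, ha, hb]
    | single q a => simp [Representation.asAlgebraHom_single, hf]

private theorem liftMap_apply {Q V W : Type} [Group Q] [AddCommGroup V] [AddCommGroup W]
    (ρ : Representation ℤ Q V) (σ : Representation ℤ Q W) (f : V →ₗ[ℤ] W)
    (hf : ∀ q z, f (ρ q z) = σ q (f z)) (z : ρ.asModule) :
    σ.asModuleEquiv (liftMap ρ σ f hf z) = f (ρ.asModuleEquiv z) := by
  simp [liftMap]

/-- A surjection onto a submodule given by exactness. -/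
private theorem step {R : Type} [Ring R] {P M N : Type} [AddCommGroup P] [Module R P]
    [AddCommGroup M] [Module R M] [AddCommGroup N] [Module R N] (d : P →ₗ[R] M) (d' : M →ₗ[R] N)
    (hex : ∀ z, d' z = 0 ↔ ∃ y, d y = z) (n : ℕ) (hfin : Module.Finite R P)
    (hproj : Module.Projective R P) (hk : HasRes R n (LinearMap.ker d)) :
    HasRes R (n + 1) (LinearMap.ker d') := by
  refine ⟨P, inferInstance, inferInstance, d.codRestrict (LinearMap.ker d')
    (fun y => (hex _).2 ⟨y, rfl⟩), ?_, hfin, hproj, ?_⟩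
  · rintro ⟨z, hz⟩
    obtain ⟨y, hy⟩ := (hex z).1 hz
    exact ⟨y, Subtype.ext hy⟩
  · refine HasRes.equiv n (LinearEquiv.ofEq _ _ ?_) hk
    ext y
    simp only [LinearMap.mem_ker]
    constructor
    · intro h
      exact Subtype.ext h
    · intro h
      exact congrArg Subtype.val h

theorem fp_of_complex {Q : Type} [Group Q] (X : ℕ → Type) [∀ n, MulAction Q (X n)]
    (hfree : ∀ n, ∀ (q : Q) (x : X n), q • x = x → q = 1)
    (hfin : ∀ n, ∃ S : Set (X n), S.Finite ∧ ∀ x : X n, ∃ q : Q, q • x ∈ S)
    (bd : ∀ n, (X (n + 1) →₀ ℤ) →ₗ[ℤ] (X n →₀ ℤ))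
    (hbd : ∀ n q z, bd n (permRep Q (X (n + 1)) q z) = permRep Q (X n) q (bd n z))
    (ε : (X 0 →₀ ℤ) →ₗ[ℤ] ℤ) (hε : ∀ q z, ε (permRep Q (X 0) q z) = ε z) (hsurj : Surjective ε)
    (hex0 : ∀ z, ε z = 0 ↔ ∃ y, bd 0 y = z)
    (hex : ∀ n z, bd n z = 0 ↔ ∃ y, bd (n + 1) y = z) (m : ℕ) (hm : IsEmpty (X m)) : FP Q := by
  let R := MonoidAlgebra ℤ Q
  let C : ℕ → Type := fun n => (permRep Q (X n)).asModule
  let D : ∀ n, (permRep Q (X (n + 1))).asModule →ₗ[R] (permRep Q (X n)).asModule := fun n =>
    liftMap _ _ (bd n) (hbd n)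
  let E : (permRep Q (X 0)).asModule →ₗ[R] (Representation.trivial ℤ Q ℤ).asModule :=
    liftMap _ _ ε (fun q z => by simp [hε])
  have hP := fun n => perm_free Q (X n) (hfree n) (hfin n)
  have hD : ∀ n z, D n z = 0 ↔ ∃ y, D (n + 1) y = z := by
    intro n z
    have h1 : D n z = 0 ↔ bd n ((permRep Q (X (n + 1))).asModuleEquiv z) = 0 := by
      rw [← (permRep Q (X n)).asModuleEquiv.map_eq_zero_iff, liftMap_apply]
    rw [h1, hex]
    constructor
    · rintro ⟨y, hy⟩
      refine ⟨(permRep Q (X (n + 1 + 1))).asModuleEquiv.symm y, ?_⟩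
      apply (permRep Q (X (n + 1))).asModuleEquiv.injective
      rw [liftMap_apply, LinearEquiv.apply_symm_apply, hy]
    · rintro ⟨y, hy⟩
      refine ⟨(permRep Q (X (n + 1 + 1))).asModuleEquiv y, ?_⟩
      rw [← hy, liftMap_apply]
  have hE : ∀ z, E z = 0 ↔ ∃ y, D 0 y = z := by
    intro z
    have h1 : E z = 0 ↔ ε ((permRep Q (X 0)).asModuleEquiv z) = 0 := by
      rw [← (Representation.trivial ℤ Q ℤ).asModuleEquiv.map_eq_zero_iff, liftMap_apply]
    rw [h1, hex0]
    constructor
    · rintro ⟨y, hy⟩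
      refine ⟨(permRep Q (X (0 + 1))).asModuleEquiv.symm y, ?_⟩
      apply (permRep Q (X 0)).asModuleEquiv.injective
      rw [liftMap_apply, LinearEquiv.apply_symm_apply, hy]
    · rintro ⟨y, hy⟩
      refine ⟨(permRep Q (X (0 + 1))).asModuleEquiv y, ?_⟩
      rw [← hy, liftMap_apply]
  have hEs : Surjective E := by
    intro w
    obtain ⟨y, hy⟩ := hsurj ((Representation.trivial ℤ Q ℤ).asModuleEquiv w)
    refine ⟨(permRep Q (X 0)).asModuleEquiv.symm y, ?_⟩
    apply (Representation.trivial ℤ Q ℤ).asModuleEquiv.injective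
    rw [liftMap_apply, LinearEquiv.apply_symm_apply, hy]
  -- the resolution of the kernels
  have hker : ∀ k j, j + 1 + k = m → HasRes R k (LinearMap.ker (D j)) := by
    intro k
    induction k with
    | zero =>
      intro j hj
      have hj' : j + 1 = m := by omega
      have : IsEmpty (X (j + 1)) := by rw [hj']; exact hm
      have : Subsingleton (permRep Q (X (j + 1))).asModule :=
        inferInstanceAs (Subsingleton (X (j + 1) →₀ ℤ))
      have : Subsingleton (LinearMap.ker (D j)) := inferInstance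
      exact ⟨inferInstance, inferInstance⟩
    | succ k ih =>
      intro j hj
      exact step (D (j + 1)) (D j) (hD j) k (hP (j + 2)).1 (hP (j + 2)).2 (ih (j + 1) (by omega))
  rcases Nat.eq_zero_or_pos m with h0 | hpos
  · subst h0
    exfalso
    obtain ⟨y, hy⟩ := hsurj 1
    have : y = 0 := Subsingleton.elim _ _
    rw [this, map_zero] at hy
    exact zero_ne_one hy
  · refine ⟨(m - 1) + 1 + 1, ?_⟩
    refine ⟨_, inferInstance, inferInstance, E, hEs, (hP 0).1, (hP 0).2, ?_⟩
    exact step (D 0) E hE _ (hP 1).1 (hP 1).2 (hker (m - 1) 0 (by omega))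

end Pool.Agent.H16.BV
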