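import Mathlib
import Pool.Agent.H16.BV.Cube

/-!
A function on a right-angled Artin group which changes along exactly one coset.

`par U` is the subgroup generated by the vertices in `U`.

PROOF of `potential` (no normal forms, only the universal property). Write `U = U' ∪ W`, and
`R = RAAG (Γ.induce U)` (`Γ.comap Subtype.val` on the subtype). Translating by `y` on the left we
may take `y = 1` (use `f x := F (y⁻¹ * x)`). Let `Z = Multiplicative ℤ` and let
`Ψ : RAAG Γ →* RegularWreathProduct Z R` be given by `raagLift`: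
* `u ∉ U` goes to `1`, `u ∈ U'` goes to `⟨1, of u⟩` (`RegularWreathProduct.inl`),
* `w ∈ W` goes to `⟨E w, of w⟩` with `E w = 1` for `w ≠ v` and
  `E v n = if n⁻¹ ∈ C' then ofAdd 1 else 1`, `C' =` subgroup of `R` generated by the `u ∈ U'`
  adjacent to `v`.
Adjacent generators go to commuting elements: two elements of `W` are not adjacent, two elements of
`U'` are clear, and for `u ∈ U'` adjacent to `v` one needs `E v (u⁻¹ n) = E v n`, true since
`(u⁻¹ n)⁻¹ = n⁻¹ u` and `u ∈ C'`. (`W` and `U'` are disjoint.)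
`right (Ψ x)` is the retraction `r : RAAG Γ →* R`. Put `F x = toAdd (left (Ψ x) 1)` for
`x ∈ par U` and `F x = 0` otherwise. As `left (ab) n = left a n * left b ((right a)⁻¹ n)`:
`F (x u) = F x` for `u ∈ U'`, and `F (x w) = F x + toAdd (E w ((r x)⁻¹))` for `w ∈ W`, which is
`F x + 1` exactly if `w = v` and `r x ∈ C'`. For `x ∈ par U` one has `r x ∈ C'` iff
`x ∈ par (U' ∩ neighbours of v)`: the homomorphism `R →* RAAG Γ` (inclusion of the vertices) sends
`r x` to `x` for `x ∈ par U` and maps `C'` onto that subgroup; conversely `r` maps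
`par (U' ∩ neighbours)` into `C'`. For `x ∉ par U` also `x w ∉ par U` and
`x ∉ par (U' ∩ neighbours)`.
-/

set_option autoImplicit false

namespace Pool.Agent.H16.BV

open Function Pool.Agent.H16.BB

variable {V : Type} {Γ : SimpleGraph V}

/-- The subgroup generated by the vertices in `U`. -/
def par (Γ : SimpleGraph V) (U : Set V) : Subgroup (RAAG Γ) := Subgroup.closure (gen '' U)

open Classical in
theorem potential (U' W : Set V) (hW : ∀ a ∈ W, ∀ b ∈ W, ¬ Γ.Adj a b) (hd : Disjoint U' W)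
    (v : V) (hv : v ∈ W) (y : RAAG Γ) :
    ∃ f : RAAG Γ → ℤ, (∀ x, ∀ u ∈ U', f (x * gen u) = f x) ∧
      ∀ x, ∀ w ∈ W, f (x * gen w) = f x +
        if w = v ∧ y⁻¹ * x ∈ par Γ (U' ∩ Γ.neighborSet v) then 1 else 0 := by
  let U : Set V := U' ∪ W
  let R := RAAG (Γ.comap (Subtype.val : U → V))
  let ι : R →* RAAG Γ := raagLift (fun a : U => gen a.1) (fun a b hab => raag_comm hab)
  have hι : ∀ a : U, ι (PresentedGroup.of a) = gen a.1 := fun a => raagLift_of _ _ a
  let C' : Subgroup R := Subgroup.closure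
    {z | ∃ a : U, a.1 ∈ U' ∧ Γ.Adj v a.1 ∧ z = PresentedGroup.of a}
  let E : V → R → Multiplicative ℤ := fun w n =>
    if w = v ∧ n⁻¹ ∈ C' then Multiplicative.ofAdd 1 else 1
  let X : V → RegularWreathProduct (Multiplicative ℤ) R := fun a =>
    if h : a ∈ U then (if a ∈ W then ⟨E a, PresentedGroup.of ⟨a, h⟩⟩ else
      ⟨1, PresentedGroup.of ⟨a, h⟩⟩) else 1
  have hX0 : ∀ a, a ∉ U → X a = 1 := fun a ha => dif_neg ha
  have hXW : ∀ a (ha : a ∈ U), a ∈ W → X a = ⟨E a, PresentedGroup.of ⟨a, ha⟩⟩ := by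
    intro a ha h
    change (if h : a ∈ U then _ else _) = _
    rw [dif_pos ha, if_pos h]
  have hXU : ∀ a (ha : a ∈ U), a ∉ W → X a = ⟨1, PresentedGroup.of ⟨a, ha⟩⟩ := by
    intro a ha h
    change (if h : a ∈ U then _ else _) = _
    rw [dif_pos ha, if_neg h]
  have hRc : ∀ (a b : V) (ha : a ∈ U) (hb : b ∈ U), Γ.Adj a b →
      (PresentedGroup.of ⟨a, ha⟩ : R) * PresentedGroup.of ⟨b, hb⟩ =
        PresentedGroup.of ⟨b, hb⟩ * PresentedGroup.of ⟨a, ha⟩ := fun a b ha hb hab =>
    (raag_comm (Γ := Γ.comap (Subtype.val : U → V)) (a := ⟨a, ha⟩) (b := ⟨b, hb⟩) hab).eq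
  have hE : ∀ (a b : V) (hb : b ∈ U), b ∈ U' → Γ.Adj a b → ∀ n : R,
      E a ((PresentedGroup.of ⟨b, hb⟩)⁻¹ * n) = E a n := by
    intro a b hb hbU hab n
    change (if _ then _ else _) = (if _ then _ else _)
    refine if_congr ?_ rfl rfl
    refine and_congr_right fun hav => ?_
    subst hav
    rw [mul_inv_rev, inv_inv]
    exact Subgroup.mul_mem_cancel_right _ (Subgroup.subset_closure ⟨⟨b, hb⟩, hbU, hab, rfl⟩)
  have hcomm1 : ∀ a b, Γ.Adj a b → a ∈ W → X a * X b = X b * X a := by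
    intro a b hab haW
    have ha : a ∈ U := Or.inr haW
    by_cases hb : b ∈ U
    · have hbW : b ∉ W := fun h => hW a haW b h hab
      have hbU : b ∈ U' := hb.resolve_right hbW
      rw [hXW a ha haW, hXU b hb hbW]
      refine RegularWreathProduct.ext ?_ (hRc a b ha hb hab)
      funext n
      change E a n * 1 = 1 * E a ((PresentedGroup.of ⟨b, hb⟩)⁻¹ * n)
      rw [hE a b hb hbU hab n, mul_one, one_mul]
    · rw [hX0 b hb, mul_one, one_mul]
  have hcomm : ∀ a b, Γ.Adj a b → Commute (X a) (X b) := by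
    intro a b hab
    by_cases haW : a ∈ W
    · exact hcomm1 a b hab haW
    by_cases hbW : b ∈ W
    · exact (hcomm1 b a hab.symm hbW).symm
    by_cases ha : a ∈ U
    · by_cases hb : b ∈ U
      · rw [hXU a ha haW, hXU b hb hbW]
        exact RegularWreathProduct.ext rfl (hRc a b ha hb hab)
      · rw [hX0 b hb]
        exact Commute.one_right _
    · rw [hX0 a ha]
      exact Commute.one_left _
  let Ψ : RAAG Γ →* RegularWreathProduct (Multiplicative ℤ) R := raagLift X hcomm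
  have hΨ : ∀ a, Ψ (gen a) = X a := fun a => raagLift_of _ _ a
  let r : RAAG Γ →* R := RegularWreathProduct.rightHom.comp Ψ
  have hr : ∀ a (ha : a ∈ U), r (gen a) = PresentedGroup.of ⟨a, ha⟩ := by
    intro a ha
    change (Ψ (gen a)).right = _
    rw [hΨ]
    by_cases h : a ∈ W
    · rw [hXW a ha h]
    · rw [hXU a ha h]
  have hιr : ∀ x ∈ par Γ U, ι (r x) = x := by
    have h1 : par Γ U ≤ (ι.comp r).eqLocus (MonoidHom.id _) := by
      rw [par, Subgroup.closure_le]
      rintro _ ⟨a, ha, rfl⟩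
      change ι (r (gen a)) = gen a
      rw [hr a ha, hι]
    exact fun x hx => h1 hx
  have hC1 : C' ≤ (par Γ (U' ∩ Γ.neighborSet v)).comap ι := by
    change Subgroup.closure _ ≤ _
    rw [Subgroup.closure_le]
    rintro _ ⟨a, ha, hva, rfl⟩
    change ι (PresentedGroup.of a) ∈ par Γ (U' ∩ Γ.neighborSet v)
    rw [hι]
    exact Subgroup.subset_closure ⟨a.1, ⟨ha, hva⟩, rfl⟩
  have hC2 : par Γ (U' ∩ Γ.neighborSet v) ≤ C'.comap r := by
    rw [par, Subgroup.closure_le]
    rintro _ ⟨a, ⟨ha, hva⟩, rfl⟩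
    change r (gen a) ∈ C'
    rw [hr a (Or.inl ha)]
    exact Subgroup.subset_closure ⟨⟨a, Or.inl ha⟩, ha, hva, rfl⟩
  have hC : ∀ x ∈ par Γ U, (r x ∈ C' ↔ x ∈ par Γ (U' ∩ Γ.neighborSet v)) := by
    intro x hx
    constructor
    · intro h
      have h2 := hC1 h
      rw [Subgroup.mem_comap, hιr x hx] at h2
      exact h2
    · exact fun h => hC2 h
  have hparU : par Γ (U' ∩ Γ.neighborSet v) ≤ par Γ U :=
    Subgroup.closure_mono (Set.image_mono (Set.inter_subset_left.trans Set.subset_union_left))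
  have hgenU : ∀ a ∈ U, (gen a : RAAG Γ) ∈ par Γ U := fun a ha =>
    Subgroup.subset_closure ⟨a, ha, rfl⟩
  let F : RAAG Γ → ℤ := fun x => if x ∈ par Γ U then Multiplicative.toAdd ((Ψ x).left 1) else 0
  have hF : ∀ x ∈ par Γ U, F x = Multiplicative.toAdd ((Ψ x).left 1) := fun x hx => if_pos hx
  have hF0 : ∀ x, x ∉ par Γ U → F x = 0 := fun x hx => if_neg hx
  have hleft : ∀ x a, (Ψ (x * gen a)).left 1 = (Ψ x).left 1 * (X a).left ((r x)⁻¹) := by
    intro x a
    rw [map_mul, hΨ]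
    change (Ψ x).left 1 * (X a).left ((Ψ x).right⁻¹ * 1) = _
    rw [mul_one]
    rfl
  refine ⟨fun x => F (y⁻¹ * x), ?_, ?_⟩
  · intro x u hu
    have huU : u ∈ U := Or.inl hu
    have huW : u ∉ W := fun h => (Set.disjoint_left.1 hd) hu h
    change F (y⁻¹ * (x * gen u)) = F (y⁻¹ * x)
    rw [← mul_assoc]
    by_cases hx : y⁻¹ * x ∈ par Γ U
    · rw [hF _ hx, hF _ (Subgroup.mul_mem _ hx (hgenU u huU)), hleft, hXU u huU huW]
      change Multiplicative.toAdd (_ * 1) = _
      rw [mul_one]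
    · rw [hF0 _ hx, hF0 _ (fun h => hx ((Subgroup.mul_mem_cancel_right _ (hgenU u huU)).1 h))]
  · intro x w hw
    have hwU : w ∈ U := Or.inr hw
    change F (y⁻¹ * (x * gen w)) = F (y⁻¹ * x) + _
    rw [← mul_assoc]
    by_cases hx : y⁻¹ * x ∈ par Γ U
    · rw [hF _ hx, hF _ (Subgroup.mul_mem _ hx (hgenU w hwU)), hleft, hXW w hwU hw, toAdd_mul]
      refine congrArg _ ?_
      change Multiplicative.toAdd (if w = v ∧ ((r (y⁻¹ * x))⁻¹)⁻¹ ∈ C' then
        Multiplicative.ofAdd 1 else 1) = _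
      rw [inv_inv, hC _ hx]
      split_ifs <;> rfl
    · rw [hF0 _ hx, hF0 _ (fun h => hx ((Subgroup.mul_mem_cancel_right _ (hgenU w hwU)).1 h)),
        if_neg (fun h => hx (hparU h.2)), add_zero]

end Pool.Agent.H16.BV
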