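import Mathlib
import Pool.Agent.H16.BV.Potential

/-!
Chains of vertices whose sums over the cosets vanish are boundaries.

PROOF. `z` is supported on `(x, [])`; the sums of the coefficients over the left cosets of `par U`
vanish, so `z` is a combination of differences `(x h, []) - (x, [])` with `h ∈ par U` (for each
coset in the support choose a representative, `z = Σ a_x ((x, []) - (r(x), []))`). By
`Subgroup.closure_induction` on `h` each `(x h, []) - (x, [])`, for all `x`, is a boundary of a chain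
in `KS U 1`: `d (x, [u]) = (x u, []) - (x, [])` for `u ∈ U`; sums and inverses are clear.
-/

set_option autoImplicit false

namespace Pool.Agent.H16.BV

open Function Pool.Agent.H16.BB

variable {V : Type} {Γ : SimpleGraph V} {c : V → ℕ}

/-- The image of a chain of vertices in the free abelian group on the cosets of `par U`. -/
noncomputable def cosets (Γ : SimpleGraph V) (U : Set V) (z : Ch Γ) :
    (RAAG Γ ⧸ par Γ U) →₀ ℤ := z.mapDomain fun p => (QuotientGroup.mk p.1 : RAAG Γ ⧸ par Γ U)

private theorem step (U : Set V) (h : RAAG Γ) (hh : h ∈ par Γ U) :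
    ∀ x : RAAG Γ, ∃ y ∈ KS Γ c U 1,
      d y = Finsupp.single (x * h, ([] : List V)) (1 : ℤ) - Finsupp.single (x, []) 1 := by
  unfold par at hh
  induction hh using Subgroup.closure_induction with
  | mem g hg =>
    obtain ⟨u, hu, rfl⟩ := hg
    intro x
    refine ⟨Finsupp.single (x, [u]) 1, ?_, ?_⟩
    · refine Finsupp.single_mem_supported ℤ (1 : ℤ) ?_
      refine ⟨List.pairwise_singleton _ _, rfl, ?_⟩
      intro v hv
      rw [List.mem_singleton] at hv
      rw [hv]
      exact hu
    · rw [d_single, one_smul]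
      simp only [dCube, Finsupp.mapDomain_zero, sub_zero]
  | one =>
    intro x
    refine ⟨0, Submodule.zero_mem _, ?_⟩
    rw [map_zero, mul_one, sub_self]
  | mul a b _ _ iha ihb =>
    intro x
    obtain ⟨y1, hy1, e1⟩ := iha x
    obtain ⟨y2, hy2, e2⟩ := ihb (x * a)
    refine ⟨y1 + y2, Submodule.add_mem _ hy1 hy2, ?_⟩
    rw [map_add, e1, e2, mul_assoc]
    abel
  | inv a _ iha =>
    intro x
    obtain ⟨y1, hy1, e1⟩ := iha (x * a⁻¹)
    refine ⟨-y1, Submodule.neg_mem _ hy1, ?_⟩
    rw [map_neg, e1, inv_mul_cancel_right]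
    abel

private theorem rep (U : Set V) (x : RAAG Γ) :
    ∃ y ∈ KS Γ c U 1, d y = Finsupp.single (x, ([] : List V)) (1 : ℤ) -
      Finsupp.single ((QuotientGroup.mk x : RAAG Γ ⧸ par Γ U).out, []) 1 := by
  obtain ⟨h, hh⟩ := QuotientGroup.mk_out_eq_mul (par Γ U) x
  obtain ⟨y, hy, e⟩ := step (c := c) U (h : RAAG Γ) h.2 x
  refine ⟨-y, Submodule.neg_mem _ hy, ?_⟩
  rw [map_neg, e, hh]
  abel

private theorem diff (U : Set V) (z : Ch Γ) (hz : z ∈ KS Γ c U 0) :
    ∃ y ∈ KS Γ c U 1, d y = z -
      z.mapDomain (fun p => ((QuotientGroup.mk p.1 : RAAG Γ ⧸ par Γ U).out, ([] : List V))) := by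
  classical
  choose Y hY eY using rep (Γ := Γ) (c := c) U
  refine ⟨z.sum fun p a => a • Y p.1, ?_, ?_⟩
  · refine Submodule.sum_mem _ ?_
    intro p _
    exact Submodule.smul_mem _ _ (hY p.1)
  · have hz' : ∀ p ∈ z.support, p.2 = [] := by
      intro p hp
      have := (Finsupp.mem_supported ℤ z).1 hz hp
      exact List.eq_nil_of_length_eq_zero this.2.1
    have e1 : d (z.sum fun p a => a • Y p.1) = z.sum fun p a =>
        (Finsupp.single p a -
          Finsupp.single ((QuotientGroup.mk p.1 : RAAG Γ ⧸ par Γ U).out, ([] : List V)) a) := by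
      rw [Finsupp.sum, map_sum, Finsupp.sum]
      refine Finset.sum_congr rfl ?_
      intro p hp
      rw [map_smul, eY, smul_sub, Finsupp.smul_single, Finsupp.smul_single, smul_eq_mul, mul_one]
      have h2 := hz' p hp
      have h3 : (p.1, ([] : List V)) = p := by
        rw [← h2]
      rw [h3]
    rw [e1, Finsupp.sum_sub, Finsupp.sum_single]
    rfl

theorem exact_zero (U : Set V) (z : Ch Γ) (hz : z ∈ KS Γ c U 0) (h0 : cosets Γ U z = 0) :
    ∃ y ∈ KS Γ c U 1, d y = z := by
  obtain ⟨y, hy, e⟩ := diff U z hz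
  refine ⟨y, hy, ?_⟩
  have h1 : z.mapDomain (fun p => ((QuotientGroup.mk p.1 : RAAG Γ ⧸ par Γ U).out,
      ([] : List V))) = (cosets Γ U z).mapDomain (fun q => (q.out, ([] : List V))) := by
    unfold cosets
    rw [← Finsupp.mapDomain_comp]
    rfl
  rw [e, h1, h0, Finsupp.mapDomain_zero, sub_zero]

end Pool.Agent.H16.BV
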