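import Mathlib
import Pool.Agent.H16.BV.ExactZero

/-!
Exactness of the cubical complex of a right-angled Artin group with finitely many colours.

PROOF of `exact_par`, by induction on the number `k` of colours of `U`, for all `n` and `z`.
Let `U' = {v ∈ U | c v < k}`, `W = {v ∈ U | c v = k}` (for the step from `k` to `k + 1`); vertices
in `W` are pairwise not adjacent (`hc`).

Case `n = 0`: `exact_zero`.

Case `n ≥ 1`: a clique in `U` either has all entries in `U'` or is `v :: l'` with `v ∈ W`, `l'` a
clique in `U' ∩ neighbours of v` (colours decrease along the list). Write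
`z = z' + Σ_{v ∈ W} cns v (z v)` (finite sum). By `d_cns`:
`0 = d z = d z' + Σ (rm v (z v) - z v) - Σ cns v (d (z v))`; comparing the cubes whose list begins
with `v ∈ W` (for `n ≥ 2`) gives `d (z v) = 0`; for `n = 1` it is clear (`d_zero`).
Claim: `z v = d (w v)` for some `w v` in `KS (U' ∩ neighbours of v) n`, by the induction hypothesis
for the set `U' ∩ neighbours of v` (colours `< k`). For `n ≥ 2` this is immediate. For `n = 1` one
has to see that the sum of the coefficients of `z v` over each coset `y (par (U' ∩ neighbours v))`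
vanishes: apply the function `f` of `potential` for `v`, `y` to
`0 = d z = d z' + Σ_w (rm w (z w) - z w)` (as a linear form `Σ a_x x ↦ Σ a_x f x`): `d z'` goes to 0
as `f` is invariant under `U'`, and `rm w (z w) - z w` goes to the sum of the coefficients of `z v`
over that coset if `w = v`, to 0 otherwise.
Then `z + d (Σ cns v (w v)) = z' + Σ (rm v (w v) - w v)` is a cycle in `KS U' n` (use `d_d`; for
`n = 1`: it is `d_zero`-free, simply `d` of it is `d z = 0`), hence, for `n ≥ 1`, a boundary by the
induction hypothesis for `U'`. If `U` has no colours (`k = 0`), `U = ∅` and there is no clique of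
length `≥ 1`.
-/

set_option autoImplicit false

namespace Pool.Agent.H16.BV

open Function Pool.Agent.H16.BB

variable {V : Type} {Γ : SimpleGraph V} {c : V → ℕ}

open Classical in
private lemma cns_cons (v : V) (y : Ch Γ) (x : RAAG Γ) (w : V) (l : List V) :
    cns v y (x, w :: l) = if w = v then y (x, l) else 0 := by
  have hinj : Injective (fun p : RAAG Γ × List V => (p.1, v :: p.2)) := by
    rintro ⟨a, b⟩ ⟨a', b'⟩ h
    simp only [Prod.mk.injEq, List.cons.injEq, true_and] at h
    rw [h.1, h.2]
  unfold cns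
  rw [Finsupp.lmapDomain_apply]
  split_ifs with h
  · subst h
    exact Finsupp.mapDomain_apply hinj y (x, l)
  · refine Finsupp.mapDomain_of_notMem_range y _ ?_
    rintro ⟨⟨a, b⟩, hab⟩
    simp only [Prod.mk.injEq, List.cons.injEq] at hab
    exact h hab.2.1.symm

private lemma cns_nil (v : V) (y : Ch Γ) (x : RAAG Γ) : cns v y (x, []) = 0 := by
  unfold cns
  rw [Finsupp.lmapDomain_apply]
  refine Finsupp.mapDomain_of_notMem_range y _ ?_
  rintro ⟨⟨a, b⟩, hab⟩
  simp at hab

private lemma memS {U : Set V} {n : ℕ} {z : Ch Γ} : z ∈ KS Γ c U n ↔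
    ∀ p, z p ≠ 0 → IsClq Γ c p.2 ∧ p.2.length = n ∧ ∀ v ∈ p.2, v ∈ U := by
  unfold KS
  rw [Finsupp.mem_supported]
  constructor
  · intro h p hp
    exact h (Finsupp.mem_support_iff.mpr hp)
  · intro h p hp
    exact h p (Finsupp.mem_support_iff.mp hp)

open Classical in
private lemma rm_mem {U : Set V} {n : ℕ} {z : Ch Γ} (v : V) (hz : z ∈ KS Γ c U n) :
    rm v z ∈ KS Γ c U n := by
  rw [memS] at hz ⊢
  intro p hp
  unfold rm at hp
  rw [Finsupp.lmapDomain_apply] at hp
  have h1 := Finsupp.mapDomain_support (Finsupp.mem_support_iff.mpr hp)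
  rw [Finset.mem_image] at h1
  obtain ⟨q, hq, rfl⟩ := h1
  exact hz q (Finsupp.mem_support_iff.mp hq)

open Classical in
private lemma cns_mem {U : Set V} {n : ℕ} {z : Ch Γ} (v : V) (hv : v ∈ U)
    (hz : z ∈ KS Γ c (U ∩ Γ.neighborSet v ∩ {w | c w < c v}) n) :
    cns v z ∈ KS Γ c U (n + 1) := by
  rw [memS] at hz ⊢
  intro p hp
  unfold cns at hp
  rw [Finsupp.lmapDomain_apply] at hp
  have h1 := Finsupp.mapDomain_support (Finsupp.mem_support_iff.mpr hp)
  rw [Finset.mem_image] at h1
  obtain ⟨q, hq, rfl⟩ := h1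
  obtain ⟨h2, h3, h4⟩ := hz q (Finsupp.mem_support_iff.mp hq)
  refine ⟨?_, ?_, ?_⟩
  · unfold IsClq at h2 ⊢
    rw [List.pairwise_cons]
    exact ⟨fun b hb => ⟨(h4 b hb).1.2, (h4 b hb).2⟩, h2⟩
  · simp [h3]
  · intro w hw
    rcases List.mem_cons.mp hw with rfl | hw
    · exact hv
    · exact (h4 w hw).1.1

private lemma memS_mono {U U' : Set V} (h : U ⊆ U') {n : ℕ} {z : Ch Γ} (hz : z ∈ KS Γ c U n) :
    z ∈ KS Γ c U' n := by
  rw [memS] at hz ⊢
  intro p hp
  obtain ⟨h1, h2, h3⟩ := hz p hp
  exact ⟨h1, h2, fun v hv => h (h3 v hv)⟩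

private lemma memS_K {U : Set V} {n : ℕ} {z : Ch Γ} (hz : z ∈ KS Γ c U n) : z ∈ K Γ c n := by
  rw [memS] at hz
  unfold K
  rw [Finsupp.mem_supported]
  intro p hp
  obtain ⟨h1, h2, _⟩ := hz p (Finsupp.mem_support_iff.mp hp)
  exact ⟨h1, h2⟩

/-- the chain of the links at `v` -/
private noncomputable def lk (v : V) (z : Ch Γ) : Ch Γ :=
  z.comapDomain (fun p : RAAG Γ × List V => (p.1, v :: p.2)) (by
    rintro ⟨a, b⟩ _ ⟨a', b'⟩ _ h
    simp only [Prod.mk.injEq, List.cons.injEq, true_and] at h
    rw [h.1, h.2])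

private lemma lk_apply (v : V) (z : Ch Γ) (x : RAAG Γ) (l : List V) :
    lk v z (x, l) = z (x, v :: l) := by
  unfold lk
  rw [Finsupp.comapDomain_apply]

/-- the linear form of a function -/
private noncomputable def fm (f : RAAG Γ → ℤ) : Ch Γ →ₗ[ℤ] ℤ :=
  Finsupp.linearCombination ℤ fun p => f p.1

private lemma fm_single (f : RAAG Γ → ℤ) (x : RAAG Γ) (l : List V) (a : ℤ) :
    fm f (Finsupp.single (x, l) a) = a * f x := by
  unfold fm
  rw [Finsupp.linearCombination_single, smul_eq_mul]

private lemma fm_d (f : RAAG Γ → ℤ) (U' : Set V) (hf : ∀ x, ∀ u ∈ U', f (x * gen u) = f x)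
    (z : Ch Γ) (hz : z ∈ KS Γ c U' 1) : fm f (d z) = 0 := by
  rw [memS] at hz
  have h1 : z = z.sum Finsupp.single := (Finsupp.sum_single z).symm
  rw [h1, Finsupp.sum, map_sum, map_sum]
  refine Finset.sum_eq_zero (fun p hp => ?_)
  obtain ⟨x, l⟩ := p
  obtain ⟨-, h2, h3⟩ := hz _ (Finsupp.mem_support_iff.mp hp)
  simp only at h2 h3
  obtain ⟨u, rfl⟩ := List.length_eq_one_iff.mp h2
  rw [d_single]
  simp only [dCube, Finsupp.mapDomain_zero, sub_zero, map_smul, map_sub, fm_single]
  rw [hf x u (h3 u (by simp))]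
  simp

private lemma fm_rm (f : RAAG Γ → ℤ) (w : V) (z : Ch Γ) :
    fm f (rm w z) - fm f z = fm (fun x => f (x * gen w) - f x) z := by
  have h1 : z = z.sum Finsupp.single := (Finsupp.sum_single z).symm
  rw [h1, Finsupp.sum]
  simp only [map_sum]
  rw [← Finset.sum_sub_distrib]
  refine Finset.sum_congr rfl (fun p _ => ?_)
  obtain ⟨x, l⟩ := p
  unfold rm
  rw [Finsupp.lmapDomain_apply, Finsupp.mapDomain_single, fm_single, fm_single, fm_single]
  ring

open Classical in
private lemma cosets_apply (U : Set V) (z : Ch Γ) (y : RAAG Γ) :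
    cosets Γ U z (QuotientGroup.mk y) = fm (fun x => if y⁻¹ * x ∈ par Γ U then 1 else 0) z := by
  unfold cosets fm
  rw [Finsupp.mapDomain, Finsupp.sum_apply, Finsupp.linearCombination_apply, Finsupp.sum,
    Finsupp.sum]
  refine Finset.sum_congr rfl (fun p _ => ?_)
  rw [Finsupp.single_apply, smul_eq_mul]
  beta_reduce
  by_cases h : y⁻¹ * p.1 ∈ par Γ U
  · rw [if_pos h, if_pos (QuotientGroup.eq.mpr h).symm, mul_one]
  · rw [if_neg h, if_neg (fun h' => h (QuotientGroup.eq.mp h'.symm)), mul_zero]

theorem exact_par (hc : ∀ a b, Γ.Adj a b → c a ≠ c b) (k : ℕ) (U : Set V)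
    (hU : ∀ u ∈ U, c u < k) (n : ℕ) (z : Ch Γ) (hz : z ∈ KS Γ c U n) (hd : d z = 0)
    (h0 : n = 0 → cosets Γ U z = 0) : ∃ y ∈ KS Γ c U (n + 1), d y = z := by
  classical
  induction k generalizing U n z with
  | zero =>
    rcases n with _ | n
    · exact exact_zero U z hz (h0 rfl)
    · have h1 : z = 0 := by
        ext p
        by_contra hp
        obtain ⟨h2, h3, h4⟩ := (memS.mp hz) p hp
        obtain ⟨x, l⟩ := p
        rcases l with _ | ⟨v, l⟩
        · simp at h3
        · exact absurd (hU v (h4 v (by simp))) (by omega)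
      exact ⟨0, Submodule.zero_mem _, by rw [h1, map_zero]⟩
  | succ k ih =>
    rcases n with _ | n
    · exact exact_zero U z hz (h0 rfl)
    set U' : Set V := {v ∈ U | c v < k} with hU'
    set W : Set V := {v ∈ U | c v = k} with hW
    set T : Finset V := (z.support.biUnion (fun p => p.2.toFinset)).filter (· ∈ W) with hT
    set z' : Ch Γ := z.filter (fun p => ∀ v ∈ p.2, v ∈ U') with hz'
    have hTW : ∀ v ∈ T, v ∈ W := fun v hv => (Finset.mem_filter.mp hv).2
    have hz'm : z' ∈ KS Γ c U' (n + 1) := by
      rw [memS] at hz ⊢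
      intro p hp
      have h1 : ∀ v ∈ p.2, v ∈ U' := by
        by_contra h2
        exact hp (Finsupp.filter_apply_neg _ _ h2)
      have h2 : z p ≠ 0 := by
        rw [hz', Finsupp.filter_apply_pos _ _ h1] at hp
        exact hp
      obtain ⟨h3, h4, _⟩ := hz p h2
      exact ⟨h3, h4, h1⟩
    have hlk : ∀ v ∈ W, lk v z ∈ KS Γ c (U' ∩ Γ.neighborSet v) n := by
      intro v hv
      rw [memS] at hz ⊢
      rintro ⟨x, l⟩ hp
      rw [lk_apply] at hp
      obtain ⟨h1, h2, h3⟩ := hz _ hp
      simp only at h1 h2 h3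
      unfold IsClq at h1
      rw [List.pairwise_cons] at h1
      refine ⟨h1.2, by simpa using h2, fun b hb => ⟨⟨h3 b (by simp [hb]), ?_⟩, (h1.1 b hb).1⟩⟩
      have := (h1.1 b hb).2
      have h5 : c v = k := hv.2
      omega
    have hdec : z = z' + ∑ v ∈ T, cns v (lk v z) := by
      ext ⟨x, l⟩
      rw [Finsupp.add_apply, Finsupp.finsetSum_apply]
      rcases l with _ | ⟨w, l⟩
      · have h1 : z (x, []) = 0 := by
          by_contra h2
          have := ((memS.mp hz) _ h2).2.1
          simp at this
        have h2 : z' (x, []) = 0 := by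
          rw [hz', Finsupp.filter_apply]
          split_ifs <;> simp [h1]
        rw [h1, h2]
        simp [cns_nil]
      · simp only [cns_cons, lk_apply]
        rw [Finset.sum_ite_eq]
        by_cases hw : w ∈ W
        · have h2 : z' (x, w :: l) = 0 := by
            rw [hz']
            refine Finsupp.filter_apply_neg _ _ (fun h => ?_)
            have h3 : c w < k := (h w (by simp)).2
            have h4 : c w = k := hw.2
            omega
          rw [h2, zero_add]
          split_ifs with h5
          · rfl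
          · by_contra h6
            apply h5
            rw [hT, Finset.mem_filter]
            refine ⟨Finset.mem_biUnion.mpr ⟨(x, w :: l), Finsupp.mem_support_iff.mpr h6, ?_⟩, hw⟩
            simp
        · rw [if_neg (fun h => hw (hTW w h)), add_zero, hz', Finsupp.filter_apply]
          split_ifs with h5
          · rfl
          · by_contra h6
            apply h5
            obtain ⟨h7, h8, h9⟩ := (memS.mp hz) _ h6
            simp only at h7 h8 h9
            unfold IsClq at h7
            rw [List.pairwise_cons] at h7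
            have hwU : w ∈ U := h9 w (by simp)
            have hwk : c w < k := by
              have h10 := hU w hwU
              have h11 : c w ≠ k := fun h => hw ⟨hwU, h⟩
              omega
            intro v hv
            simp only at hv
            rcases List.mem_cons.mp hv with rfl | hv'
            · exact ⟨hwU, hwk⟩
            · exact ⟨h9 v hv, lt_trans (h7.1 v hv').2 hwk⟩
    have hadj : ∀ v ∈ W, ∀ (n : ℕ) (y : Ch Γ), y ∈ KS Γ c (U' ∩ Γ.neighborSet v) n →
        d (cns v y) = rm v y - y - cns v (d y) := by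
      intro v hv n y hy
      apply d_cns
      intro p hp w hw
      exact (((memS.mp hy) p (Finsupp.mem_support_iff.mp hp)).2.2 w hw).2
    have hdz : d z' + ∑ v ∈ T, (rm v (lk v z) - lk v z - cns v (d (lk v z))) = 0 := by
      rw [← hd]
      conv_rhs => rw [hdec]
      rw [map_add, map_sum]
      congr 1
      refine Finset.sum_congr rfl (fun v hv => ?_)
      rw [hadj v (hTW v hv) n _ (hlk v (hTW v hv))]
    have hdlk : ∀ v ∈ T, d (lk v z) = 0 := by
      rcases n with _ | n
      · intro v hv
        exact d_zero (memS_K (hlk v (hTW v hv)))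
      · intro v hv
        have hvW := hTW v hv
        have hvk : c v = k := hvW.2
        ext ⟨x, l⟩
        have h1 := DFunLike.congr_fun hdz (x, v :: l)
        rw [Finsupp.add_apply, Finsupp.finsetSum_apply] at h1
        have hno : ∀ (m : ℕ) (y : Ch Γ), y ∈ KS Γ c U' m → y (x, v :: l) = 0 := by
          intro m y hy
          by_contra h2
          have h3 := ((memS.mp hy) _ h2).2.2 v (by simp)
          have h4 : c v < k := h3.2
          omega
        have h2 : d z' (x, v :: l) = 0 := hno (n + 1) _ (d_memS hz'm)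
        rw [h2, zero_add] at h1
        have h3 : ∑ w ∈ T, (rm w (lk w z) - lk w z - cns w (d (lk w z))) (x, v :: l) =
            ∑ w ∈ T, (if v = w then - (d (lk w z)) (x, l) else 0) := by
          refine Finset.sum_congr rfl (fun w hw => ?_)
          have h4 := memS_mono (Set.inter_subset_left) (hlk w (hTW w hw))
          rw [Finsupp.sub_apply, Finsupp.sub_apply, hno (n + 1) _ h4,
            hno (n + 1) _ (rm_mem w h4), cns_cons]
          split_ifs <;> simp
        rw [h3, Finset.sum_ite_eq, if_pos hv] at h1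
        simpa using h1
    have hcos : ∀ v ∈ T, n = 0 → cosets Γ (U' ∩ Γ.neighborSet v) (lk v z) = 0 := by
      intro v hv hn
      subst hn
      ext q
      obtain ⟨y, rfl⟩ := QuotientGroup.mk_surjective q
      rw [cosets_apply, Finsupp.zero_apply]
      obtain ⟨f, hf1, hf2⟩ := potential (Γ := Γ) U' W (fun a ha b hb hab => hc a b hab (by
        have h1 : c a = k := ha.2
        have h2 : c b = k := hb.2
        omega)) (by
          rw [Set.disjoint_left]
          intro a ha hb
          have h1 : c a < k := ha.2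
          have h2 : c a = k := hb.2
          omega) v (hTW v hv) y
      have h1 := congrArg (fm f) hdz
      rw [map_add, map_sum, map_zero, fm_d (c := c) f U' hf1 z' hz'm, zero_add] at h1
      have h2 : ∑ w ∈ T, fm f (rm w (lk w z) - lk w z - cns w (d (lk w z))) =
          ∑ w ∈ T, (if v = w then
            fm (fun x => if y⁻¹ * x ∈ par Γ (U' ∩ Γ.neighborSet v) then (1 : ℤ) else 0) (lk w z)
            else 0) := by
        refine Finset.sum_congr rfl (fun w hw => ?_)
        rw [hdlk w hw, map_zero, sub_zero, map_sub, fm_rm]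
        by_cases hvw : v = w
        · subst hvw
          rw [if_pos rfl]
          congr 2
          funext x
          rw [hf2 x v (hTW v hw)]
          simp
        · rw [if_neg hvw]
          have h3 : (fun x => f (x * gen w) - f x) = fun _ => (0 : ℤ) := by
            funext x
            rw [hf2 x w (hTW w hw), if_neg (fun h => hvw h.1.symm)]
            ring
          rw [h3]
          unfold fm
          rw [Finsupp.linearCombination_apply, Finsupp.sum]
          simp
      rw [h2, Finset.sum_ite_eq, if_pos hv] at h1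
      exact h1
    have hw : ∀ v ∈ T, ∃ y ∈ KS Γ c (U' ∩ Γ.neighborSet v) (n + 1), d y = lk v z := by
      intro v hv
      exact ih (U' ∩ Γ.neighborSet v) (fun u hu => hu.1.2) n (lk v z) (hlk v (hTW v hv))
        (hdlk v hv) (hcos v hv)
    choose! w hw1 hw2 using hw
    have hcm : ∀ v ∈ T, cns v (w v) ∈ KS Γ c U (n + 2) := by
      intro v hv
      refine cns_mem v (hTW v hv).1 (memS_mono ?_ (hw1 v hv))
      rintro u ⟨hu1, hu2⟩
      refine ⟨⟨hu1.1, hu2⟩, ?_⟩
      have h1 : c v = k := (hTW v hv).2
      have h2 : c u < k := hu1.2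
      simp only [Set.mem_ofPred_eq]
      omega
    have hCm : ∑ v ∈ T, cns v (w v) ∈ KS Γ c U (n + 2) := Submodule.sum_mem _ hcm
    have hz2 : z + d (∑ v ∈ T, cns v (w v)) = z' + ∑ v ∈ T, (rm v (w v) - w v) := by
      conv_lhs => rw [hdec]
      rw [map_sum, add_assoc, ← Finset.sum_add_distrib]
      congr 1
      refine Finset.sum_congr rfl (fun v hv => ?_)
      rw [hadj v (hTW v hv) (n + 1) _ (hw1 v hv), hw2 v hv]
      abel
    obtain ⟨y', hy1, hy2⟩ := ih U' (fun u hu => hu.2) (n + 1)
      (z' + ∑ v ∈ T, (rm v (w v) - w v))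
      (Submodule.add_mem _ hz'm (Submodule.sum_mem _ (fun v hv => by
        have h4 := memS_mono (Set.inter_subset_left) (hw1 v hv)
        exact Submodule.sub_mem _ (rm_mem v h4) h4)))
      (by
        rw [← hz2, map_add, hd, d_d (memS_K hCm), add_zero])
      (fun h => absurd h (by omega))
    refine ⟨y' - ∑ v ∈ T, cns v (w v), Submodule.sub_mem _ (memS_mono (fun u hu => hu.1) hy1) hCm,
      ?_⟩
    rw [map_sub, hy2, ← hz2]
    abel

/-- The augmented cubical complex is exact. -/
theorem exact_all (hc : ∀ a b, Γ.Adj a b → c a ≠ c b) (m : ℕ) (hm : ∀ v, c v < m) (n : ℕ)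
    (z : Ch Γ) (hz : z ∈ K Γ c n) (hd : d z = 0) (h0 : n = 0 → aug z = 0) :
    ∃ y ∈ K Γ c (n + 1), d y = z := by
  classical
  have hKS : z ∈ KS Γ c Set.univ n := by
    rw [memS]
    intro p hp
    unfold K at hz
    rw [Finsupp.mem_supported] at hz
    obtain ⟨h1, h2⟩ := hz (Finsupp.mem_support_iff.mpr hp)
    exact ⟨h1, h2, fun _ _ => Set.mem_univ _⟩
  have hpar : par Γ (Set.univ : Set V) = ⊤ := by
    unfold par
    rw [Set.image_univ]
    exact PresentedGroup.closure_range_of _
  obtain ⟨y, hy1, hy2⟩ := exact_par hc m Set.univ (fun u _ => hm u) n z hKS hd (by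
    intro hn
    ext q
    obtain ⟨y, rfl⟩ := QuotientGroup.mk_surjective q
    rw [cosets_apply, Finsupp.zero_apply, ← h0 hn, hpar]
    simp only [Subgroup.mem_top, if_true]
    rfl)
  exact ⟨y, memS_K hy1, hy2⟩

end Pool.Agent.H16.BV
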