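import Mathlib
import Pool.Agent.H16.BV.Exact

/-!
Exactness of the complex of cubes below a height, if the flag complex is acyclic.

PROOF. The same as in `Up.lean`, with the cubes sorted by their top vertex `x v_1 … v_k`
(`l = [v_1, …, v_k]`). `lower`: let `y ∈ KD b (n + 1)` with `d y ∈ KD (b - 1) n`. For a cube
`(x, l)` let `top (x, l) = x * (l.map gen).prod`, of height `ht x + l.length`. For a clique `l`, the
part of `dCube x l` of the cubes with top `top (x, l)` is the image of `bdList l` under
`l' ↦ (top (x, l) * ((l'.map gen).prod)⁻¹, l')` (with the sign `+`), the other cubes have a top of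
smaller height: by induction on the list, `dCube x (v :: l) = (x v, l) - (x, l) - v :: dCube x l`,
where `top (x v, l) = top (x, v :: l)`, and `top (x', v :: l') = x' v (prod l')`,
`= x' (prod l') v` as `v` commutes with the entries of `l'` (adjacent vertices), so the part of
`v :: dCube x l` of top `top (x, v :: l)` consists of `v ::` the part of `dCube x l` of top
`top (x, l)`, which by induction is `v :: bdList l`. Now proceed as in `raise`: for every `t` with
`ht t = b` the coefficients of the cubes of top `t` in `y` form a cycle of the flag complex (`bd = 0`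
by the coefficients of the cubes of top `t` in `d y`), it is a boundary `bd (u t)`, and
`y - d (Σ_t image of u t) ∈ KD (b - 1) (n + 1)`.
`exact_down` as `exact_up`.
-/

set_option autoImplicit false

namespace Pool.Agent.H16.BV

open Function Pool.Agent.H16.BB

variable {V : Type} {Γ : SimpleGraph V} {c : V → ℕ}

/-- The cube with top vertex `t` and list `l`. -/
private noncomputable def phiT (t : RAAG Γ) (l : List V) : RAAG Γ × List V :=
  (t * ((l.map gen).prod)⁻¹, l)

private theorem phiT_inj (t : RAAG Γ) : Injective (phiT t) := fun _ _ h => congrArg Prod.snd h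

/-- The top vertex of a cube. -/
private noncomputable def topV (p : RAAG Γ × List V) : RAAG Γ := p.1 * (p.2.map gen).prod

private noncomputable def part (t : RAAG Γ) : Ch Γ →ₗ[ℤ] (List V →₀ ℤ) :=
  Finsupp.lcomapDomain (phiT t) (phiT_inj t)

private theorem part_apply (t : RAAG Γ) (y : Ch Γ) (l : List V) :
    part t y l = y (phiT t l) := rfl

private noncomputable def embT (t : RAAG Γ) : (List V →₀ ℤ) →ₗ[ℤ] Ch Γ :=
  Finsupp.lmapDomain ℤ ℤ (phiT t)

private theorem phiT_topV (p : RAAG Γ × List V) : phiT (topV p) p.2 = p := by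
  rcases p with ⟨x, l⟩
  simp [phiT, topV]

private theorem topV_phiT (t : RAAG Γ) (l : List V) : topV (phiT t l) = t := by
  simp [phiT, topV]

private theorem eq_phiT_iff (p : RAAG Γ × List V) (t : RAAG Γ) (l : List V) :
    p = phiT t l ↔ topV p = t ∧ p.2 = l := by
  constructor
  · rintro rfl
    exact ⟨topV_phiT t l, rfl⟩
  · rintro ⟨rfl, rfl⟩
    exact (phiT_topV p).symm

open Classical in
private theorem part_single (t : RAAG Γ) (p : RAAG Γ × List V) (a : ℤ) :
    part t (Finsupp.single p a) = if topV p = t then Finsupp.single p.2 a else 0 := by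
  ext l
  rw [part_apply, Finsupp.single_apply]
  by_cases h : topV p = t
  · by_cases h2 : p.2 = l
    · rw [if_pos ((eq_phiT_iff p t l).2 ⟨h, h2⟩), if_pos h, Finsupp.single_apply, if_pos h2]
    · rw [if_neg (fun h3 => h2 ((eq_phiT_iff p t l).1 h3).2), if_pos h, Finsupp.single_apply,
        if_neg h2]
  · rw [if_neg (fun h3 => h ((eq_phiT_iff p t l).1 h3).1), if_neg h]
    rfl

private theorem ht_prodL (l : List V) : ht ((l.map gen).prod : RAAG Γ) = l.length := by
  induction l with
  | nil => simpa using ht_one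
  | cons v l ih =>
    rw [List.map_cons, List.prod_cons, ht_mul, ht_gen, ih, List.length_cons]
    push_cast
    ring

private theorem ht_topV (p : RAAG Γ × List V) : ht (topV p) = ht p.1 + p.2.length := by
  rw [topV, ht_mul, ht_prodL]

private theorem ht_phiT (t : RAAG Γ) (l : List V) : ht (phiT t l).1 + l.length = ht t := by
  have h := ht_topV (phiT t l)
  rw [topV_phiT] at h
  exact h.symm

private theorem eqOn_supp {M : Type} [AddCommGroup M] (f g : Ch Γ →ₗ[ℤ] M)
    (s : Set (RAAG Γ × List V))
    (h : ∀ p ∈ s, f (Finsupp.single p 1) = g (Finsupp.single p 1)) (z : Ch Γ)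
    (hz : z ∈ Finsupp.supported ℤ ℤ s) : f z = g z := by
  rw [Finsupp.supported_eq_span_single] at hz
  refine LinearMap.eqOn_span (f := f) (g := g) ?_ hz
  rintro _ ⟨p, hp, rfl⟩
  exact h p hp

private theorem gen_comm_prod (v : V) (l : List V) (hl : ∀ w ∈ l, Γ.Adj v w) :
    (gen v : RAAG Γ) * (l.map gen).prod = (l.map gen).prod * gen v := by
  refine Commute.list_prod_right _ _ ?_
  intro x hx
  rw [List.mem_map] at hx
  obtain ⟨w, hw, rfl⟩ := hx
  exact raag_comm (hl w hw)

private theorem part_cns (t : RAAG Γ) (v : V) (z : Ch Γ)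
    (hz : z ∈ Finsupp.supported ℤ ℤ {p : RAAG Γ × List V | ∀ w ∈ p.2, Γ.Adj v w}) :
    part t (cns v z) = Finsupp.mapDomain (List.cons v) (part (t * (gen v)⁻¹) z) := by
  classical
  refine eqOn_supp ((part t).comp (cns v))
    ((Finsupp.lmapDomain ℤ ℤ (List.cons v)).comp (part (t * (gen v)⁻¹))) _ ?_ z hz
  intro p hp
  rw [LinearMap.comp_apply, LinearMap.comp_apply, cns, Finsupp.lmapDomain_apply,
    Finsupp.mapDomain_single, part_single, part_single, Finsupp.lmapDomain_apply]
  have h1 : topV ((p.1, v :: p.2) : RAAG Γ × List V) = topV p * gen v := by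
    simp only [topV, List.map_cons, List.prod_cons]
    rw [gen_comm_prod v p.2 hp, mul_assoc]
  rw [h1]
  by_cases h : topV p * gen v = t
  · rw [if_pos h, if_pos (eq_mul_inv_iff_mul_eq.2 h), Finsupp.mapDomain_single]
  · rw [if_neg h, if_neg (fun h3 => h (eq_mul_inv_iff_mul_eq.1 h3)), Finsupp.mapDomain_zero]

open Classical in
private theorem part_dCube (l : List V) : ∀ (x t : RAAG Γ), IsClq Γ c l →
    ht x + l.length ≤ ht t →
    part t (dCube x l) = if topV (x, l) = t then bdList l else 0 := by
  induction l with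
  | nil =>
    intro x t _ _
    simp [dCube, bdList]
  | cons v l ih =>
    intro x t hl hxt
    have hl' : IsClq Γ c l := (List.pairwise_cons.1 hl).2
    have hadj : ∀ w ∈ l, Γ.Adj v w := fun w hw => ((List.pairwise_cons.1 hl).1 w hw).1
    have hlen : ht x + l.length + 1 ≤ ht t := by
      rw [List.length_cons] at hxt
      push_cast at hxt
      linarith
    have hsupp : dCube x l ∈ Finsupp.supported ℤ ℤ
        {p : RAAG Γ × List V | ∀ w ∈ p.2, Γ.Adj v w} := by
      cases l with
      | nil => simp [dCube]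
      | cons a l =>
        have h1 : (Finsupp.single (x, a :: l) (1 : ℤ) : Ch Γ) ∈
            KS Γ c {w | Γ.Adj v w} (l.length + 1) := by
          refine Finsupp.single_mem_supported ℤ _ ⟨hl', rfl, hadj⟩
        have h2 := d_memS h1
        rw [d_single, one_smul] at h2
        exact Finsupp.supported_mono (fun p hp => hp.2.2) h2
    have htop : topV ((x, v :: l) : RAAG Γ × List V) = topV ((x, l) : RAAG Γ × List V) * gen v := by
      simp only [topV, List.map_cons, List.prod_cons]
      rw [gen_comm_prod v l hadj, mul_assoc]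
    have htop2 : topV ((x * gen v, l) : RAAG Γ × List V) = topV ((x, v :: l) : RAAG Γ × List V) := by
      simp only [topV, List.map_cons, List.prod_cons, mul_assoc]
    have e1 : dCube x (v :: l) = Finsupp.single (x * gen v, l) 1 - Finsupp.single (x, l) 1 -
      cns v (dCube x l) := rfl
    rw [e1, map_sub, map_sub, part_cns t v _ hsupp, part_single, part_single, htop2,
      ih x (t * (gen v)⁻¹) hl' ?_]
    · have h3 : ¬ topV ((x, l) : RAAG Γ × List V) = t := by
        intro h
        have h4 := ht_topV ((x, l) : RAAG Γ × List V)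
        rw [h] at h4
        simp only at h4
        linarith
      rw [if_neg h3, sub_zero]
      by_cases h : topV ((x, v :: l) : RAAG Γ × List V) = t
      · rw [if_pos h, if_pos h, if_pos (eq_mul_inv_iff_mul_eq.2 (htop ▸ h))]
        rfl
      · rw [if_neg h, if_neg h, if_neg (fun h5 => h (htop ▸ eq_mul_inv_iff_mul_eq.1 h5)),
          Finsupp.mapDomain_zero, sub_zero]
    · have h6 : ht (t * (gen v)⁻¹ : RAAG Γ) + 1 = ht t := by
        have h7 := ht_mul (t * (gen v)⁻¹ : RAAG Γ) (gen v)
        rw [inv_mul_cancel_right, ht_gen] at h7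
        exact h7.symm
      linarith

private theorem part_d {b : ℤ} {n : ℕ} (t : RAAG Γ) (hb : b ≤ ht t) (z : Ch Γ)
    (hz : z ∈ KD Γ c b n) : part t (d z) = bd (part t z) := by
  classical
  refine eqOn_supp ((part t).comp d) (bd.comp (part t)) _ ?_ z hz
  rintro ⟨x, l⟩ ⟨h1, h2, h3⟩
  rw [LinearMap.comp_apply, LinearMap.comp_apply, d_single, one_smul, part_single,
    part_dCube (c := c) l x t h1 (by simp only at h2 h3; rw [h2]; linarith)]
  by_cases h : topV ((x, l) : RAAG Γ × List V) = t
  · rw [if_pos h, if_pos h, bd, Finsupp.linearCombination_single, one_smul]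
  · rw [if_neg h, if_neg h, map_zero]

private theorem KD_le_K (b : ℤ) (n : ℕ) : KD Γ c b n ≤ K Γ c n :=
  Finsupp.supported_mono fun _ hp => ⟨hp.1, hp.2.1⟩

private theorem KD_mono {b b' : ℤ} (hb : b ≤ b') (n : ℕ) : KD Γ c b n ≤ KD Γ c b' n :=
  Finsupp.supported_mono fun _ hp => ⟨hp.1, hp.2.1, hp.2.2.trans hb⟩

open Classical in
private theorem part_embT (t t' : RAAG Γ) (u : List V →₀ ℤ) :
    part t (embT t' u) = if t' = t then u else 0 := by
  have h : (part t).comp (embT t') = if t' = t then LinearMap.id else 0 := by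
    refine Finsupp.lhom_ext' fun l => LinearMap.ext_ring ?_
    rw [LinearMap.comp_apply, LinearMap.comp_apply, embT, Finsupp.lsingle_apply,
      Finsupp.lmapDomain_apply, Finsupp.mapDomain_single, part_single, topV_phiT]
    by_cases h : t' = t
    · rw [if_pos h, if_pos h]
      rfl
    · rw [if_neg h, if_neg h]
      rfl
  have h2 := LinearMap.congr_fun h u
  rw [LinearMap.comp_apply] at h2
  rw [h2]
  by_cases h : t' = t
  · rw [if_pos h, if_pos h]
    rfl
  · rw [if_neg h, if_neg h]
    rfl

theorem lower (ha : Acyc Γ c) (b : ℤ) (n : ℕ) (y : Ch Γ) (hy : y ∈ KD Γ c b (n + 1))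
    (hd : d y ∈ KD Γ c (b - 1) n) : ∃ y' ∈ KD Γ c (b - 1) (n + 1), d y' = d y := by
  classical
  have hy' : ∀ p ∈ y.support, IsClq Γ c p.2 ∧ p.2.length = n + 1 ∧ ht p.1 + (n + 1 : ℕ) ≤ b :=
    fun p hp => (Finsupp.mem_supported ℤ y).1 hy hp
  have h1 : ∀ t : RAAG Γ, ht t = b → ∃ u : List V →₀ ℤ,
      (∀ l ∈ u.support, IsClq Γ c l ∧ l.length = n + 1 + 1) ∧ bd u = part t y := by
    intro t htb
    refine ha (n + 1) (part t y) ?_ ?_
    · intro l hl
      have h2 : phiT t l ∈ y.support := by
        rw [Finsupp.mem_support_iff] at hl ⊢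
        exact hl
      exact ⟨(hy' _ h2).1, (hy' _ h2).2.1⟩
    · rw [← part_d t htb.ge y hy]
      ext l
      rw [part_apply]
      by_contra h2
      have h3 : phiT t l ∈ (d y).support := Finsupp.mem_support_iff.2 h2
      obtain ⟨_, h4, h5⟩ := (Finsupp.mem_supported ℤ (d y)).1 hd h3
      have h6 := ht_phiT t l
      have h7 : (l.length : ℤ) = n := by exact_mod_cast h4
      linarith
  choose! u hu1 hu2 using h1
  set S : Finset (RAAG Γ) := (y.support.filter fun p => ht (topV p) = b).image topV with hS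
  have hSb : ∀ t ∈ S, ht t = b := by
    intro t ht'
    rw [hS, Finset.mem_image] at ht'
    obtain ⟨p, hp, rfl⟩ := ht'
    exact (Finset.mem_filter.1 hp).2
  set w : Ch Γ := ∑ t ∈ S, embT t (u t) with hw
  have hwm : w ∈ KD Γ c b (n + 1 + 1) := by
    refine Submodule.sum_mem _ fun t htS => ?_
    rw [KD, Finsupp.mem_supported]
    intro p hp
    have h2 : p ∈ (u t).support.image (phiT t) := by
      have h3 : embT t (u t) = Finsupp.mapDomain (phiT t) (u t) := rfl
      rw [h3] at hp
      exact Finsupp.mapDomain_support hp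
    rw [Finset.mem_image] at h2
    obtain ⟨l, hl, rfl⟩ := h2
    obtain ⟨h4, h5⟩ := hu1 t (hSb t htS) l hl
    refine ⟨h4, h5, ?_⟩
    have h6 := ht_phiT t l
    rw [h5, hSb t htS] at h6
    exact h6.le
  have hdd : d (d w) = 0 := d_d (KD_le_K _ _ hwm)
  refine ⟨y - d w, ?_, by rw [map_sub, hdd, sub_zero]⟩
  have hyw : y - d w ∈ KD Γ c b (n + 1) := Submodule.sub_mem _ hy (d_down hwm)
  have key : ∀ t : RAAG Γ, ht t = b → part t (y - d w) = 0 := by
    intro t htb
    rw [map_sub, part_d t htb.ge w hwm, hw, map_sum]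
    simp only [part_embT]
    rw [Finset.sum_ite_eq' S t]
    by_cases htS : t ∈ S
    · rw [if_pos htS, hu2 t htb, sub_self]
    · rw [if_neg htS, map_zero, sub_zero]
      ext l
      rw [part_apply]
      by_contra h2
      refine htS ?_
      rw [hS, Finset.mem_image]
      exact ⟨phiT t l, Finset.mem_filter.2 ⟨Finsupp.mem_support_iff.2 h2, by
        rw [topV_phiT]; exact htb⟩, topV_phiT t l⟩
  rw [KD, Finsupp.mem_supported]
  intro p hp
  obtain ⟨h2, h3, h4⟩ := (Finsupp.mem_supported ℤ _).1 hyw hp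
  refine ⟨h2, h3, ?_⟩
  by_contra hcon
  have h5 : ht (topV p) = b := by
    rw [ht_topV, h3]
    omega
  have h6 := DFunLike.congr_fun (key (topV p) h5) p.2
  rw [part_apply, phiT_topV] at h6
  exact (Finsupp.mem_support_iff.1 hp) h6

theorem exact_down (hc : ∀ a b, Γ.Adj a b → c a ≠ c b) (m : ℕ) (hm : ∀ v, c v < m)
    (ha : Acyc Γ c) (b : ℤ) (n : ℕ) (z : Ch Γ) (hz : z ∈ KD Γ c b n) (hd : d z = 0)
    (h0 : n = 0 → aug z = 0) : ∃ y ∈ KD Γ c b (n + 1), d y = z := by
  classical
  obtain ⟨y, hy, hyz⟩ := exact_all hc m hm n z (KD_le_K _ _ hz) hd h0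
  have step : ∀ (N : ℕ) (y : Ch Γ), y ∈ KD Γ c (b + N) (n + 1) → d y = z →
      ∃ y' ∈ KD Γ c b (n + 1), d y' = z := by
    intro N
    induction N with
    | zero =>
      intro y hy hyz
      exact ⟨y, by simpa using hy, hyz⟩
    | succ N ih =>
      intro y hy hyz
      have h1 : d y ∈ KD Γ c (b + (N + 1 : ℕ) - 1) n := by
        rw [hyz]
        exact KD_mono (by push_cast; linarith) n hz
      obtain ⟨y', hy', h2⟩ := lower ha (b + (N + 1 : ℕ)) n y hy h1
      refine ih y' ?_ (h2.trans hyz)
      have e : b + (N + 1 : ℕ) - 1 = b + (N : ℤ) := by push_cast; ring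
      rwa [e] at hy'
  refine step (∑ p ∈ y.support, (ht p.1 + (n + 1 : ℕ) - b).toNat) y ?_ hyz
  rw [KD, Finsupp.mem_supported]
  intro p hp
  obtain ⟨h1, h2⟩ := (Finsupp.mem_supported ℤ _).1 hy hp
  refine ⟨h1, h2, ?_⟩
  have h3 : (ht p.1 + (n + 1 : ℕ) - b).toNat ≤
      ∑ p ∈ y.support, (ht p.1 + (n + 1 : ℕ) - b).toNat :=
    Finset.single_le_sum (f := fun p : RAAG Γ × List V => (ht p.1 + (n + 1 : ℕ) - b).toNat)
      (fun _ _ => Nat.zero_le _) hp
  have h4 := Int.self_le_toNat (ht p.1 + (n + 1 : ℕ) - b)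
  have h5 : (((ht p.1 + (n + 1 : ℕ) - b).toNat : ℕ) : ℤ) ≤
      ((∑ p ∈ y.support, (ht p.1 + (n + 1 : ℕ) - b).toNat : ℕ) : ℤ) := by exact_mod_cast h3
  linarith

end Pool.Agent.H16.BV
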