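import Mathlib
import Pool.Agent.H16.BV.Exact

/-!
Exactness of the complex of cubes above a height, if the flag complex is acyclic.

PROOF. `raise`: let `y ∈ KU b (n + 1)` with `d y ∈ KU (b + 1) n`. Let `y₀` be the part of `y` of
the cubes with height of the first component exactly `b`. For each `x` with `ht x = b` let
`y x : List V →₀ ℤ` be the coefficients of `(x, ·)`. In `d y` the cubes `(x, l')` with `ht x = b` come
only from the terms `-(x, l)`, `-(x, ·)` of `dCube x ·`, and their coefficient is `- bd (y x)`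
(by induction on the list: the part of `dCube x l` with first component `x` is `- (x, bdList l)`,
because `ht (x * gen v) ≠ ht x`). So `bd (y x) = 0` and by acyclicity `y x = bd (u x)` with `u x` on
cliques of length `n + 2`. Put `u = Σ_x (x, u x)` (finite sum over the `x` in the support of `y₀`);
then `y + d u` has no cube with first component of height `b`, it is in `KU (b + 1) (n + 1)`, and
`d (y + d u) = d y` by `d_d`.
`exact_up`: by `exact_all`, `z = d y` with `y ∈ K (n + 1)`; `y ∈ KU b (n + 1)` for some `b ≤ a`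
(finite support); apply `raise` repeatedly (`d y = z ∈ KU a n ≤ KU (b + 1) n` as long as `b < a`).
-/

set_option autoImplicit false

namespace Pool.Agent.H16.BV

open Function Pool.Agent.H16.BB

variable {V : Type} {Γ : SimpleGraph V} {c : V → ℕ}

private theorem pair_inj (x : RAAG Γ) : Injective fun l : List V => (x, l) := fun a b h => by
  simpa using h

/-- The coefficients of the cubes with first component `x`. -/
private noncomputable def co (x : RAAG Γ) : Ch Γ →ₗ[ℤ] (List V →₀ ℤ) :=
  Finsupp.lcomapDomain (fun l : List V => (x, l)) (pair_inj x)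

/-- The cubes with first component `x`. -/
private noncomputable def pt (x : RAAG Γ) : (List V →₀ ℤ) →ₗ[ℤ] Ch Γ :=
  Finsupp.lmapDomain ℤ ℤ fun l => (x, l)

private theorem co_apply (x : RAAG Γ) (y : Ch Γ) (l : List V) : co x y l = y (x, l) := rfl

open Classical in
private theorem co_single (x x' : RAAG Γ) (l : List V) (a : ℤ) :
    co x (Finsupp.single (x', l) a) = if x' = x then Finsupp.single l a else 0 := by
  ext l'
  rw [co_apply]
  split_ifs with h
  · subst h
    simp [Finsupp.single_apply]
  · simp [h]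

private theorem co_cns (x : RAAG Γ) (v : V) (y : Ch Γ) :
    co x (cns v y) = (co x y).mapDomain (List.cons v) := by
  classical
  induction y using Finsupp.induction_linear with
  | zero => simp
  | add f g hf hg => rw [map_add, map_add, map_add, hf, hg, Finsupp.mapDomain_add]
  | single p a =>
    obtain ⟨x', l⟩ := p
    unfold cns
    rw [Finsupp.lmapDomain_apply, Finsupp.mapDomain_single, co_single, co_single]
    split_ifs
    · rw [Finsupp.mapDomain_single]
    · rw [Finsupp.mapDomain_zero]

private theorem co_dCube_self (x : RAAG Γ) (l : List V) : co x (dCube x l) = -bdList l := by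
  classical
  induction l with
  | nil => simp [dCube, bdList]
  | cons v l ih =>
    have h1 : dCube x (v :: l) = Finsupp.single (x * gen v, l) 1 - Finsupp.single (x, l) 1 -
        cns v (dCube x l) := rfl
    have h2 : x * gen v ≠ x := by
      intro h
      have h3 := congrArg ht h
      rw [ht_mul, ht_gen] at h3
      omega
    have h5 : bdList (v :: l) = Finsupp.single l 1 - (bdList l).mapDomain (List.cons v) := rfl
    rw [h1, map_sub, map_sub, co_single, co_single, if_neg h2, if_pos rfl, co_cns, ih, h5]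
    have h4 : (-bdList l).mapDomain (List.cons v) = -((bdList l).mapDomain (List.cons v)) :=
      map_neg (Finsupp.mapDomain.addMonoidHom (List.cons v)) (bdList l)
    rw [h4]
    abel

private theorem co_dCube_ne (x x' : RAAG Γ) (l : List V) (hne : x' ≠ x) (hh : ht x ≤ ht x') :
    co x (dCube x' l) = 0 := by
  classical
  induction l with
  | nil => simp [dCube]
  | cons v l ih =>
    have h1 : dCube x' (v :: l) = Finsupp.single (x' * gen v, l) 1 - Finsupp.single (x', l) 1 -
        cns v (dCube x' l) := rfl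
    have h2 : x' * gen v ≠ x := by
      intro h
      have h3 := congrArg ht h
      rw [ht_mul, ht_gen] at h3
      omega
    rw [h1, map_sub, map_sub, co_single, co_single, if_neg h2, if_neg hne, co_cns, ih]
    simp

private theorem co_d (x : RAAG Γ) (y : Ch Γ) (hy : ∀ p ∈ y.support, ht x ≤ ht p.1) :
    co x (d y) = -bd (co x y) := by
  classical
  have h1 : y = ∑ p ∈ y.support, Finsupp.single p (y p) := by
    conv_lhs => rw [← Finsupp.sum_single y]
    rfl
  have h2 : d y = ∑ p ∈ y.support, d (Finsupp.single p (y p)) := by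
    conv_lhs => rw [h1]
    rw [map_sum]
  have h3 : co x y = ∑ p ∈ y.support, co x (Finsupp.single p (y p)) := by
    conv_lhs => rw [h1]
    rw [map_sum]
  rw [h2, h3, map_sum, map_sum, ← Finset.sum_neg_distrib]
  refine Finset.sum_congr rfl fun p hp => ?_
  obtain ⟨x', l⟩ := p
  rw [d_single, map_smul, co_single]
  split_ifs with h
  · subst h
    rw [co_dCube_self]
    unfold bd
    rw [Finsupp.linearCombination_single, smul_neg]
  · rw [co_dCube_ne x x' l h (hy _ hp), smul_zero, map_zero, neg_zero]

open Classical in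
private theorem co_pt (x x' : RAAG Γ) (w : List V →₀ ℤ) :
    co x (pt x' w) = if x' = x then w else 0 := by
  induction w using Finsupp.induction_linear with
  | zero => simp
  | add f g hf hg =>
    rw [map_add, map_add, hf, hg]
    split_ifs <;> simp
  | single l a =>
    unfold pt
    rw [Finsupp.lmapDomain_apply, Finsupp.mapDomain_single, co_single]

private theorem memU {a : ℤ} {n : ℕ} {z : Ch Γ} : z ∈ KU Γ c a n ↔
    ∀ p, z p ≠ 0 → IsClq Γ c p.2 ∧ p.2.length = n ∧ a ≤ ht p.1 := by
  unfold KU
  rw [Finsupp.mem_supported]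
  constructor
  · intro h p hp
    exact h (Finsupp.mem_support_iff.mpr hp)
  · intro h p hp
    exact h p (Finsupp.mem_support_iff.mp hp)

private theorem memU_K {a : ℤ} {n : ℕ} {z : Ch Γ} (hz : z ∈ KU Γ c a n) : z ∈ K Γ c n := by
  rw [memU] at hz
  unfold K
  rw [Finsupp.mem_supported]
  intro p hp
  obtain ⟨h1, h2, -⟩ := hz p (Finsupp.mem_support_iff.mp hp)
  exact ⟨h1, h2⟩

private theorem memU_mono {a b : ℤ} (h : a ≤ b) {n : ℕ} {z : Ch Γ} (hz : z ∈ KU Γ c b n) :
    z ∈ KU Γ c a n := by
  rw [memU] at hz ⊢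
  intro p hp
  obtain ⟨h1, h2, h3⟩ := hz p hp
  exact ⟨h1, h2, h.trans h3⟩

theorem raise (ha : Acyc Γ c) (b : ℤ) (n : ℕ) (y : Ch Γ) (hy : y ∈ KU Γ c b (n + 1))
    (hd : d y ∈ KU Γ c (b + 1) n) : ∃ y' ∈ KU Γ c (b + 1) (n + 1), d y' = d y := by
  classical
  have hyU := memU.1 hy
  have hdU := memU.1 hd
  have h1 : ∀ x : RAAG Γ, ht x = b → ∃ w : List V →₀ ℤ,
      (∀ l ∈ w.support, IsClq Γ c l ∧ l.length = n + 1 + 1) ∧ bd w = co x y := by
    intro x hx
    refine ha (n + 1) (co x y) (fun l hl => ?_) ?_
    · rw [Finsupp.mem_support_iff, co_apply] at hl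
      obtain ⟨h2, h3, -⟩ := hyU _ hl
      exact ⟨h2, h3⟩
    · have h4 := co_d x y (fun p hp => by
        rw [hx]
        exact (hyU p (Finsupp.mem_support_iff.1 hp)).2.2)
      have h5 : co x (d y) = 0 := by
        ext l
        rw [co_apply, Finsupp.zero_apply]
        by_contra h6
        have h7 := (hdU _ h6).2.2
        simp only at h7
        omega
      rw [h5] at h4
      exact neg_eq_zero.1 h4.symm
  choose! w hw1 hw2 using h1
  set X : Finset (RAAG Γ) := (y.support.image Prod.fst).filter fun x => ht x = b with hX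
  set u : Ch Γ := ∑ x ∈ X, pt x (w x) with hu
  have hXb : ∀ x ∈ X, ht x = b := fun x hx => (Finset.mem_filter.1 hx).2
  have huU : u ∈ KU Γ c b (n + 1 + 1) := by
    refine Submodule.sum_mem _ fun x hx => ?_
    rw [memU]
    intro p hp
    unfold pt at hp
    rw [Finsupp.lmapDomain_apply] at hp
    have h2 := Finsupp.mapDomain_support (Finsupp.mem_support_iff.mpr hp)
    obtain ⟨l, hl, rfl⟩ := Finset.mem_image.1 h2
    obtain ⟨h3, h4⟩ := hw1 x (hXb x hx) l hl
    exact ⟨h3, h4, (hXb x hx).ge⟩
  have hcu : ∀ x, co x u = if x ∈ X then w x else 0 := by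
    intro x
    rw [hu, map_sum]
    simp only [co_pt]
    rw [Finset.sum_ite_eq']
  refine ⟨y + d u, ?_, ?_⟩
  · have h2 : y + d u ∈ KU Γ c b (n + 1) := Submodule.add_mem _ hy (d_up huU)
    have h3 := memU.1 h2
    rw [memU]
    rintro ⟨x, l⟩ hp
    obtain ⟨h4, h5, h6⟩ := h3 _ hp
    refine ⟨h4, h5, ?_⟩
    by_contra h7
    have hxb : ht x = b := by
      simp only at h6 h7
      omega
    apply hp
    have h8 : co x (y + d u) = 0 := by
      rw [map_add, co_d x u (fun p hp => by
        rw [hxb]
        exact (memU.1 huU p (Finsupp.mem_support_iff.1 hp)).2.2), hcu]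
      split_ifs with h9
      · rw [hw2 x hxb, add_neg_cancel]
      · rw [map_zero, neg_zero, add_zero]
        ext l'
        rw [co_apply, Finsupp.zero_apply]
        by_contra h10
        exact h9 (Finset.mem_filter.2 ⟨Finset.mem_image.2 ⟨(x, l'),
          Finsupp.mem_support_iff.2 h10, rfl⟩, hxb⟩)
    have h9 := DFunLike.congr_fun h8 l
    rwa [co_apply] at h9
  · rw [map_add, d_d (memU_K huU), add_zero]

theorem exact_up (hc : ∀ a b, Γ.Adj a b → c a ≠ c b) (m : ℕ) (hm : ∀ v, c v < m)
    (ha : Acyc Γ c) (a : ℤ) (n : ℕ) (z : Ch Γ) (hz : z ∈ KU Γ c a n) (hd : d z = 0)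
    (h0 : n = 0 → aug z = 0) : ∃ y ∈ KU Γ c a (n + 1), d y = z := by
  classical
  obtain ⟨y, hy, hyz⟩ := exact_all hc m hm n z (memU_K hz) hd h0
  have h1 : ∀ (k : ℕ) (y : Ch Γ), y ∈ KU Γ c (a - k) (n + 1) → d y = z →
      ∃ y' ∈ KU Γ c a (n + 1), d y' = z := by
    intro k
    induction k with
    | zero =>
      intro y hy hyz
      rw [Nat.cast_zero, sub_zero] at hy
      exact ⟨y, hy, hyz⟩
    | succ k ih =>
      intro y hy hyz
      have e1 : a - ((k + 1 : ℕ) : ℤ) + 1 = a - k := by
        push_cast
        ring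
      obtain ⟨y', hy', hdy⟩ := raise ha (a - ((k + 1 : ℕ) : ℤ)) n y hy (by
        rw [e1, hyz]
        exact memU_mono (by omega) hz)
      rw [e1] at hy'
      exact ih y' hy' (hdy.trans hyz)
  refine h1 (∑ p ∈ y.support, (a - ht p.1).toNat) y ?_ hyz
  rw [memU]
  intro p hp
  unfold K at hy
  rw [Finsupp.mem_supported] at hy
  obtain ⟨h2, h3⟩ := hy (Finsupp.mem_support_iff.2 hp)
  refine ⟨h2, h3, ?_⟩
  have h4 := Finset.single_le_sum (f := fun p : RAAG Γ × List V => (a - ht p.1).toNat)
    (fun _ _ => Nat.zero_le _) (Finsupp.mem_support_iff.2 hp)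
  omega

end Pool.Agent.H16.BV
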