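import Mathlib
import Pool.Agent.H16.BV.Up
import Pool.Agent.H16.BV.Down

/-!
The complex of the cubes which cross the level `1/2`: a finite resolution of `ℤ`.

A cube `(x, l)` crosses if `ht x ≤ 0` and `1 ≤ ht x + l.length`. `crs` is the projection to the
crossing cubes, `KX n` the chains of crossing cubes of dimension `n`.

PROOF. A cube of `K n` which does not cross is in `KU 1 n` or in `KD 0 n`, and `KU 1 n ⊓ KD 0 n = ⊥`
(`ht x ≥ 1` and `ht x + n ≤ 0` is impossible). `crs (d y) = 0` for `y ∈ KU 1 n` or `KD 0 n`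
(`d_up`, `d_down`, `d_zero`). Hence `crs (d (crs y)) = crs (d y)` for `y ∈ K n`.
`crs_crs`: `crs (d (crs (d z))) = crs (d (d z)) = 0`.
`cross_exact`: `z ∈ KX (n + 2)`, `crs (d z) = 0`. Then `d z = a + b`, `a ∈ KU 1 (n + 1)`,
`b ∈ KD 0 (n + 1)`, and `0 = d (d z) = d a + d b` with `d a ∈ KU 1 n`, `d b ∈ KD 0 n`, so
`d a = d b = 0`. By `exact_up` and `exact_down`, `a = d a'`, `b = d b'`, `a' ∈ KU 1 (n + 2)`,
`b' ∈ KD 0 (n + 2)` (here `n + 1 ≥ 1`, so no condition on `aug`). `z - a' - b'` is a cycle in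
`K (n + 2)`, by `exact_all` it is `d y`, `y ∈ K (n + 3)`, and `crs (d (crs y)) = crs (d y) =
crs (z - a' - b') = z`.
`cross_exact_one`: the same for `z ∈ KX 1` with `aug z = 0`: `d z = a + b` where `a` is the sum of
the upper vertices: `z` is supported on `(x, [v])` with `ht x = 0`, `d (x, [v]) = (x v, []) -
(x, [])`, so `a = Σ z(x, [v]) (x v, [])`, `b = - Σ z(x, [v]) (x, [])`, `aug a = aug z = 0`,
`aug b = - aug z = 0`.
`aug_crs`: for `z ∈ KX 2`: `aug (crs (d z)) = 0`: it is enough to take `z = (x, [v, w])`, `ht x = 0`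
or `ht x = -1`: `dCube x [v, w] = (x v, [w]) - (x, [w]) - (x w, [v]) + (x, [v])`; the crossing ones
among them (those with first component of height 0) are the second and fourth, or the first and
third.
`cross_surj`: if `V` is nonempty, `(1, [v])` has `aug = 1`.
-/

set_option autoImplicit false

namespace Pool.Agent.H16.BV

open Function Pool.Agent.H16.BB

variable {V : Type} {Γ : SimpleGraph V} {c : V → ℕ}

open Classical in
/-- The projection to the crossing cubes. -/
noncomputable def crs : Ch Γ →ₗ[ℤ] Ch Γ :=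
  Finsupp.linearCombination ℤ fun p =>
    if ht p.1 ≤ 0 ∧ 1 ≤ ht p.1 + (p.2.length : ℤ) then Finsupp.single p 1 else 0

variable (Γ) (c)

/-- Chains of crossing cubes. -/
def KX (n : ℕ) : Submodule ℤ (Ch Γ) :=
  Finsupp.supported ℤ ℤ {p | IsClq Γ c p.2 ∧ p.2.length = n ∧ ht p.1 ≤ 0 ∧
    1 ≤ ht p.1 + (n : ℤ)}

variable {Γ} {c}

/-- Crossing cubes. -/
private def Cr (p : RAAG Γ × List V) : Prop := ht p.1 ≤ 0 ∧ 1 ≤ ht p.1 + (p.2.length : ℤ)

open Classical in
private theorem crs_single (p : RAAG Γ × List V) (a : ℤ) :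
    crs (Finsupp.single p a) = if Cr p then Finsupp.single p a else 0 := by
  unfold crs Cr
  rw [Finsupp.linearCombination_single]
  split_ifs
  · rw [Finsupp.smul_single, smul_eq_mul, mul_one]
  · rw [smul_zero]

open Classical in
private theorem crs_eq (z : Ch Γ) : crs z = z.filter Cr := by
  induction z using Finsupp.induction_linear with
  | zero => rw [map_zero, Finsupp.filter_zero]
  | add f g hf hg => rw [map_add, hf, hg, Finsupp.filter_add]
  | single p a =>
    rw [crs_single]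
    split_ifs with h
    · rw [Finsupp.filter_single_of_pos _ h]
    · rw [Finsupp.filter_single_of_neg _ h]

private theorem crs_id {n : ℕ} {z : Ch Γ} (hz : z ∈ KX Γ c n) : crs z = z := by
  classical
  rw [crs_eq, Finsupp.filter_eq_self_iff]
  intro p hp
  obtain ⟨-, h2, h3, h4⟩ := hz (Finsupp.mem_support_iff.2 hp)
  exact ⟨h3, by rw [h2]; exact h4⟩

private theorem crs_up {n : ℕ} {z : Ch Γ} (hz : z ∈ KU Γ c 1 n) : crs z = 0 := by
  classical
  rw [crs_eq, Finsupp.filter_eq_zero_iff]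
  intro p hp
  by_contra h
  obtain ⟨-, -, h3⟩ := hz (Finsupp.mem_support_iff.2 h)
  have := hp.1
  omega

private theorem crs_down {n : ℕ} {z : Ch Γ} (hz : z ∈ KD Γ c 0 n) : crs z = 0 := by
  classical
  rw [crs_eq, Finsupp.filter_eq_zero_iff]
  intro p hp
  by_contra h
  obtain ⟨-, h2, h3⟩ := hz (Finsupp.mem_support_iff.2 h)
  have := hp.2
  rw [h2] at this
  omega

private theorem KU_le {a : ℤ} {n : ℕ} : KU Γ c a n ≤ K Γ c n :=
  Finsupp.supported_mono fun _ h => ⟨h.1, h.2.1⟩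

private theorem KD_le {a : ℤ} {n : ℕ} : KD Γ c a n ≤ K Γ c n :=
  Finsupp.supported_mono fun _ h => ⟨h.1, h.2.1⟩

private theorem KX_le {n : ℕ} : KX Γ c n ≤ K Γ c n :=
  Finsupp.supported_mono fun _ h => ⟨h.1, h.2.1⟩

private theorem crs_d_up {n : ℕ} {z : Ch Γ} (hz : z ∈ KU Γ c 1 n) : crs (d z) = 0 := by
  cases n with
  | zero => rw [d_zero (KU_le hz), map_zero]
  | succ n => exact crs_up (d_up hz)

private theorem crs_d_down {n : ℕ} {z : Ch Γ} (hz : z ∈ KD Γ c 0 n) : crs (d z) = 0 := by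
  cases n with
  | zero => rw [d_zero (KD_le hz), map_zero]
  | succ n => exact crs_down (d_down hz)

private theorem split {n : ℕ} {z : Ch Γ} (hz : z ∈ K Γ c n) :
    ∃ a ∈ KU Γ c 1 n, ∃ b ∈ KD Γ c 0 n, z = crs z + a + b := by
  classical
  refine ⟨z.filter fun p => 1 ≤ ht p.1, ?_, z.filter fun p => ht p.1 + (p.2.length : ℤ) ≤ 0, ?_, ?_⟩
  · rw [KU, Finsupp.mem_supported]
    intro p hp
    rw [Finset.mem_coe, Finsupp.support_filter, Finset.mem_filter] at hp
    exact ⟨(hz hp.1).1, (hz hp.1).2, hp.2⟩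
  · rw [KD, Finsupp.mem_supported]
    intro p hp
    rw [Finset.mem_coe, Finsupp.support_filter, Finset.mem_filter] at hp
    refine ⟨(hz hp.1).1, (hz hp.1).2, ?_⟩
    have := hp.2
    rw [(hz hp.1).2] at this
    exact this
  · rw [crs_eq]
    ext p
    rw [Finsupp.add_apply, Finsupp.add_apply, Finsupp.filter_apply, Finsupp.filter_apply,
      Finsupp.filter_apply]
    have h0 : (0 : ℤ) ≤ (p.2.length : ℤ) := Int.natCast_nonneg _
    by_cases h1 : 1 ≤ ht p.1
    · have h2 : ¬ Cr p := fun h => by have := h.1; omega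
      have h3 : ¬ (ht p.1 + (p.2.length : ℤ) ≤ 0) := by omega
      rw [if_neg h2, if_pos h1, if_neg h3]
      ring
    · by_cases h3 : ht p.1 + (p.2.length : ℤ) ≤ 0
      · have h2 : ¬ Cr p := fun h => by have := h.2; omega
        rw [if_neg h2, if_neg h1, if_pos h3]
        ring
      · have h2 : Cr p := ⟨by omega, by omega⟩
        rw [if_pos h2, if_neg h1, if_neg h3]
        ring

private theorem crs_d_crs {n : ℕ} {z : Ch Γ} (hz : z ∈ K Γ c n) : crs (d (crs z)) = crs (d z) := by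
  obtain ⟨a, ha, b, hb, h⟩ := split hz
  conv_rhs => rw [h]
  rw [map_add, map_add, map_add, map_add, crs_d_up ha, crs_d_down hb, add_zero, add_zero]

private theorem disj {n : ℕ} {z : Ch Γ} (h1 : z ∈ KU Γ c 1 n) (h2 : z ∈ KD Γ c 0 n) : z = 0 := by
  ext p
  by_contra h
  have h3 := (h1 (Finsupp.mem_support_iff.2 h)).2.2
  have h4 := (h2 (Finsupp.mem_support_iff.2 h)).2.2
  omega

theorem crs_mem {n : ℕ} {z : Ch Γ} (hz : z ∈ K Γ c n) : crs z ∈ KX Γ c n := by
  classical
  rw [crs_eq, KX, Finsupp.mem_supported]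
  intro p hp
  rw [Finset.mem_coe, Finsupp.support_filter, Finset.mem_filter] at hp
  refine ⟨(hz hp.1).1, (hz hp.1).2, hp.2.1, ?_⟩
  have := hp.2.2
  rw [(hz hp.1).2] at this
  exact this

theorem crs_d_mem {n : ℕ} {z : Ch Γ} (hz : z ∈ KX Γ c (n + 1)) : crs (d z) ∈ KX Γ c n :=
  crs_mem (d_mem (KX_le hz))

theorem crs_crs {n : ℕ} {z : Ch Γ} (hz : z ∈ KX Γ c n) : crs (d (crs (d z))) = 0 := by
  cases n with
  | zero => rw [d_zero (KX_le hz), map_zero, map_zero, map_zero]
  | succ n => rw [crs_d_crs (d_mem (KX_le hz)), d_d (KX_le hz), map_zero]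

private theorem aug_single (p : RAAG Γ × List V) (a : ℤ) : aug (Finsupp.single p a) = a := by
  unfold aug
  rw [Finsupp.linearCombination_single, smul_eq_mul, mul_one]

open Classical in
private theorem crs_edge (x : RAAG Γ) (v : V) :
    aug (crs (Finsupp.single (x, [v]) 1)) = if ht x = 0 then 1 else 0 := by
  rw [crs_single]
  have h : Cr (x, [v]) ↔ ht x = 0 := by
    unfold Cr
    simp only [List.length_singleton, Nat.cast_one]
    omega
  by_cases h1 : ht x = 0
  · rw [if_pos (h.2 h1), if_pos h1, aug_single]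
  · rw [if_neg (fun h2 => h1 (h.1 h2)), if_neg h1, map_zero]

private theorem sum_singles (z : Ch Γ) : z = ∑ p ∈ z.support, Finsupp.single p (z p) := by
  conv_lhs => rw [← Finsupp.sum_single z]
  rfl

theorem aug_crs {z : Ch Γ} (hz : z ∈ KX Γ c 2) : aug (crs (d z)) = 0 := by
  classical
  rw [sum_singles z, map_sum, map_sum, map_sum]
  refine Finset.sum_eq_zero fun p hp => ?_
  obtain ⟨x, l⟩ := p
  obtain ⟨-, h2, h3, h4⟩ := hz hp
  obtain ⟨v, w, rfl⟩ := List.length_eq_two.1 h2
  rw [d_single, map_smul, map_smul]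
  have h5 : dCube x [v, w] = Finsupp.single (x * gen v, [w]) 1 - Finsupp.single (x, [w]) 1 -
      (Finsupp.single (x * gen w, [v]) 1 - Finsupp.single (x, [v]) 1) := by
    simp only [dCube, Finsupp.mapDomain_zero, sub_zero, Finsupp.mapDomain_sub,
      Finsupp.mapDomain_single]
  rw [h5, map_sub, map_sub, map_sub, map_sub, map_sub, map_sub, crs_edge, crs_edge, crs_edge,
    crs_edge, ht_mul, ht_mul, ht_gen, ht_gen, sub_sub_sub_cancel_right, sub_self, smul_zero]

theorem cross_exact (hc : ∀ a b, Γ.Adj a b → c a ≠ c b) (m : ℕ) (hm : ∀ v, c v < m)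
    (ha : Acyc Γ c) (n : ℕ) (z : Ch Γ) (hz : z ∈ KX Γ c (n + 2)) (hd : crs (d z) = 0) :
    ∃ y ∈ KX Γ c (n + 3), crs (d y) = z := by
  obtain ⟨a, hA, b, hB, h⟩ := split (d_mem (KX_le hz))
  rw [hd, zero_add] at h
  have h1 : d a + d b = 0 := by rw [← map_add, ← h, d_d (KX_le hz)]
  have h2 : d a = 0 := by
    refine disj (d_up hA) ?_
    rw [eq_neg_of_add_eq_zero_left h1]
    exact Submodule.neg_mem _ (d_down hB)
  have h3 : d b = 0 := by rw [h2, zero_add] at h1; exact h1
  obtain ⟨a', hA', ea⟩ := exact_up hc m hm ha 1 (n + 1) a hA h2 (fun h => by omega)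
  obtain ⟨b', hB', eb⟩ := exact_down hc m hm ha 0 (n + 1) b hB h3 (fun h => by omega)
  have h4 : z - a' - b' ∈ K Γ c (n + 2) :=
    Submodule.sub_mem _ (Submodule.sub_mem _ (KX_le hz) (KU_le hA')) (KD_le hB')
  have h5 : d (z - a' - b') = 0 := by
    rw [map_sub, map_sub, ea, eb, h]
    abel
  obtain ⟨y, hy, ey⟩ := exact_all hc m hm (n + 2) _ h4 h5 (fun h => by omega)
  refine ⟨crs y, crs_mem hy, ?_⟩
  rw [crs_d_crs hy, ey, map_sub, map_sub, crs_id hz, crs_up hA', crs_down hB', sub_zero, sub_zero]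

private theorem aug_mapDomain (f : RAAG Γ × List V → RAAG Γ × List V) (z : Ch Γ) :
    aug (z.mapDomain f) = aug z := by
  induction z using Finsupp.induction_linear with
  | zero => simp
  | add f g hf hg => rw [Finsupp.mapDomain_add, map_add, map_add, hf, hg]
  | single p a => rw [Finsupp.mapDomain_single, aug_single, aug_single]

private theorem d_one (z : Ch Γ) (hz : z ∈ K Γ c 1) :
    d z = z.mapDomain (fun p => (p.1 * (p.2.map gen).prod, [])) -
      z.mapDomain (fun p => (p.1, [])) := by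
  conv_lhs => rw [sum_singles z]
  conv_rhs => rw [sum_singles z]
  rw [map_sum, Finsupp.mapDomain_finsetSum, Finsupp.mapDomain_finsetSum,
    ← Finset.sum_sub_distrib]
  refine Finset.sum_congr rfl fun p hp => ?_
  obtain ⟨x, l⟩ := p
  obtain ⟨v, rfl⟩ := List.length_eq_one_iff.1 (hz hp).2
  rw [d_single, Finsupp.mapDomain_single, Finsupp.mapDomain_single]
  simp [dCube, smul_sub]

theorem cross_exact_one (hc : ∀ a b, Γ.Adj a b → c a ≠ c b) (m : ℕ) (hm : ∀ v, c v < m)
    (ha : Acyc Γ c) (z : Ch Γ) (hz : z ∈ KX Γ c 1) (h0 : aug z = 0) :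
    ∃ y ∈ KX Γ c 2, crs (d y) = z := by
  classical
  have h := d_one z (KX_le hz)
  set a : Ch Γ := z.mapDomain (fun p => (p.1 * (p.2.map gen).prod, [])) with hadef
  set b : Ch Γ := z.mapDomain (fun p => (p.1, [])) with hbdef
  have hA : a ∈ KU Γ c 1 0 := by
    rw [KU, Finsupp.mem_supported]
    intro p hp
    obtain ⟨r, hr, rfl⟩ := Finset.mem_image.1 (Finsupp.mapDomain_support hp)
    obtain ⟨-, h2, h3, h4⟩ := hz hr
    obtain ⟨v, hv⟩ := List.length_eq_one_iff.1 h2
    refine ⟨List.Pairwise.nil, rfl, ?_⟩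
    rw [hv, List.map_singleton, List.prod_singleton]
    change 1 ≤ ht (r.1 * gen v)
    rw [ht_mul, ht_gen]
    push_cast at h4
    omega
  have hB : b ∈ KD Γ c 0 0 := by
    rw [KD, Finsupp.mem_supported]
    intro p hp
    obtain ⟨r, hr, rfl⟩ := Finset.mem_image.1 (Finsupp.mapDomain_support hp)
    obtain ⟨-, h2, h3, h4⟩ := hz hr
    refine ⟨List.Pairwise.nil, rfl, ?_⟩
    change ht r.1 + ((0 : ℕ) : ℤ) ≤ 0
    push_cast
    omega
  obtain ⟨a', hA', ea⟩ := exact_up hc m hm ha 1 0 a hA (d_zero (KU_le hA))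
    (fun _ => by rw [hadef, aug_mapDomain, h0])
  obtain ⟨b', hB', eb⟩ := exact_down hc m hm ha 0 0 b hB (d_zero (KD_le hB))
    (fun _ => by rw [hbdef, aug_mapDomain, h0])
  have h4 : z - a' + b' ∈ K Γ c 1 :=
    Submodule.add_mem _ (Submodule.sub_mem _ (KX_le hz) (KU_le hA')) (KD_le hB')
  have h5 : d (z - a' + b') = 0 := by
    rw [map_add, map_sub, ea, eb, h]
    abel
  obtain ⟨y, hy, ey⟩ := exact_all hc m hm 1 _ h4 h5 (fun h => by omega)
  refine ⟨crs y, crs_mem hy, ?_⟩
  rw [crs_d_crs hy, ey, map_add, map_sub, crs_id hz, crs_up hA', crs_down hB', sub_zero, add_zero]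

theorem cross_surj (v : V) (a : ℤ) : ∃ z ∈ KX Γ c 1, aug z = a := by
  refine ⟨Finsupp.single (1, [v]) a, ?_, aug_single _ _⟩
  rw [KX]
  refine Finsupp.single_mem_supported ℤ a ?_
  exact ⟨List.pairwise_singleton _ _, rfl, by rw [ht_one], by rw [ht_one]; norm_num⟩

private theorem clq_length : ∀ (l : List V) (m : ℕ), IsClq Γ c l → (∀ v ∈ l, c v < m) →
    l.length ≤ m := by
  intro l
  induction l with
  | nil => intro m _ _; exact Nat.zero_le _
  | cons v l ih =>
    intro m h hm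
    have h1 : l.length ≤ c v :=
      ih (c v) (List.Pairwise.of_cons h) fun w hw => (List.rel_of_pairwise_cons h hw).2
    have h2 := hm v List.mem_cons_self
    rw [List.length_cons]
    omega

/-- Cliques have at most `m` vertices. -/
theorem KX_eq_bot (m : ℕ) (hm : ∀ v, c v < m) {n : ℕ} (hn : m < n) : KX Γ c n = ⊥ := by
  rw [eq_bot_iff]
  intro z hz
  rw [Submodule.mem_bot]
  ext p
  by_contra h
  obtain ⟨h1, h2, -⟩ := hz (Finsupp.mem_support_iff.2 h)
  have := clq_length _ m h1 fun v _ => hm v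
  omega

end Pool.Agent.H16.BV
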