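import Mathlib
import Pool.Agent.H16.BV.Cross
import Pool.Agent.H16.BV.Complex

/-!
Groups acting on the cubical complex, freely and cocompactly between the levels, are of type FP.

PROOF of `fp_of_cubeAct`: apply `fp_of_complex` to the sets
`X n = {p : RAAG Γ × List V // IsClq Γ c p.2 ∧ p.2.length = n + 1 ∧ ht p.1 ≤ 0 ∧
1 ≤ ht p.1 + ((n + 1 : ℕ) : ℤ)}` with the action `q • (x, l) = (P q x, l.map (L q))`, the boundary
`crs ∘ d` (transported along `Finsupp.supportedEquivFinsupp`, or `Finsupp.subtypeDomain` and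
`Finsupp.mapDomain Subtype.val`) and `ε = aug`. Equivariance of `d`: by induction on the list from
`mul_gen`; of `crs`: from `ht_eq`. Exactness: `cross_exact_one`, `aug_crs`, `cross_exact`, `crs_crs`.
`X m` is empty by `KX_eq_bot` (cliques have decreasing colours `< m`).
-/

set_option autoImplicit false

namespace Pool.Agent.H16.BV

open Function Pool.Agent.H16.BB

/-- An action on the cubical complex which is free and cocompact between two levels. -/
structure CubeAct (Q : Type) [Group Q] {V : Type} (Γ : SimpleGraph V) (c : V → ℕ) where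
  /-- the action on the vertices of the cubical complex -/
  P : Q →* Equiv.Perm (RAAG Γ)
  /-- the action on the vertices of the flag complex -/
  L : Q →* Equiv.Perm V
  mul_gen : ∀ q x v, P q (x * gen v) = P q x * gen (L q v)
  ht_eq : ∀ q x, ht (P q x) = ht x
  adj : ∀ q a b, Γ.Adj (L q a) (L q b) ↔ Γ.Adj a b
  col_eq : ∀ q v, c (L q v) = c v
  free : ∀ q x v, P q x = x → L q v = v → q = 1
  fin : ∀ n, ∃ S : Set (RAAG Γ × List V), S.Finite ∧ ∀ x l, IsClq Γ c l → l.length = n + 1 →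
    ht x ≤ 0 → 1 ≤ ht x + ((n + 1 : ℕ) : ℤ) → ∃ q, (P q x, l.map (L q)) ∈ S

private theorem clq_map {Q : Type} [Group Q] {V : Type} {Γ : SimpleGraph V} {c : V → ℕ}
    (A : CubeAct Q Γ c) (q : Q) {l : List V} (h : IsClq Γ c l) : IsClq Γ c (l.map (A.L q)) := by
  unfold IsClq at *
  rw [List.pairwise_map]
  refine h.imp ?_
  intro a b hab
  refine ⟨(A.adj q a b).2 hab.1, ?_⟩
  rw [A.col_eq, A.col_eq]
  exact hab.2

/-- The crossing cubes of dimension `n + 1`. -/
private abbrev XX {V : Type} (Γ : SimpleGraph V) (c : V → ℕ) (n : ℕ) : Type :=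
  {p : RAAG Γ × List V // p ∈ {p : RAAG Γ × List V | IsClq Γ c p.2 ∧ p.2.length = n + 1 ∧
    ht p.1 ≤ 0 ∧ 1 ≤ ht p.1 + ((n + 1 : ℕ) : ℤ)}}

private def mv {Q : Type} [Group Q] {V : Type} {Γ : SimpleGraph V} {c : V → ℕ}
    (A : CubeAct Q Γ c) (q : Q) (p : RAAG Γ × List V) : RAAG Γ × List V :=
  (A.P q p.1, p.2.map (A.L q))

private theorem mv_mem {Q : Type} [Group Q] {V : Type} {Γ : SimpleGraph V} {c : V → ℕ}
    (A : CubeAct Q Γ c) (q : Q) (n : ℕ) (p : XX Γ c n) :
    mv A q p.1 ∈ {p : RAAG Γ × List V | IsClq Γ c p.2 ∧ p.2.length = n + 1 ∧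
      ht p.1 ≤ 0 ∧ 1 ≤ ht p.1 + ((n + 1 : ℕ) : ℤ)} := by
  obtain ⟨⟨x, l⟩, h1, h2, h3, h4⟩ := p
  refine ⟨clq_map A q h1, ?_, ?_, ?_⟩
  · simpa [mv] using h2
  · change ht (A.P q x) ≤ 0
    rw [A.ht_eq]
    exact h3
  · change 1 ≤ ht (A.P q x) + ((n + 1 : ℕ) : ℤ)
    rw [A.ht_eq]
    exact h4

@[instance_reducible] private def act {Q : Type} [Group Q] {V : Type} {Γ : SimpleGraph V} {c : V → ℕ}
    (A : CubeAct Q Γ c) (n : ℕ) : MulAction Q (XX Γ c n) where
  smul q p := ⟨mv A q p.1, mv_mem A q n p⟩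
  one_smul p := by
    refine Subtype.ext ?_
    change mv A 1 p.1 = p.1
    refine Prod.ext ?_ ?_
    · simp [mv]
    · have h : (fun v : V => v) = id := rfl
      simp [mv]
  mul_smul q r p := by
    refine Subtype.ext ?_
    change mv A (q * r) p.1 = mv A q (mv A r p.1)
    refine Prod.ext ?_ ?_
    · simp [mv]
    · simp [mv, List.map_map]

section

variable {Q : Type} [Group Q] {V : Type} {Γ : SimpleGraph V} {c : V → ℕ}

private noncomputable def io (Γ : SimpleGraph V) (c : V → ℕ) (n : ℕ) :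
    (XX Γ c n →₀ ℤ) →ₗ[ℤ] Ch Γ := Finsupp.lmapDomain ℤ ℤ Subtype.val

private theorem io_single (n : ℕ) (x : XX Γ c n) (a : ℤ) :
    io Γ c n (Finsupp.single x a) = Finsupp.single x.1 a := by
  simp [io]

private theorem io_inj (n : ℕ) : Injective (io Γ c n) :=
  Finsupp.mapDomain_injective Subtype.val_injective

private theorem io_mem (n : ℕ) (z : XX Γ c n →₀ ℤ) : io Γ c n z ∈ KX Γ c (n + 1) := by
  induction z using Finsupp.induction_linear with
  | zero => simp
  | add f g hf hg =>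
    rw [map_add]
    exact Submodule.add_mem _ hf hg
  | single x a =>
    rw [io_single]
    exact Finsupp.single_mem_supported ℤ a x.2

private theorem io_surj (n : ℕ) (z : Ch Γ) (hz : z ∈ KX Γ c (n + 1)) : ∃ y, io Γ c n y = z := by
  refine ⟨Finsupp.subtypeDomain _ z, ?_⟩
  change Finsupp.mapDomain Subtype.val (Finsupp.subtypeDomain _ z) = z
  ext p
  by_cases hp : p ∈ {p : RAAG Γ × List V | IsClq Γ c p.2 ∧ p.2.length = n + 1 ∧
      ht p.1 ≤ 0 ∧ 1 ≤ ht p.1 + ((n + 1 : ℕ) : ℤ)}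
  · have h := Finsupp.mapDomain_apply (f := (Subtype.val : XX Γ c n → RAAG Γ × List V))
      Subtype.val_injective (Finsupp.subtypeDomain _ z) ⟨p, hp⟩
    rw [h]
    rfl
  · rw [Finsupp.mapDomain_of_notMem_range]
    · by_contra hne
      have h1 : p ∈ z.support := Finsupp.mem_support_iff.2 fun h => hne h.symm
      exact hp ((Finsupp.mem_supported ℤ z).1 hz h1)
    · rintro ⟨y, rfl⟩
      exact hp y.2

private noncomputable def ac (A : CubeAct Q Γ c) (q : Q) : Ch Γ →ₗ[ℤ] Ch Γ :=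
  Finsupp.lmapDomain ℤ ℤ (mv A q)

private theorem ac_single (A : CubeAct Q Γ c) (q : Q) (p : RAAG Γ × List V) (a : ℤ) :
    ac A q (Finsupp.single p a) = Finsupp.single (mv A q p) a := by
  simp [ac]

private theorem dCube_mv (A : CubeAct Q Γ c) (q : Q) (x : RAAG Γ) (l : List V) :
    dCube (A.P q x) (l.map (A.L q)) = ac A q (dCube x l) := by
  induction l with
  | nil => simp [dCube]
  | cons v l ih =>
    rw [List.map_cons, dCube, dCube, map_sub, map_sub, ac_single, ac_single, ih, ← A.mul_gen]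
    congr 1
    change Finsupp.mapDomain _ (Finsupp.mapDomain _ _) =
      Finsupp.mapDomain _ (Finsupp.mapDomain _ _)
    rw [← Finsupp.mapDomain_comp, ← Finsupp.mapDomain_comp]
    congr 1

private theorem d_ac (A : CubeAct Q Γ c) (q : Q) (z : Ch Γ) : d (ac A q z) = ac A q (d z) := by
  induction z using Finsupp.induction_linear with
  | zero => simp
  | add f g hf hg => rw [map_add, map_add, map_add, map_add, hf, hg]
  | single p a =>
    obtain ⟨x, l⟩ := p
    rw [ac_single]
    change d (Finsupp.single (A.P q x, l.map (A.L q)) a) = _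
    rw [d_single, d_single, dCube_mv, map_smul]

private theorem crs_single (p : RAAG Γ × List V) (a : ℤ) :
    crs (Finsupp.single p a) = a • crs (Finsupp.single p (1 : ℤ)) := by
  rw [← map_smul, Finsupp.smul_single, smul_eq_mul, mul_one]

private theorem crs_ac (A : CubeAct Q Γ c) (q : Q) (z : Ch Γ) :
    crs (ac A q z) = ac A q (crs z) := by
  induction z using Finsupp.induction_linear with
  | zero => simp
  | add f g hf hg => rw [map_add, map_add, map_add, map_add, hf, hg]
  | single p a =>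
    rw [ac_single]
    have h1 : ht (mv A q p).1 = ht p.1 := A.ht_eq q p.1
    have h2 : (mv A q p).2.length = p.2.length := by simp [mv]
    rw [crs, Finsupp.linearCombination_single, Finsupp.linearCombination_single, h1, h2, map_smul]
    split_ifs
    · rw [ac_single]
    · rw [map_zero]

private theorem aug_ac (A : CubeAct Q Γ c) (q : Q) (z : Ch Γ) : aug (ac A q z) = aug z := by
  induction z using Finsupp.induction_linear with
  | zero => simp
  | add f g hf hg => rw [map_add, map_add, map_add, hf, hg]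
  | single p a =>
    rw [ac_single, aug, Finsupp.linearCombination_single, Finsupp.linearCombination_single]

/-- The boundary. -/
private noncomputable def bo (Γ : SimpleGraph V) (c : V → ℕ) (n : ℕ) :
    (XX Γ c (n + 1) →₀ ℤ) →ₗ[ℤ] (XX Γ c n →₀ ℤ) :=
  (Finsupp.lsubtypeDomain {p : RAAG Γ × List V | IsClq Γ c p.2 ∧ p.2.length = n + 1 ∧
    ht p.1 ≤ 0 ∧ 1 ≤ ht p.1 + ((n + 1 : ℕ) : ℤ)}).comp (crs.comp (d.comp (io Γ c (n + 1))))

private theorem io_bo (n : ℕ) (z : XX Γ c (n + 1) →₀ ℤ) :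
    io Γ c n (bo Γ c n z) = crs (d (io Γ c (n + 1) z)) := by
  obtain ⟨y, hy⟩ := io_surj (c := c) n _ (crs_d_mem (io_mem (n + 1) z))
  rw [← hy]
  congr 1
  have h : bo Γ c n z = (Finsupp.lsubtypeDomain (M := ℤ) (R := ℤ)
      {p : RAAG Γ × List V | IsClq Γ c p.2 ∧
        p.2.length = n + 1 ∧ ht p.1 ≤ 0 ∧ 1 ≤ ht p.1 + ((n + 1 : ℕ) : ℤ)})
      (crs (d (io Γ c (n + 1) z))) := rfl
  rw [h, ← hy]
  ext p
  change (io Γ c n y) p.1 = y p
  exact Finsupp.mapDomain_apply Subtype.val_injective y p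

end

theorem fp_of_cubeAct {Q : Type} [Group Q] {V : Type} [Nonempty V] {Γ : SimpleGraph V} {c : V → ℕ}
    (A : CubeAct Q Γ c) (hc : ∀ a b, Γ.Adj a b → c a ≠ c b) (m : ℕ) (hm : ∀ v, c v < m)
    (ha : Acyc Γ c) : FP Q := by
  let _ : ∀ n, MulAction Q (XX Γ c n) := fun n => act A n
  have hsm : ∀ (n : ℕ) (q : Q) (x : XX Γ c n), (q • x).1 = mv A q x.1 := fun _ _ _ => rfl
  have hio : ∀ (n : ℕ) (q : Q) (z : XX Γ c n →₀ ℤ),
      io Γ c n (permRep Q (XX Γ c n) q z) = ac A q (io Γ c n z) := by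
    intro n q z
    induction z using Finsupp.induction_linear with
    | zero => simp
    | add f g hf hg => rw [map_add, map_add, map_add, map_add, hf, hg]
    | single x a => rw [permRep_single, io_single, io_single, ac_single, hsm]
  refine fp_of_complex (XX Γ c) ?_ ?_ (bo Γ c) ?_ (aug.comp (io Γ c 0)) ?_ ?_ ?_ ?_ m ?_
  · intro n q x hx
    have h1 : mv A q x.1 = x.1 := by
      rw [← hsm, hx]
    obtain ⟨⟨y, l⟩, h2, h3, h4⟩ := x
    cases l with
    | nil => simp at h3
    | cons v l =>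
      have h5 : A.P q y = y := congrArg Prod.fst h1
      have h6 : (v :: l).map (A.L q) = v :: l := congrArg Prod.snd h1
      rw [List.map_cons, List.cons.injEq] at h6
      exact A.free q y v h5 h6.1
  · intro n
    obtain ⟨S, hS, h⟩ := A.fin n
    refine ⟨Subtype.val ⁻¹' S, hS.preimage Subtype.val_injective.injOn, ?_⟩
    intro x
    obtain ⟨q, hq⟩ := h x.1.1 x.1.2 x.2.1 x.2.2.1 x.2.2.2.1 x.2.2.2.2
    exact ⟨q, hq⟩
  · intro n q z
    refine io_inj n ?_
    rw [io_bo, hio, hio, io_bo, d_ac, crs_ac]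
  · intro q z
    rw [LinearMap.comp_apply, LinearMap.comp_apply, hio, aug_ac]
  · intro a
    obtain ⟨v⟩ := ‹Nonempty V›
    obtain ⟨z, hz, h⟩ := cross_surj (Γ := Γ) (c := c) v a
    obtain ⟨y, rfl⟩ := io_surj 0 z hz
    exact ⟨y, h⟩
  · intro z
    constructor
    · intro h
      obtain ⟨y, hy, h1⟩ := cross_exact_one hc m hm ha (io Γ c 0 z) (io_mem 0 z) h
      obtain ⟨x, rfl⟩ := io_surj 1 y hy
      refine ⟨x, io_inj 0 ?_⟩
      rw [io_bo, h1]
    · rintro ⟨y, rfl⟩
      rw [LinearMap.comp_apply, io_bo]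
      exact aug_crs (io_mem 1 y)
  · intro n z
    constructor
    · intro h
      have h0 : crs (d (io Γ c (n + 1) z)) = 0 := by
        rw [← io_bo, h, map_zero]
      obtain ⟨y, hy, h1⟩ := cross_exact hc m hm ha n (io Γ c (n + 1) z) (io_mem (n + 1) z) h0
      obtain ⟨x, rfl⟩ := io_surj (n + 2) y hy
      refine ⟨x, io_inj (n + 1) ?_⟩
      rw [io_bo, h1]
    · rintro ⟨y, rfl⟩
      refine io_inj n ?_
      rw [io_bo, io_bo, map_zero]
      exact crs_crs (io_mem (n + 2) y)
  · refine ⟨fun x => ?_⟩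
    have h1 : Finsupp.single x.1 (1 : ℤ) ∈ KX Γ c (m + 1) :=
      Finsupp.single_mem_supported ℤ 1 x.2
    rw [KX_eq_bot m hm (Nat.lt_succ_self m), Submodule.mem_bot, Finsupp.single_eq_zero] at h1
    exact one_ne_zero h1

end Pool.Agent.H16.BV
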