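import Mathlib
import Pool.Agent.H16.BV.CubeAct
import Pool.Agent.H16.BV.ActA

/-!
The kernel of `deg` acts on the cubical complex of the graph of `D`: it is of type FP if the flag
complex is acyclic.

PROOF. `P = act D` and `L = vAct D ∘ ret`, restricted to the kernel. `free`: if
`L q v = v` then `ret q = 1` (the action on the second component of `v` is left multiplication), so
`act q = ` left multiplication by `act q 1` (`act_eq`, `act_inv`), and `act q x = x` gives
`act q 1 = 1`, `q = 1` by `act_eq`. `fin`: let `v₀ = (0, 1)` (as `0 < D.m`); the set `S` of all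
`(gen v₀ ^ k, l)` with `-n ≤ k ≤ 0` and `l = (i, 1) :: l'`, `i < D.m`, the entries of `l'` in
`D.T i` (the entries of a clique after the first one are adjacent to the first one and have
smaller colours, so they are in `D.T i`: definition of `D.edges`, see `mem_T`), `l.length = n + 1`,
is finite. For a cube `(x, l)` take first `a = inv (gen v₀ ^ (ht x) * x⁻¹)` (degree 0,
`act a x = gen v₀ ^ (ht x)`, `ret a = 1`), then, if `(i, g)` is the first entry of `l`,
`b = inv (gen v₀ ^ k) * ι g⁻¹ * (inv (gen v₀ ^ k))⁻¹`, `k = ht x` (degree 0, fixes `gen v₀ ^ k`,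
`ret b = g⁻¹`); `q = b * a`.
-/

set_option autoImplicit false

namespace Pool.Agent.H16.BV

open Function Pool.Agent.H16.BB

variable {G : Type} [Group G] (D : Datum G)

/-- Adjacency to the vertices with second component 1. -/
theorem mem_T (i : ℕ) (p : ℕ × G) (h : D.edges.Adj (i, 1) p) (hp : p.1 < i) : p ∈ D.T i := by
  rw [Datum.edges, SimpleGraph.fromRel_adj] at h
  rcases h.2 with h1 | h1
  · exact absurd (D.lt _ _ h1) (not_lt.2 hp.le)
  · simpa using h1

private theorem ht_inv_ak {V : Type} {Γ : SimpleGraph V} (x : RAAG Γ) : ht x⁻¹ = -ht x := by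
  unfold ht
  rw [map_inv, toAdd_inv]

private theorem ht_zpow_ak {V : Type} {Γ : SimpleGraph V} (x : RAAG Γ) (k : ℤ) :
    ht (x ^ k) = k * ht x := by
  unfold ht
  rw [map_zpow, toAdd_zpow, smul_eq_mul]

private theorem deg_inv_ak (y : RAAG (gr D)) (hy : ht y = 0) : D.deg D.m (inv D y) = 1 := by
  have h1 := ht_act D (inv D y) 1
  rw [act_inv, mul_one, hy, ht_one, add_zero] at h1
  exact (Multiplicative.toAdd.injective (h1.symm.trans toAdd_one.symm))

private theorem act_conj_ak (y : RAAG (gr D)) (g : G) :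
    act D (inv D y * D.ι D.m g * (inv D y)⁻¹) y = y := by
  rw [map_mul, map_mul, Equiv.Perm.mul_apply, Equiv.Perm.mul_apply, ← map_inv (inv D),
    act_inv D y⁻¹ y, inv_mul_cancel, act_ι, map_one, act_inv, mul_one]

private theorem deg_conj_ak (y : RAAG (gr D)) (g : G) :
    D.deg D.m (inv D y * D.ι D.m g * (inv D y)⁻¹) = 1 := by
  rw [map_mul, map_mul, map_inv, Datum.deg_ι, mul_one, mul_inv_cancel]

private theorem ret_conj_ak (y : RAAG (gr D)) (g : G) :
    D.ret D.m (inv D y * D.ι D.m g * (inv D y)⁻¹) = g := by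
  rw [map_mul, map_mul, map_inv, Datum.ret_ι, ret_inv, one_mul, inv_one, mul_one]

/-- The representatives of the vertices which occur in the cubes. -/
private def repV_ak : Set (Vtx D) :=
  Subtype.val ⁻¹' (((fun i : ℕ => ((i, 1) : ℕ × G)) '' Set.Iio D.m) ∪
    ⋃ i ∈ Set.Iio D.m, ((D.T i : Finset (ℕ × G)) : Set (ℕ × G)))

private theorem repV_fin_ak : (repV_ak D).Finite := by
  refine Set.Finite.preimage Subtype.val_injective.injOn ?_
  refine ((Set.finite_Iio _).image _).union ?_
  exact (Set.finite_Iio _).biUnion fun i _ => Finset.finite_toSet _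

private theorem list_fin_ak {α : Type} (F : Set α) (hF : F.Finite) (n : ℕ) :
    {l : List α | l.length = n ∧ ∀ v ∈ l, v ∈ F}.Finite := by
  have : Finite F := hF.to_subtype
  refine ((List.finite_length_eq F n).image (List.map Subtype.val)).subset ?_
  rintro l ⟨h1, h2⟩
  lift l to List F using h2
  exact ⟨l, by simpa using h1, rfl⟩

private theorem free_ak (q : D.Grp D.m) (x : RAAG (gr D)) (v : Vtx D) (h1 : act D q x = x)
    (h2 : vAct D (D.ret D.m q) v = v) : q = 1 := by
  have h3 : D.ret D.m q = 1 := by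
    have h4 : D.ret D.m q * v.1.2 = v.1.2 := congrArg (fun w : Vtx D => w.1.2) h2
    exact mul_eq_right.1 h4
  have h5 := act_eq D q
  rw [h3, map_one (D.ι D.m), mul_one] at h5
  have h6 : act D q 1 * x = x := by
    rw [← act_inv, ← h5, h1]
  have h7 : act D q 1 = 1 := mul_eq_right.1 h6
  rw [h5, h7, map_one]

private theorem fin_ak (hm : 0 < D.m) (n : ℕ) :
    ∃ S : Set (RAAG (gr D) × List (Vtx D)), S.Finite ∧ ∀ x l, IsClq (gr D) (col D) l →
      l.length = n + 1 → ht x ≤ 0 → 1 ≤ ht x + ((n + 1 : ℕ) : ℤ) →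
        ∃ q : (D.deg D.m).ker, (act D q.1 x, l.map (vAct D (D.ret D.m q.1))) ∈ S := by
  let v₀ : Vtx D := ⟨(0, 1), hm⟩
  refine ⟨(fun p : ℤ × List (Vtx D) => ((gen v₀ : RAAG (gr D)) ^ p.1, p.2)) ''
    (Set.Icc (-(n : ℤ)) 0 ×ˢ {l : List (Vtx D) | l.length = n + 1 ∧ ∀ v ∈ l, v ∈ repV_ak D}),
    ((Set.finite_Icc _ _).prod (list_fin_ak _ (repV_fin_ak D) _)).image _, ?_⟩
  intro x l hl hn h0 h1
  obtain ⟨u, l', rfl⟩ : ∃ u l', l = u :: l' := by
    cases l with
    | nil => exact absurd hn (by simp)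
    | cons u l' => exact ⟨u, l', rfl⟩
  have hgx : ht ((gen v₀ : RAAG (gr D)) ^ ht x * x⁻¹) = 0 := by
    rw [ht_mul, ht_inv_ak, ht_zpow_ak, ht_gen]
    ring
  let y : RAAG (gr D) := gen v₀ ^ ht x
  let a : D.Grp D.m := inv D (y * x⁻¹)
  let b : D.Grp D.m := inv D y * D.ι D.m (u.1.2)⁻¹ * (inv D y)⁻¹
  have hdeg : D.deg D.m (b * a) = 1 := by
    rw [map_mul, deg_inv_ak D _ hgx, deg_conj_ak, mul_one]
  have hret : D.ret D.m (b * a) = (u.1.2)⁻¹ := by
    rw [map_mul, ret_inv, mul_one, ret_conj_ak]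
  have hact : act D (b * a) x = y := by
    rw [map_mul, Equiv.Perm.mul_apply]
    change act D b (act D (inv D (y * x⁻¹)) x) = y
    rw [act_inv, inv_mul_cancel_right]
    exact act_conj_ak D y _
  refine ⟨⟨b * a, hdeg⟩, (ht x, (u :: l').map (vAct D (u.1.2)⁻¹)), ⟨⟨?_, h0⟩, ?_, ?_⟩, ?_⟩
  · push_cast at h1
    change -(n : ℤ) ≤ ht x
    linarith
  · rw [List.length_map, hn]
  · have hu : (vAct D (u.1.2)⁻¹ u).1 = (u.1.1, 1) := by
      change ((u.1.1, (u.1.2)⁻¹ * u.1.2) : ℕ × G) = _
      rw [inv_mul_cancel]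
    intro w hw
    rw [List.map_cons, List.mem_cons] at hw
    rcases hw with rfl | hw
    · refine Or.inl ⟨u.1.1, u.2, ?_⟩
      exact hu.symm
    · obtain ⟨w', hw', rfl⟩ := List.mem_map.1 hw
      have h2 : (gr D).Adj u w' ∧ col D w' < col D u := (List.pairwise_cons.1 hl).1 w' hw'
      have h3 := (vAct_adj D (u.1.2)⁻¹ u w').2 h2.1
      rw [SimpleGraph.comap_adj, hu] at h3
      have h4 := mem_T D u.1.1 _ h3 h2.2
      refine Or.inr ?_
      exact Set.mem_biUnion (x := u.1.1) u.2 h4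
  · change (y, (u :: l').map (vAct D (u.1.2)⁻¹)) = _
    rw [hact, hret]

/-- The kernel acts on the cubical complex. -/
noncomputable def cubeAct (hm : 0 < D.m) : CubeAct (D.deg D.m).ker (gr D) (col D) where
  P := (act D).comp (D.deg D.m).ker.subtype
  L := ((vAct D).comp (D.ret D.m)).comp (D.deg D.m).ker.subtype
  mul_gen := fun q x v => act_mul_gen D q.1 x v
  ht_eq := fun q x => by
    have h1 := ht_act D q.1 x
    have h2 : D.deg D.m q.1 = 1 := q.2
    rw [h2, toAdd_one, zero_add] at h1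
    exact h1
  adj := fun q a b => vAct_adj D (D.ret D.m q.1) a b
  col_eq := fun q v => vAct_col D (D.ret D.m q.1) v
  free := fun q x v h1 h2 => Subtype.ext (free_ak D q.1 x v h1 h2)
  fin := fun n => fin_ak D hm n

theorem fp_ker (h : Good D) : FP (D.deg D.m).ker := by
  obtain ⟨hm, hconn, -, ha⟩ := h
  have : Nonempty (Vtx D) := hconn.nonempty
  exact fp_of_cubeAct (cubeAct D hm) (col_ne D) D.m (fun v => v.2) ha

end Pool.Agent.H16.BV
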