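import Mathlib

/-!
The free product of a finitely presented group and a finitely generated free group is finitely
presented.

PROOF. `φ : FreeGroup (Fin n) → G` surjective with kernel the normal closure of a finite set `S`.
`FreeGroup (Fin n ⊕ E) → Coprod G (FreeGroup E)` is surjective; its kernel is the normal closure of
the image of `S`: the quotient of the free group by this normal closure has the universal property
(construct the inverse homomorphism with `Monoid.Coprod.lift`, the `G`-part by factoring through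
`φ`). `Group.IsFinitelyPresented.equiv` for the passage from `Fin n ⊕ E` to `Fin (n + card E)`.
-/

set_option autoImplicit false

namespace Pool.Agent.H16.BV

theorem coprod_fp (G : Type) [Group G] [Group.IsFinitelyPresented G] (E : Type) [Finite E] :
    Group.IsFinitelyPresented (Monoid.Coprod G (FreeGroup E)) := by
  obtain ⟨n, φ, hφ, S, hS, hSk⟩ := Group.IsFinitelyPresented.out (G := G)
  let Φ : FreeGroup (Fin n ⊕ E) →* Monoid.Coprod G (FreeGroup E) :=
    FreeGroup.lift (Sum.elim (fun i => Monoid.Coprod.inl (φ (FreeGroup.of i)))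
      (fun e => Monoid.Coprod.inr (FreeGroup.of e)))
  have h1 : ∀ w, Φ (FreeGroup.map Sum.inl w) = Monoid.Coprod.inl (φ w) := by
    intro w
    have h : Φ.comp (FreeGroup.map Sum.inl) = Monoid.Coprod.inl.comp φ := by
      ext i
      simp [Φ]
    exact DFunLike.congr_fun h w
  have h2 : ∀ w, Φ (FreeGroup.map Sum.inr w) = Monoid.Coprod.inr w := by
    intro w
    have h : Φ.comp (FreeGroup.map Sum.inr) = Monoid.Coprod.inr := by
      ext i
      simp [Φ]
    exact DFunLike.congr_fun h w
  have hsurj : Function.Surjective Φ := by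
    intro x
    induction x using Monoid.Coprod.induction_on with
    | inl g =>
      obtain ⟨w, rfl⟩ := hφ g
      exact ⟨_, h1 w⟩
    | inr w => exact ⟨_, h2 w⟩
    | mul x y hx hy =>
      obtain ⟨a, rfl⟩ := hx
      obtain ⟨b, rfl⟩ := hy
      exact ⟨a * b, map_mul _ _ _⟩
  refine Group.IsFinitelyPresented.of_surjective Φ hsurj
    ⟨FreeGroup.map Sum.inl '' S, hS.image _, ?_⟩
  set N := Subgroup.normalClosure (FreeGroup.map (Sum.inl : Fin n → Fin n ⊕ E) '' S) with hN
  refine le_antisymm ?_ ?_
  · refine Subgroup.normalClosure_le_normal ?_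
    rintro _ ⟨s, hs, rfl⟩
    rw [SetLike.mem_coe, MonoidHom.mem_ker, h1]
    have h : s ∈ φ.ker := by
      rw [← hSk]
      exact Subgroup.subset_normalClosure hs
    rw [MonoidHom.mem_ker.1 h, map_one]
  · intro x hx
    let g : FreeGroup (Fin n) →* FreeGroup (Fin n ⊕ E) ⧸ N :=
      (QuotientGroup.mk' N).comp (FreeGroup.map Sum.inl)
    have hg : φ.ker ≤ g.ker := by
      rw [← hSk]
      refine Subgroup.normalClosure_le_normal ?_
      intro s hs
      rw [SetLike.mem_coe, MonoidHom.mem_ker]
      exact (QuotientGroup.eq_one_iff _).2 (Subgroup.subset_normalClosure ⟨s, hs, rfl⟩)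
    let g' : G →* FreeGroup (Fin n ⊕ E) ⧸ N := φ.liftOfSurjective hφ ⟨g, hg⟩
    have hg' : ∀ w, g' (φ w) = g w := fun w =>
      MonoidHom.liftOfRightInverse_comp_apply φ _ (Function.rightInverse_surjInv hφ) ⟨g, hg⟩ w
    let Ψ : Monoid.Coprod G (FreeGroup E) →* FreeGroup (Fin n ⊕ E) ⧸ N :=
      Monoid.Coprod.lift g' ((QuotientGroup.mk' N).comp (FreeGroup.map Sum.inr))
    have hΨ : Ψ.comp Φ = QuotientGroup.mk' N := by
      refine FreeGroup.ext_hom _ _ fun v => ?_
      rcases v with i | e
      · simp [Ψ, Φ, hg', g]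
      · simp [Ψ, Φ]
    have h : (QuotientGroup.mk' N) x = 1 := by
      rw [← hΨ, MonoidHom.comp_apply, MonoidHom.mem_ker.1 hx, map_one]
    exact (QuotientGroup.eq_one_iff x).1 h

end Pool.Agent.H16.BV
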