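import Mathlib
import Pool.Agent.H16.BV.Defs

/-!
Functions `c : V → M` from the vertices of a simply connected complex to a group, for which the
`c u (c v)⁻¹` of the three edges of a triangle commute.

PROOF of `fwd`. For adjacent `u v` put `y u v = c v * (c u)⁻¹`. `y u v * y v u = 1`, and
`y u v * y v w = c v (c u)⁻¹ c w (c v)⁻¹`, which is `y u w = c w (c u)⁻¹` by `CC` (for `(v, w, u)`).
By `SC` (extend `y` by `1` outside, or just use the formula everywhere: `SC` only needs the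
conditions for adjacent vertices) there is `b` with `y u v = b u (b v)⁻¹`. Put `c' u = (b u)⁻¹`:
`(c' v)⁻¹ * c' u = b v (b u)⁻¹ = y v u = c u (c v)⁻¹`. `CC c'`: `c' u (c' w)⁻¹ c' v =
(b u)⁻¹ b w (b v)⁻¹` and `c' v (c' w)⁻¹ c' u = (b v)⁻¹ b w (b u)⁻¹` are equal iff
`b v (b u)⁻¹ * b w (b v)⁻¹ = b w (b u)⁻¹`, i.e. `(c u (c v)⁻¹) (c v (c w)⁻¹) = c u (c w)⁻¹`.
Equivariance (`fwdG`): `f'' g := c' (g • u) * f g * (c' u)⁻¹` does not depend on `u`: for adjacent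
`u v`: `(c' (g v))⁻¹ c' (g u) = c (g u) (c (g v))⁻¹ = f g * c u (c v)⁻¹ * (f g)⁻¹ =
f g (c' v)⁻¹ c' u (f g)⁻¹`; then connectedness. It is a homomorphism:
`f'' (g h) = c' (g h u) f g (c' (h u))⁻¹ * c' (h u) f h (c' u)⁻¹ = f'' g * f'' h`.
`bwd`, `bwdG`: the same with `x u v = (c v)⁻¹ * c u`: `x u v * x v w = (c v)⁻¹ c u (c w)⁻¹ c v`,
which is `(c w)⁻¹ c u = x u w` by `CC`. `x u v = b u (b v)⁻¹`, `c' = b`. `CC c'`: from the relations
`c' u (c' v)⁻¹ = (c v)⁻¹ c u`: `c' u (c' w)⁻¹ c' v = c' v (c' w)⁻¹ c' u` iff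
`(c' v)⁻¹... `: multiply on the right by `(c' u)⁻¹`: `c' u (c' w)⁻¹ * c' v (c' u)⁻¹ =
c' v (c' w)⁻¹`, i.e. `(c w)⁻¹ c u * (c u)⁻¹ c v = (c w)⁻¹ c v`. In `bwdG`
`f'' g := (c' (g • u))⁻¹ * f' g * c' u`.
-/

set_option autoImplicit false

namespace Pool.Agent.H16.BV

variable {V : Type} {Γ : SimpleGraph V} {M : Type} [Group M]

/-- The commutation condition on triangles. -/
def CC (Γ : SimpleGraph V) (c : V → M) : Prop :=
  ∀ u v w, Γ.Adj u v → Γ.Adj v w → Γ.Adj u w → c u * (c w)⁻¹ * c v = c v * (c w)⁻¹ * c u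

theorem fwd (hsc : SC Γ) {c : V → M} (hc : CC Γ c) :
    ∃ c' : V → M, CC Γ c' ∧ ∀ u v, Γ.Adj u v → (c' v)⁻¹ * c' u = c u * (c v)⁻¹ := by
  obtain ⟨b, hb⟩ := hsc M (fun u v => c v * (c u)⁻¹) (by
    intro u v _
    show c v * (c u)⁻¹ * (c u * (c v)⁻¹) = 1
    group) (by
    intro u v w huv hvw huw
    show c v * (c u)⁻¹ * (c w * (c v)⁻¹) = c w * (c u)⁻¹
    have h := hc v w u hvw huw.symm huv.symm
    rw [← mul_assoc, h]
    group)
  refine ⟨fun u => (b u)⁻¹, ?_, ?_⟩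
  · intro u v w huv hvw huw
    show (b u)⁻¹ * ((b w)⁻¹)⁻¹ * (b v)⁻¹ = (b v)⁻¹ * ((b w)⁻¹)⁻¹ * (b u)⁻¹
    have h1 : c v * (c u)⁻¹ = b u * (b v)⁻¹ := hb u v huv
    have h2 : c w * (c u)⁻¹ = b u * (b w)⁻¹ := hb u w huw
    have h3 := hc u v w huv hvw huw
    have e1 : b v = c u * (c v)⁻¹ * b u := by
      have : (c v * (c u)⁻¹)⁻¹ = (b u * (b v)⁻¹)⁻¹ := by rw [h1]
      have h4 : c u * (c v)⁻¹ = b v * (b u)⁻¹ := by
        rw [mul_inv_rev, mul_inv_rev, inv_inv, inv_inv] at this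
        exact this
      rw [h4]
      group
    have e2 : b w = c u * (c w)⁻¹ * b u := by
      have : (c w * (c u)⁻¹)⁻¹ = (b u * (b w)⁻¹)⁻¹ := by rw [h2]
      have h4 : c u * (c w)⁻¹ = b w * (b u)⁻¹ := by
        rw [mul_inv_rev, mul_inv_rev, inv_inv, inv_inv] at this
        exact this
      rw [h4]
      group
    rw [e1, e2, inv_inv]
    have e3 : (b u)⁻¹ * (c u * (c w)⁻¹ * b u) * (c u * (c v)⁻¹ * b u)⁻¹ =
        (b u)⁻¹ * (c u * (c w)⁻¹ * c v) * (c u)⁻¹ := by group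
    rw [e3, h3]
    group
  · intro u v huv
    show ((b v)⁻¹)⁻¹ * (b u)⁻¹ = c u * (c v)⁻¹
    rw [inv_inv]
    exact (hb v u huv.symm).symm

theorem bwd (hsc : SC Γ) {c : V → M} (hc : CC Γ c) :
    ∃ c' : V → M, CC Γ c' ∧ ∀ u v, Γ.Adj u v → c' u * (c' v)⁻¹ = (c v)⁻¹ * c u := by
  obtain ⟨b, hb⟩ := hsc M (fun u v => (c v)⁻¹ * c u) (by
    intro u v _
    show (c v)⁻¹ * c u * ((c u)⁻¹ * c v) = 1
    group) (by
    intro u v w huv hvw huw
    show (c v)⁻¹ * c u * ((c w)⁻¹ * c v) = (c w)⁻¹ * c u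
    have h := hc u v w huv hvw huw
    have e : (c v)⁻¹ * c u * ((c w)⁻¹ * c v) = (c v)⁻¹ * (c u * (c w)⁻¹ * c v) := by group
    rw [e, h]
    group)
  refine ⟨b, ?_, fun u v huv => (hb u v huv).symm⟩
  intro u v w huv hvw huw
  have h1 : (c v)⁻¹ * c u = b u * (b v)⁻¹ := hb u v huv
  have h2 : (c w)⁻¹ * c u = b u * (b w)⁻¹ := hb u w huw
  have h3 : (c w)⁻¹ * c v = b v * (b w)⁻¹ := hb v w hvw
  have h4 : c u * b v = c v * b u := by
    have : c v * ((c v)⁻¹ * c u) * b v = c v * (b u * (b v)⁻¹) * b v := by rw [h1]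
    calc c u * b v = c v * ((c v)⁻¹ * c u) * b v := by group
      _ = c v * (b u * (b v)⁻¹) * b v := this
      _ = c v * b u := by group
  rw [← h2, ← h3, mul_assoc, h4, mul_assoc]

omit [Group M] in
theorem const_of_adj (hconn : Γ.Connected) (F : V → M) (h : ∀ u v, Γ.Adj u v → F u = F v)
    (u v : V) : F u = F v := by
  obtain ⟨p⟩ := hconn.preconnected u v
  induction p with
  | nil => rfl
  | cons hadj _ ih => exact (h _ _ hadj).trans ih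

variable {G : Type} [Group G] (a : G →* Equiv.Perm V)

/-- A step of the construction, with values `c`, and homomorphisms `f`, `f'`. -/
def Eqv3 (a : G →* Equiv.Perm V) (c : V → M) (f f' : G →* M) : Prop :=
  ∀ g u, c (a g u) = f g * c u * (f' g)⁻¹

theorem fwdG (hsc : SC Γ) (hconn : Γ.Connected)
    (ha : ∀ g u v, Γ.Adj (a g u) (a g v) ↔ Γ.Adj u v) {c : V → M} (hc : CC Γ c) {f f' : G →* M}
    (h : Eqv3 a c f f') :
    ∃ (c' : V → M) (f'' : G →* M), CC Γ c' ∧ Eqv3 a c' f'' f ∧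
      ∀ u v, Γ.Adj u v → (c' v)⁻¹ * c' u = c u * (c v)⁻¹ := by
  obtain ⟨c', hc', hcc⟩ := fwd hsc hc
  obtain ⟨u0⟩ := hconn.nonempty
  have key : ∀ (g : G) (u : V),
      c' (a g u) * f g * (c' u)⁻¹ = c' (a g u0) * f g * (c' u0)⁻¹ := by
    intro g u
    refine const_of_adj hconn (fun u => c' (a g u) * f g * (c' u)⁻¹) ?_ u u0
    intro p q hpq
    show c' (a g p) * f g * (c' p)⁻¹ = c' (a g q) * f g * (c' q)⁻¹
    have h1 := hcc (a g p) (a g q) ((ha g p q).mpr hpq)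
    have h2 := hcc p q hpq
    rw [h g p, h g q] at h1
    have h3 : f g * c p * (f' g)⁻¹ * (f g * c q * (f' g)⁻¹)⁻¹ = f g * (c p * (c q)⁻¹) * (f g)⁻¹ := by
      group
    rw [h3, ← h2] at h1
    have h4 : c' (a g p) = c' (a g q) * (f g * ((c' q)⁻¹ * c' p) * (f g)⁻¹) := by
      rw [← h1]
      group
    rw [h4]
    group
  refine ⟨c', MonoidHom.mk' (fun g => c' (a g u0) * f g * (c' u0)⁻¹) ?_, hc', ?_, hcc⟩
  · intro g h'
    show c' (a (g * h') u0) * f (g * h') * (c' u0)⁻¹ =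
      c' (a g u0) * f g * (c' u0)⁻¹ * (c' (a h' u0) * f h' * (c' u0)⁻¹)
    rw [← key g (a h' u0), map_mul, map_mul, Equiv.Perm.mul_apply]
    group
  · intro g u
    show c' (a g u) = c' (a g u0) * f g * (c' u0)⁻¹ * c' u * (f g)⁻¹
    rw [← key g u]
    group

theorem bwdG (hsc : SC Γ) (hconn : Γ.Connected)
    (ha : ∀ g u v, Γ.Adj (a g u) (a g v) ↔ Γ.Adj u v) {c : V → M} (hc : CC Γ c) {f f' : G →* M}
    (h : Eqv3 a c f f') :
    ∃ (c' : V → M) (f'' : G →* M), CC Γ c' ∧ Eqv3 a c' f' f'' ∧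
      ∀ u v, Γ.Adj u v → (c v)⁻¹ * c u = c' u * (c' v)⁻¹ := by
  obtain ⟨c', hc', hcc⟩ := bwd hsc hc
  obtain ⟨u0⟩ := hconn.nonempty
  have key : ∀ (g : G) (u : V),
      (c' (a g u))⁻¹ * f' g * c' u = (c' (a g u0))⁻¹ * f' g * c' u0 := by
    intro g u
    refine const_of_adj hconn (fun u => (c' (a g u))⁻¹ * f' g * c' u) ?_ u u0
    intro p q hpq
    show (c' (a g p))⁻¹ * f' g * c' p = (c' (a g q))⁻¹ * f' g * c' q
    have h1 := hcc (a g q) (a g p) ((ha g q p).mpr hpq.symm)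
    have h2 := hcc q p hpq.symm
    rw [h g p, h g q] at h1
    have h3 : (f g * c p * (f' g)⁻¹)⁻¹ * (f g * c q * (f' g)⁻¹) = f' g * ((c p)⁻¹ * c q) * (f' g)⁻¹ := by
      group
    rw [h3, ← h2] at h1
    have h4 : (c' (a g p))⁻¹ = (c' (a g q))⁻¹ * (f' g * (c' q * (c' p)⁻¹) * (f' g)⁻¹) := by
      rw [← h1]
      group
    rw [h4]
    group
  refine ⟨c', MonoidHom.mk' (fun g => (c' (a g u0))⁻¹ * f' g * c' u0) ?_, hc', ?_,
    fun u v huv => (hcc u v huv).symm⟩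
  · intro g h'
    show (c' (a (g * h') u0))⁻¹ * f' (g * h') * c' u0 =
      (c' (a g u0))⁻¹ * f' g * c' u0 * ((c' (a h' u0))⁻¹ * f' h' * c' u0)
    rw [← key g (a h' u0), map_mul, map_mul, Equiv.Perm.mul_apply]
    group
  · intro g u
    show c' (a g u) = f' g * c' u * ((c' (a g u0))⁻¹ * f' g * c' u0)⁻¹
    rw [← key g u]
    group

end Pool.Agent.H16.BV
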