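import Mathlib
import Pool.Agent.H16.BV.Steps

/-!
The two-sided sequence obtained by iterating `fwdG` and `bwdG`.

PROOF. Iterate on the type of triples `(c, f, f')` with `CC Γ c` and `Eqv3 a c f f'`: a forward step
gives `(c', f'', f)`, a backward step gives `(c', f', f'')`. Choose two sequences indexed by `ℕ`
starting with `(c₀, f₀, f')` and put them together (`Int.rec` or `fun n => if 0 ≤ n ...`;
`f (-1) = f'`, `f (-k-1) =` the third component of the `k`-th backward triple, which is the second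
component of the next one).
-/

set_option autoImplicit false

namespace Pool.Agent.H16.BV

variable {V : Type} {Γ : SimpleGraph V} {M : Type} [Group M]

variable {G : Type} [Group G] (a : G →* Equiv.Perm V)

/-- The two-sided sequence. -/
theorem sequence (hsc : SC Γ) (hconn : Γ.Connected)
    (ha : ∀ g u v, Γ.Adj (a g u) (a g v) ↔ Γ.Adj u v) {c₀ : V → M} (hc : CC Γ c₀) {f₀ f' : G →* M}
    (h : Eqv3 a c₀ f₀ f') :
    ∃ (c : ℤ → V → M) (f : ℤ → G →* M), c 0 = c₀ ∧ f 0 = f₀ ∧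
      (∀ n, Eqv3 a (c n) (f n) (f (n - 1))) ∧
      ∀ n u v, Γ.Adj u v → (c (n + 1) v)⁻¹ * c (n + 1) u = c n u * (c n v)⁻¹ := by
  classical
  let T : Type := {t : (V → M) × (G →* M) × (G →* M) // CC Γ t.1 ∧ Eqv3 a t.1 t.2.1 t.2.2}
  let R : T → T → Prop := fun s s' => s'.1.2.2 = s.1.2.1 ∧
    ∀ u v, Γ.Adj u v → (s'.1.1 v)⁻¹ * s'.1.1 u = s.1.1 u * (s.1.1 v)⁻¹
  have hF : ∀ t : T, ∃ t' : T, R t t' := by
    rintro ⟨⟨c, f, g⟩, h1, h2⟩
    obtain ⟨c', f'', h3, h4, h5⟩ := fwdG a hsc hconn ha h1 h2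
    exact ⟨⟨(c', f'', f), h3, h4⟩, rfl, h5⟩
  have hB : ∀ t : T, ∃ t' : T, R t' t := by
    rintro ⟨⟨c, f, g⟩, h1, h2⟩
    obtain ⟨c', f'', h3, h4, h5⟩ := bwdG a hsc hconn ha h1 h2
    exact ⟨⟨(c', g, f''), h3, h4⟩, rfl, h5⟩
  choose F hFR using hF
  choose B hBR using hB
  let t₀ : T := ⟨(c₀, f₀, f'), hc, h⟩
  let t : ℤ → T := fun n => match n with
    | Int.ofNat k => F^[k] t₀
    | Int.negSucc k => B^[k + 1] t₀
  have ht : ∀ n : ℤ, R (t n) (t (n + 1)) := by
    intro n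
    match n with
    | Int.ofNat k =>
      have e : (Int.ofNat k + 1 : ℤ) = Int.ofNat (k + 1) := rfl
      rw [e]
      show R (F^[k] t₀) (F^[k + 1] t₀)
      rw [Function.iterate_succ_apply']
      exact hFR _
    | Int.negSucc 0 =>
      have e : (Int.negSucc 0 + 1 : ℤ) = Int.ofNat 0 := rfl
      rw [e]
      exact hBR t₀
    | Int.negSucc (k + 1) =>
      have e : (Int.negSucc (k + 1) + 1 : ℤ) = Int.negSucc k := rfl
      rw [e]
      show R (B^[k + 1 + 1] t₀) (B^[k + 1] t₀)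
      rw [Function.iterate_succ_apply' B (k + 1)]
      exact hBR _
  refine ⟨fun n => (t n).1.1, fun n => (t n).1.2.1, rfl, rfl, ?_, ?_⟩
  · intro n
    have h1 := (t n).2.2
    have h2 := (ht (n - 1)).1
    rw [sub_add_cancel] at h2
    show Eqv3 a (t n).1.1 (t n).1.2.1 (t (n - 1)).1.2.1
    rw [← h2]
    exact h1
  · intro n u v huv
    exact (ht n).2 u v huv

end Pool.Agent.H16.BV
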