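import Mathlib
import Pool.Agent.H16.BV.Seq
import Pool.Agent.H16.BV.ActA

/-!
Homomorphisms from the kernel of `deg`.

Let `x` be a function on the pairs of adjacent vertices with values in a group `M` such that
`x u v * x v u = 1`, `x u v * x v w = x u w = x v w * x u v` for triangles, and
`x (g u) (g v) = f g * x u v * (f g)⁻¹`.

PROOF of `exists_hom`. By `SC` there is `c₀` with `x u v = c₀ u * (c₀ v)⁻¹`; `CC c₀` holds by
`x v w * x u v = x u w`. `f' g := (c₀ (g u))⁻¹ * f g * c₀ u` does not depend on `u` (adjacent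
vertices, connectedness) and is a homomorphism, `Eqv3 c₀ f f'`. Take the `sequence`, and define
`Φ : D.Grp D.m →* RegularWreathProduct M (Multiplicative ℤ)` by `D.lift`: `g ↦ ⟨n ↦ f n g, 1⟩`,
`v i ↦ ⟨n ↦ c n (i, 1), ofAdd 1⟩` for `i < D.m`, `1` for `i ≥ D.m`
(for `n : Multiplicative ℤ` use `Multiplicative.toAdd n`). The product is
`left (a b) n = left a n * left b ((right a)⁻¹ n)`, so `g v_j g⁻¹` goes to
`⟨n ↦ f n g * c n (j, 1) * (f (n - 1) g)⁻¹ = c n (j, g), ofAdd 1⟩`, and the relation for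
`(j, g) ∈ D.T i` is `c n u * c (n - 1) w = c n w * c (n - 1) u` for the adjacent vertices
`u = (i, 1)`, `w = (j, g)`, which is the last property of `sequence` at `n - 1`.
`right ∘ Φ = deg` (`D.hom_ext`). So `h q = left (Φ q) 1` is a homomorphism on the kernel,
`h (ι g) = f 0 g = f g`, and `h (cj u * (cj v)⁻¹) = c 0 u * (c 0 v)⁻¹ = x u v`.
-/

set_option autoImplicit false

namespace Pool.Agent.H16.BV

open Function Pool.Agent.H16.BB

variable {G : Type} [Group G] (D : Datum G)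

/-- `G` in the kernel. -/
def kι : G →* (D.deg D.m).ker :=
  (D.ι D.m).codRestrict _ fun g => by rw [MonoidHom.mem_ker, Datum.deg_ι]

/-- The elements `cj u * (cj v)⁻¹` of the kernel. -/
def ke (u v : Vtx D) : (D.deg D.m).ker :=
  ⟨D.cj D.m u.1 * (D.cj D.m v.1)⁻¹, by
    rw [MonoidHom.mem_ker, map_mul, map_inv, Datum.deg_cj D _ u.2, Datum.deg_cj D _ v.2,
      mul_inv_cancel]⟩

private theorem adj_of_mem {i : ℕ} (hi : i < D.m) {p : ℕ × G} (hp : p ∈ D.T i)
    (hpm : p.1 < D.m) : (gr D).Adj (⟨(i, 1), hi⟩ : Vtx D) ⟨(p.1, p.2), hpm⟩ := by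
  have hlt : p.1 < i := D.lt i p hp
  rw [SimpleGraph.comap_adj, Datum.edges, SimpleGraph.fromRel_adj]
  refine ⟨fun e => ?_, Or.inr ?_⟩
  · have h2 : i = p.1 := congrArg Prod.fst e
    omega
  · change (p.1, (1 : G)⁻¹ * p.2) ∈ D.T i
    rw [inv_one, one_mul]
    exact hp

theorem exists_hom (hsc : SC (gr D)) (hconn : (gr D).Connected) (M : Type) [Group M]
    (f : G →* M) (x : Vtx D → Vtx D → M) (h1 : ∀ u v, (gr D).Adj u v → x u v * x v u = 1)
    (h2 : ∀ u v w, (gr D).Adj u v → (gr D).Adj v w → (gr D).Adj u w → x u v * x v w = x u w)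
    (h3 : ∀ u v w, (gr D).Adj u v → (gr D).Adj v w → (gr D).Adj u w → x v w * x u v = x u w)
    (h4 : ∀ g u v, (gr D).Adj u v → x (vAct D g u) (vAct D g v) = f g * x u v * (f g)⁻¹) :
    ∃ h : (D.deg D.m).ker →* M, h.comp (kι D) = f ∧
      ∀ u v, (gr D).Adj u v → h (ke D u v) = x u v := by
  classical
  obtain ⟨c₀, hc₀⟩ := hsc M x h1 h2
  have hCC : CC (gr D) c₀ := by
    intro u v w huv hvw huw
    have h5 := h3 u v w huv hvw huw
    rw [hc₀ v w hvw, hc₀ u v huv, hc₀ u w huw] at h5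
    have h6 : c₀ u * (c₀ w)⁻¹ * c₀ v = (c₀ v * (c₀ w)⁻¹ * (c₀ u * (c₀ v)⁻¹)) * c₀ v := by rw [h5]
    rw [h6]
    group
  obtain ⟨u0⟩ := hconn.nonempty
  have key : ∀ (g : G) (u : Vtx D),
      (c₀ (vAct D g u))⁻¹ * f g * c₀ u = (c₀ (vAct D g u0))⁻¹ * f g * c₀ u0 := by
    intro g u
    refine const_of_adj hconn (fun u => (c₀ (vAct D g u))⁻¹ * f g * c₀ u) ?_ u u0
    intro p q hpq
    show (c₀ (vAct D g p))⁻¹ * f g * c₀ p = (c₀ (vAct D g q))⁻¹ * f g * c₀ q
    have h5 := h4 g p q hpq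
    rw [hc₀ p q hpq, hc₀ _ _ ((vAct_adj D g p q).2 hpq)] at h5
    have h6 : (c₀ (vAct D g q))⁻¹ =
        (c₀ (vAct D g p))⁻¹ * (c₀ (vAct D g p) * (c₀ (vAct D g q))⁻¹) := by group
    rw [h6, h5]
    group
  let f' : G →* M := MonoidHom.mk' (fun g => (c₀ (vAct D g u0))⁻¹ * f g * c₀ u0) (by
    intro g h
    show (c₀ (vAct D (g * h) u0))⁻¹ * f (g * h) * c₀ u0 =
      (c₀ (vAct D g u0))⁻¹ * f g * c₀ u0 * ((c₀ (vAct D h u0))⁻¹ * f h * c₀ u0)
    rw [← key g (vAct D h u0), map_mul, map_mul, Equiv.Perm.mul_apply]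
    group)
  have hE : Eqv3 (vAct D) c₀ f f' := by
    intro g u
    show c₀ (vAct D g u) = f g * c₀ u * ((c₀ (vAct D g u0))⁻¹ * f g * c₀ u0)⁻¹
    rw [← key g u]
    group
  obtain ⟨c, F, hc0, hF0, hEq, hst⟩ := sequence (vAct D) hsc hconn (fun g u v => vAct_adj D g u v)
    hCC hE
  let FG : G →* RegularWreathProduct M (Multiplicative ℤ) :=
    { toFun := fun g => ⟨fun n => F (Multiplicative.toAdd n) g, 1⟩
      map_one' := by
        refine RegularWreathProduct.ext ?_ rfl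
        funext n
        exact map_one _
      map_mul' := by
        intro a b
        refine RegularWreathProduct.ext ?_ ?_
        · funext n
          show F (Multiplicative.toAdd n) (a * b) = F (Multiplicative.toAdd n) a *
            F (Multiplicative.toAdd ((1 : Multiplicative ℤ)⁻¹ * n)) b
          rw [map_mul, inv_one, one_mul]
        · show (1 : Multiplicative ℤ) = 1 * 1
          rw [one_mul] }
  let X : ℕ → RegularWreathProduct M (Multiplicative ℤ) := fun i =>
    if h : i < D.m then ⟨fun n => c (Multiplicative.toAdd n) ⟨(i, 1), h⟩, Multiplicative.ofAdd 1⟩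
    else 1
  have hX1 : ∀ i (h : i < D.m), X i =
      ⟨fun n => c (Multiplicative.toAdd n) ⟨(i, 1), h⟩, Multiplicative.ofAdd 1⟩ :=
    fun i h => dif_pos h
  have hX2 : ∀ i, D.m ≤ i → X i = 1 := fun i h => dif_neg (not_lt.2 h)
  have htoadd : ∀ n : Multiplicative ℤ,
      Multiplicative.toAdd ((Multiplicative.ofAdd (1 : ℤ))⁻¹ * n) = Multiplicative.toAdd n - 1 := by
    intro n
    rw [toAdd_mul, toAdd_inv, toAdd_ofAdd]
    ring
  have hconj : ∀ (p : ℕ × G) (h : p.1 < D.m), FG p.2 * X p.1 * (FG p.2)⁻¹ =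
      ⟨fun n => c (Multiplicative.toAdd n) ⟨p, h⟩, Multiplicative.ofAdd 1⟩ := by
    intro p h
    rw [hX1 p.1 h]
    refine RegularWreathProduct.ext ?_ ?_
    · funext n
      show F (Multiplicative.toAdd n) p.2 *
          c (Multiplicative.toAdd ((1 : Multiplicative ℤ)⁻¹ * n)) ⟨(p.1, 1), h⟩ *
          (F (Multiplicative.toAdd ((1 : Multiplicative ℤ) *
            (((1 : Multiplicative ℤ) * Multiplicative.ofAdd 1)⁻¹ * n))) p.2)⁻¹ =
        c (Multiplicative.toAdd n) ⟨p, h⟩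
      rw [inv_one, one_mul, one_mul, one_mul, htoadd]
      have h5 := hEq (Multiplicative.toAdd n) p.2 ⟨(p.1, 1), h⟩
      rw [← h5]
      congr 1
      apply Subtype.ext
      change (p.1, p.2 * 1) = p
      rw [mul_one]
    · show (1 : Multiplicative ℤ) * Multiplicative.ofAdd 1 * (1 : Multiplicative ℤ)⁻¹ =
        Multiplicative.ofAdd 1
      rw [one_mul, inv_one, mul_one]
  let Φ : D.Grp D.m →* RegularWreathProduct M (Multiplicative ℤ) :=
    D.lift D.m FG X (by
      intro i p hp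
      rcases lt_or_ge i D.m with hi | hi
      · have hpi : p.1 < i := D.lt i p hp
        have hpm : p.1 < D.m := hpi.trans hi
        rw [hconj p hpm, hX1 i hi]
        have hadj := adj_of_mem D hi hp hpm
        refine RegularWreathProduct.ext ?_ rfl
        funext n
        show c (Multiplicative.toAdd n) ⟨(i, 1), hi⟩ *
            c (Multiplicative.toAdd ((Multiplicative.ofAdd (1 : ℤ))⁻¹ * n)) ⟨p, hpm⟩ =
          c (Multiplicative.toAdd n) ⟨p, hpm⟩ *
            c (Multiplicative.toAdd ((Multiplicative.ofAdd (1 : ℤ))⁻¹ * n)) ⟨(i, 1), hi⟩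
        rw [htoadd]
        have h5 := hst (Multiplicative.toAdd n - 1) _ _ hadj
        rw [sub_add_cancel] at h5
        have h6 : c (Multiplicative.toAdd n) ⟨(i, 1), hi⟩ = c (Multiplicative.toAdd n) ⟨p, hpm⟩ *
            ((c (Multiplicative.toAdd n) ⟨(p.1, p.2), hpm⟩)⁻¹ *
              c (Multiplicative.toAdd n) ⟨(i, 1), hi⟩) := by
          group
        rw [h6, h5]
        group
      · rw [hX2 i hi]
        exact Commute.one_left _) hX2
  have hΦι : ∀ g, Φ (D.ι D.m g) = FG g := fun g => D.lift_ι g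
  have hΦcj : ∀ u : Vtx D, Φ (D.cj D.m u.1) =
      ⟨fun n => c (Multiplicative.toAdd n) u, Multiplicative.ofAdd 1⟩ := by
    intro u
    have h5 : Φ (D.cj D.m u.1) = FG u.1.2 * X u.1.1 * (FG u.1.2)⁻¹ := D.lift_cj u.1
    rw [h5, hconj u.1 u.2]
  have hright : ∀ a, (Φ a).right = D.deg D.m a := by
    have h5 : (RegularWreathProduct.rightHom :
        RegularWreathProduct M (Multiplicative ℤ) →* Multiplicative ℤ).comp Φ = D.deg D.m := by
      apply D.hom_ext
      · intro g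
        rw [Datum.deg_ι]
        show (Φ (D.ι D.m g)).right = 1
        rw [hΦι]
        rfl
      · intro i hi
        rw [Datum.deg_v D _ hi]
        show (Φ (D.v D.m i)).right = _
        have h6 : Φ (D.v D.m i) = X i := D.lift_v i
        rw [h6, hX1 i hi]
    intro a
    exact DFunLike.congr_fun h5 a
  refine ⟨MonoidHom.mk' (fun q => (Φ q.1).left 1) ?_, ?_, ?_⟩
  · intro a b
    have h5 : (Φ a.1).right = 1 := by
      rw [hright]
      exact (MonoidHom.mem_ker).1 a.2
    show (Φ (a.1 * b.1)).left 1 = (Φ a.1).left 1 * (Φ b.1).left 1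
    rw [map_mul]
    show (Φ a.1).left 1 * (Φ b.1).left ((Φ a.1).right⁻¹ * 1) = _
    rw [h5, inv_one, one_mul]
  · ext g
    show (Φ (D.ι D.m g)).left 1 = f g
    rw [hΦι]
    show F (Multiplicative.toAdd (1 : Multiplicative ℤ)) g = f g
    rw [toAdd_one, hF0]
  · intro u v huv
    show (Φ (D.cj D.m u.1 * (D.cj D.m v.1)⁻¹)).left 1 = x u v
    rw [map_mul, map_inv, hΦcj, hΦcj]
    show c (Multiplicative.toAdd (1 : Multiplicative ℤ)) u *
      (c (Multiplicative.toAdd (Multiplicative.ofAdd (1 : ℤ) *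
        ((Multiplicative.ofAdd (1 : ℤ))⁻¹ * 1))) v)⁻¹ = x u v
    rw [mul_inv_cancel_left, toAdd_one, hc0, hc₀ u v huv]

end Pool.Agent.H16.BV
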