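import Mathlib
import Pool.Agent.H16.BV.Hom

/-!
Generators of the kernel of `deg`.

PROOF. Let `N` be the subgroup of `D.Grp D.m` generated by `ι G` and all `cj u * (cj v)⁻¹`, `u v`
adjacent. By connectedness `cj u * (cj v)⁻¹ ∈ N` for all `u v`; as adjacent `cj u`, `cj v` commute,
`(cj v)⁻¹ * cj u ∈ N` for adjacent, hence for all `u v`. Let `t = cj v₀`, `v₀ = (0, 1)`.
`t N t⁻¹ ⊆ N` and `t⁻¹ N t ⊆ N`, on generators: `t ι g t⁻¹ = t * (cj (g v₀))⁻¹ * ι g`,
`t⁻¹ ι g t = ι g * (cj (g⁻¹ v₀))⁻¹ * t`, `t (cj u (cj v)⁻¹) t⁻¹ = t (cj v)⁻¹ cj u t⁻¹` (commute)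
`= (t (cj v)⁻¹) (cj u t⁻¹)`, and `t⁻¹ (cj u (cj v)⁻¹) t = (t⁻¹ cj u) ((cj v)⁻¹ t)`.
So the set of all `a` with `a * t ^ (-deg a) ∈ N` is a subgroup which contains `ι g` and `v i`
(`v i * t⁻¹ = cj (i, 1) * (cj v₀)⁻¹`), it is everything, and for `deg a = 1` it says `a ∈ N`.
-/

set_option autoImplicit false

namespace Pool.Agent.H16.BV

open Function Pool.Agent.H16.BB

variable {G : Type} [Group G] (D : Datum G)

private theorem walk_left {V M : Type} [Group M] {Γ : SimpleGraph V} (hconn : Γ.Connected)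
    (N : Subgroup M) (x : V → M) (h : ∀ u v, Γ.Adj u v → x u * (x v)⁻¹ ∈ N) (u v : V) :
    x u * (x v)⁻¹ ∈ N := by
  obtain ⟨p⟩ := hconn.preconnected u v
  induction p with
  | nil =>
    rw [mul_inv_cancel]
    exact N.one_mem
  | cons hadj _ ih =>
    have h1 := N.mul_mem (h _ _ hadj) ih
    have e : ∀ a b c : M, a * b⁻¹ * (b * c⁻¹) = a * c⁻¹ := by intro a b c; group
    rw [e] at h1
    exact h1

private theorem walk_right {V M : Type} [Group M] {Γ : SimpleGraph V} (hconn : Γ.Connected)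
    (N : Subgroup M) (x : V → M) (h : ∀ u v, Γ.Adj u v → (x u)⁻¹ * x v ∈ N) (u v : V) :
    (x u)⁻¹ * x v ∈ N := by
  have h1 := walk_left hconn N (fun w => (x w)⁻¹) (fun a b hab => by
    show (x a)⁻¹ * ((x b)⁻¹)⁻¹ ∈ N
    rw [inv_inv]
    exact h a b hab) u v
  have h2 : (x u)⁻¹ * ((x v)⁻¹)⁻¹ ∈ N := h1
  rwa [inv_inv] at h2

theorem ker_gen (hm : 0 < D.m) (hconn : (gr D).Connected) (N : Subgroup (D.deg D.m).ker)
    (h1 : ∀ g, kι D g ∈ N) (h2 : ∀ u v, (gr D).Adj u v → ke D u v ∈ N) : N = ⊤ := by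
  classical
  let x : Vtx D → D.Grp D.m := fun u => D.cj D.m u.1
  let v₀ : Vtx D := ⟨(0, 1), hm⟩
  let t : D.Grp D.m := x v₀
  let S : Set (D.Grp D.m) :=
    {a | (∃ g, a = D.ι D.m g) ∨ ∃ u v, (gr D).Adj u v ∧ a = x u * (x v)⁻¹}
  let N0 : Subgroup (D.Grp D.m) := Subgroup.closure S
  have hι : ∀ g, D.ι D.m g ∈ N0 := fun g => Subgroup.subset_closure (Or.inl ⟨g, rfl⟩)
  have hA : ∀ u v, x u * (x v)⁻¹ ∈ N0 := by
    refine walk_left hconn N0 x ?_
    intro u v huv
    exact Subgroup.subset_closure (Or.inr ⟨u, v, huv, rfl⟩)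
  have hcomm : ∀ u v, (gr D).Adj u v → Commute (x u) (x v) := fun u v huv => D.cj_comm huv
  have hB : ∀ u v, (x u)⁻¹ * x v ∈ N0 := by
    refine walk_right hconn N0 x ?_
    intro u v huv
    have h3 : (x u)⁻¹ * x v = x v * (x u)⁻¹ := (hcomm u v huv).inv_left.eq
    rw [h3]
    exact hA v u
  have ht : t = D.v D.m 0 := by
    show D.ι D.m 1 * D.v D.m 0 * (D.ι D.m 1)⁻¹ = _
    rw [map_one, one_mul, inv_one, mul_one]
  have hcj : ∀ g : G, x ⟨(0, g), hm⟩ = D.ι D.m g * t * (D.ι D.m g)⁻¹ := by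
    intro g
    rw [ht]
    rfl
  have htN : ∀ a ∈ N0, t * a * t⁻¹ ∈ N0 ∧ t⁻¹ * a * t ∈ N0 := by
    intro a ha
    induction ha using Subgroup.closure_induction with
    | mem a ha =>
      rcases ha with ⟨g, rfl⟩ | ⟨u, v, huv, rfl⟩
      · constructor
        · have h3 := N0.mul_mem (hA v₀ ⟨(0, g), hm⟩) (hι g)
          have e : x v₀ * (x ⟨(0, g), hm⟩)⁻¹ * D.ι D.m g = t * D.ι D.m g * t⁻¹ := by
            rw [hcj g]
            show t * _ * _ = _
            group
          rw [← e]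
          exact h3
        · have h3 := N0.mul_mem (hι g) (hB ⟨(0, g⁻¹), hm⟩ v₀)
          have e : D.ι D.m g * ((x ⟨(0, g⁻¹), hm⟩)⁻¹ * x v₀) = t⁻¹ * D.ι D.m g * t := by
            rw [hcj g⁻¹, map_inv]
            show _ * (_ * t) = _
            group
          rw [← e]
          exact h3
      · constructor
        · have h3 := N0.mul_mem (hA v₀ v) (hA u v₀)
          have h4 : x u * (x v)⁻¹ = (x v)⁻¹ * x u := ((hcomm u v huv).inv_right).eq
          have e : x v₀ * (x v)⁻¹ * (x u * (x v₀)⁻¹) = t * (x u * (x v)⁻¹) * t⁻¹ := by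
            rw [h4]
            show t * _ * (_ * t⁻¹) = _
            group
          rw [← e]
          exact h3
        · have h3 := N0.mul_mem (hB v₀ u) (hB v v₀)
          have e : (x v₀)⁻¹ * x u * ((x v)⁻¹ * x v₀) = t⁻¹ * (x u * (x v)⁻¹) * t := by
            show t⁻¹ * _ * (_ * t) = _
            group
          rw [← e]
          exact h3
    | one =>
      constructor
      · rw [mul_one, mul_inv_cancel]; exact N0.one_mem
      · rw [mul_one, inv_mul_cancel]; exact N0.one_mem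
    | mul a b _ _ iha ihb =>
      constructor
      · have h3 := N0.mul_mem iha.1 ihb.1
        have e : t * a * t⁻¹ * (t * b * t⁻¹) = t * (a * b) * t⁻¹ := by group
        rwa [e] at h3
      · have h3 := N0.mul_mem iha.2 ihb.2
        have e : t⁻¹ * a * t * (t⁻¹ * b * t) = t⁻¹ * (a * b) * t := by group
        rwa [e] at h3
    | inv a _ iha =>
      constructor
      · have h3 := N0.inv_mem iha.1
        have e : (t * a * t⁻¹)⁻¹ = t * a⁻¹ * t⁻¹ := by group
        rwa [e] at h3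
      · have h3 := N0.inv_mem iha.2
        have e : (t⁻¹ * a * t)⁻¹ = t⁻¹ * a⁻¹ * t := by group
        rwa [e] at h3
  let R : Subgroup (D.Grp D.m) :=
    { carrier := {g | ∀ a ∈ N0, g * a * g⁻¹ ∈ N0 ∧ g⁻¹ * a * g ∈ N0}
      mul_mem' := by
        intro g h hg hh a ha
        constructor
        · have h3 := (hg _ (hh a ha).1).1
          have e : g * (h * a * h⁻¹) * g⁻¹ = g * h * a * (g * h)⁻¹ := by group
          rwa [e] at h3
        · have h3 := (hh _ (hg a ha).2).2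
          have e : h⁻¹ * (g⁻¹ * a * g) * h = (g * h)⁻¹ * a * (g * h) := by group
          rwa [e] at h3
      one_mem' := by
        intro a ha
        constructor
        · rw [one_mul, inv_one, mul_one]; exact ha
        · rw [inv_one, one_mul, mul_one]; exact ha
      inv_mem' := by
        intro g hg a ha
        rw [inv_inv]
        exact ⟨(hg a ha).2, (hg a ha).1⟩ }
  have hle : ∀ g ∈ N0, g ∈ R := by
    intro g hg a ha
    exact ⟨N0.mul_mem (N0.mul_mem hg ha) (N0.inv_mem hg),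
      N0.mul_mem (N0.mul_mem (N0.inv_mem hg) ha) hg⟩
  have htR : t ∈ R := htN
  have hv : ∀ i (hi : i < D.m), D.v D.m i * t⁻¹ ∈ N0 := by
    intro i hi
    have h3 := hA ⟨(i, 1), hi⟩ v₀
    have e : x ⟨(i, 1), hi⟩ = D.v D.m i := by
      show D.ι D.m 1 * D.v D.m i * (D.ι D.m 1)⁻¹ = _
      rw [map_one, one_mul, inv_one, mul_one]
    rw [e] at h3
    exact h3
  have hR : R = ⊤ := by
    apply closure_eq
    · intro g
      exact hle _ (hι g)
    · intro i hi
      have h3 := R.mul_mem (hle _ (hv i hi)) htR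
      rwa [inv_mul_cancel_right] at h3
  have hnormal : N0.Normal := by
    refine ⟨fun a ha g => ?_⟩
    have hg : g ∈ R := by rw [hR]; exact Subgroup.mem_top g
    exact (hg a ha).1
  have hπ : QuotientGroup.mk' N0 =
      (zpowersHom (D.Grp D.m ⧸ N0) (QuotientGroup.mk' N0 t)).comp (D.deg D.m) := by
    apply D.hom_ext
    · intro g
      rw [MonoidHom.comp_apply, Datum.deg_ι, map_one]
      exact (QuotientGroup.eq_one_iff _).2 (hι g)
    · intro i hi
      rw [MonoidHom.comp_apply, Datum.deg_v D _ hi, zpowersHom_apply, toAdd_ofAdd, zpow_one]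
      have h3 : QuotientGroup.mk' N0 (D.v D.m i * t⁻¹) = 1 :=
        (QuotientGroup.eq_one_iff _).2 (hv i hi)
      rw [map_mul, map_inv, mul_inv_eq_one] at h3
      exact h3
  have hK : ∀ a, D.deg D.m a = 1 → a ∈ N0 := by
    intro a ha
    have h3 : QuotientGroup.mk' N0 a = 1 := by
      rw [hπ, MonoidHom.comp_apply, ha, map_one]
    exact (QuotientGroup.eq_one_iff _).1 h3
  have hN : N0 ≤ N.map (D.deg D.m).ker.subtype := by
    rw [Subgroup.closure_le]
    rintro a (⟨g, rfl⟩ | ⟨u, v, huv, rfl⟩)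
    · exact ⟨kι D g, h1 g, rfl⟩
    · exact ⟨ke D u v, h2 u v huv, rfl⟩
  rw [eq_top_iff]
  rintro ⟨a, ha⟩ -
  obtain ⟨b, hb, hba⟩ := hN (hK a ((MonoidHom.mem_ker).1 ha))
  have h3 : b = ⟨a, ha⟩ := Subtype.ext hba
  rw [← h3]
  exact hb

end Pool.Agent.H16.BV
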