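import Mathlib
import Pool.Agent.H16.BV.Gen
import Pool.Agent.H16.BV.CoprodFP

/-!
The kernel of `deg` is finitely presented.

PROOF. Let `E = {(i, p) | i < D.m, p ∈ D.T i}`, a finite type (`edge (i, p)` stands for
`ke (i, 1) p`), and `C = Monoid.Coprod G (FreeGroup E)`. For adjacent vertices `u`, `w` of `gr D` let
`X u w : C` be `g * e (i, g⁻¹ w) * g⁻¹` if `u = (i, g)` and `col w < col u` (then
`(w.1, g⁻¹ w.2) ∈ D.T i`), and `(X w u)⁻¹` if `col u < col w` (put `X u w = 1` if not adjacent).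
`X (g u) (g w) = g X u w g⁻¹` in `C`. Relators (finite set): for `i < D.m`, `p, q ∈ D.T i`,
`p` and `q` adjacent, `u = (i, 1)`: `X u p * X p q * (X u q)⁻¹` and `X p q * X u p * (X u q)⁻¹`.
Let `M` be the quotient of `C` by their normal closure, finitely presented by `coprod_fp` and
`Group.IsFinitelyPresented.quotient`. In `M` the elements `x u w` (images of `X u w`) satisfy the
hypotheses of `exists_hom`: for a triangle, by equivariance one may move the vertex of the largest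
colour to `(i, 1)`; the two relators for `(p, q)` (with `X p q = (X q p)⁻¹`) give the relations
`x u p x p q = x u q = x p q x u p` for both orders of `p`, `q`, and these imply the relations for
all orders of the three vertices. So there is `h : ker →* M` with `h (kι g) = g`,
`h (ke u v) = x u v`. Conversely `M →* ker`, `g ↦ kι g`, `e (i, p) ↦ ke (i, 1) p`, is well defined
(`X u w ↦ ke u w` by `kι g * ke u w * (kι g)⁻¹ = ke (g u) (g w)`; the relators go to 1 since
`ke u p * ke p q = ke u q` and adjacent `cj` commute). The composition `M → ker → M` is the identity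
on generators, so `M → ker` is injective; it is surjective by `ker_gen`. Use
`Group.IsFinitelyPresented.equiv`.
-/

set_option autoImplicit false

namespace Pool.Agent.H16.BV

open Function Pool.Agent.H16.BB

variable {G : Type} [Group G] (D : Datum G)

private abbrev EPr : Type := Σ i : Fin D.m, {p : ℕ × G // p ∈ D.T i.1}

private abbrev CPr : Type := Monoid.Coprod G (FreeGroup (EPr D))

private def basePr (i : Fin D.m) : Vtx D := ⟨(i.1, 1), i.2⟩

private def vtPr (i : Fin D.m) (p : {p : ℕ × G // p ∈ D.T i.1}) : Vtx D :=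
  ⟨p.1, (D.lt i.1 p.1 p.2).trans i.2⟩

open Classical in
private noncomputable def edPr (i : ℕ) (p : ℕ × G) : CPr D :=
  if h : i < D.m ∧ p ∈ D.T i then
    Monoid.Coprod.inr (FreeGroup.of (⟨⟨i, h.1⟩, ⟨p, h.2⟩⟩ : EPr D)) else 1

private noncomputable def YPr (u w : Vtx D) : CPr D :=
  Monoid.Coprod.inl u.1.2 * edPr D u.1.1 (w.1.1, u.1.2⁻¹ * w.1.2) * (Monoid.Coprod.inl u.1.2)⁻¹

private noncomputable def XPr (u w : Vtx D) : CPr D := YPr D u w * (YPr D w u)⁻¹

private theorem adj_iff (p q : Vtx D) : (gr D).Adj p q ↔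
    ((p.1.1, q.1.2⁻¹ * p.1.2) ∈ D.T q.1.1 ∨ (q.1.1, p.1.2⁻¹ * q.1.2) ∈ D.T p.1.1) := by
  rw [SimpleGraph.comap_adj, Datum.edges, SimpleGraph.fromRel_adj]
  constructor
  · exact fun h => h.2
  · intro h
    refine ⟨fun e => ?_, h⟩
    rcases h with h | h
    · have h0 := D.lt _ _ h
      have h1 : p.1.1 < q.1.1 := h0
      have h2 : p.1.1 = q.1.1 := congrArg Prod.fst e
      omega
    · have h0 := D.lt _ _ h
      have h1 : q.1.1 < p.1.1 := h0
      have h2 : p.1.1 = q.1.1 := congrArg Prod.fst e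
      omega

private theorem YPr_act (g : G) (u w : Vtx D) : YPr D (vAct D g u) (vAct D g w) =
    Monoid.Coprod.inl g * YPr D u w * (Monoid.Coprod.inl g)⁻¹ := by
  have e1 : ((vAct D g u).1.2)⁻¹ * (vAct D g w).1.2 = u.1.2⁻¹ * w.1.2 := by
    change (g * u.1.2)⁻¹ * (g * w.1.2) = _
    group
  have e2 : (vAct D g u).1.2 = g * u.1.2 := rfl
  have e3 : (vAct D g u).1.1 = u.1.1 := rfl
  have e4 : (vAct D g w).1.1 = w.1.1 := rfl
  unfold YPr
  rw [e1, e2, e3, e4, map_mul]
  group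

private theorem XPr_act (g : G) (u w : Vtx D) : XPr D (vAct D g u) (vAct D g w) =
    Monoid.Coprod.inl g * XPr D u w * (Monoid.Coprod.inl g)⁻¹ := by
  unfold XPr
  rw [YPr_act, YPr_act]
  group

private theorem XPr_mul (u w : Vtx D) : XPr D u w * XPr D w u = 1 := by
  unfold XPr
  group

private theorem ed_pos (i : Fin D.m) (p : {p : ℕ × G // p ∈ D.T i.1}) :
    edPr D i.1 p.1 = Monoid.Coprod.inr (FreeGroup.of (⟨i, p⟩ : EPr D)) := by
  unfold edPr
  rw [dif_pos ⟨i.2, p.2⟩]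

private theorem YPr_neg {u w : Vtx D} (h : (w.1.1, u.1.2⁻¹ * w.1.2) ∉ D.T u.1.1) :
    YPr D u w = 1 := by
  unfold YPr edPr
  rw [dif_neg (fun h' => h h'.2), mul_one, mul_inv_cancel]

private noncomputable def rPrA (i : Fin D.m) (p q : {p : ℕ × G // p ∈ D.T i.1}) : CPr D :=
  XPr D (basePr D i) (vtPr D i p) * XPr D (vtPr D i p) (vtPr D i q) * (XPr D (basePr D i) (vtPr D i q))⁻¹

private noncomputable def rPrB (i : Fin D.m) (p q : {p : ℕ × G // p ∈ D.T i.1}) : CPr D :=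
  XPr D (vtPr D i p) (vtPr D i q) * XPr D (basePr D i) (vtPr D i p) * (XPr D (basePr D i) (vtPr D i q))⁻¹

private def RelPr : Set (CPr D) :=
  {r | ∃ (i : Fin D.m) (p q : {p : ℕ × G // p ∈ D.T i.1}),
    (gr D).Adj (vtPr D i p) (vtPr D i q) ∧ (r = rPrA D i p q ∨ r = rPrB D i p q)}

private theorem RelPr_finite : (RelPr D).Finite := by
  have h1 : (Set.range fun t : (Σ i : Fin D.m, {p : ℕ × G // p ∈ D.T i.1} ×
      {p : ℕ × G // p ∈ D.T i.1}) => rPrA D t.1 t.2.1 t.2.2).Finite := Set.finite_range _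
  have h2 : (Set.range fun t : (Σ i : Fin D.m, {p : ℕ × G // p ∈ D.T i.1} ×
      {p : ℕ × G // p ∈ D.T i.1}) => rPrB D t.1 t.2.1 t.2.2).Finite := Set.finite_range _
  refine (h1.union h2).subset ?_
  rintro r ⟨i, p, q, -, h | h⟩
  · exact Or.inl ⟨⟨i, p, q⟩, h.symm⟩
  · exact Or.inr ⟨⟨i, p, q⟩, h.symm⟩

private abbrev MPr : Type := CPr D ⧸ Subgroup.normalClosure (RelPr D)

private noncomputable def xPr (u w : Vtx D) : MPr D :=
  QuotientGroup.mk' (Subgroup.normalClosure (RelPr D)) (XPr D u w)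

private noncomputable def fPr : G →* MPr D :=
  (QuotientGroup.mk' (Subgroup.normalClosure (RelPr D))).comp Monoid.Coprod.inl

private theorem xPr_act (g : G) (u w : Vtx D) :
    xPr D (vAct D g u) (vAct D g w) = fPr D g * xPr D u w * (fPr D g)⁻¹ := by
  unfold xPr
  rw [XPr_act, map_mul, map_mul, map_inv]
  rfl

private theorem xPr_mul (u w : Vtx D) : xPr D u w * xPr D w u = 1 := by
  unfold xPr
  rw [← map_mul, XPr_mul, map_one]

private theorem tri_base (i : Fin D.m) (p q : {p : ℕ × G // p ∈ D.T i.1})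
    (h : (gr D).Adj (vtPr D i p) (vtPr D i q)) :
    xPr D (basePr D i) (vtPr D i p) * xPr D (vtPr D i p) (vtPr D i q) = xPr D (basePr D i) (vtPr D i q) ∧
    xPr D (vtPr D i p) (vtPr D i q) * xPr D (basePr D i) (vtPr D i p) = xPr D (basePr D i) (vtPr D i q) := by
  constructor
  · have h1 : QuotientGroup.mk' (Subgroup.normalClosure (RelPr D)) (rPrA D i p q) = 1 :=
      (QuotientGroup.eq_one_iff _).2 (Subgroup.subset_normalClosure ⟨i, p, q, h, Or.inl rfl⟩)
    unfold rPrA at h1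
    rw [map_mul, map_mul, map_inv] at h1
    exact mul_inv_eq_one.1 h1
  · have h1 : QuotientGroup.mk' (Subgroup.normalClosure (RelPr D)) (rPrB D i p q) = 1 :=
      (QuotientGroup.eq_one_iff _).2 (Subgroup.subset_normalClosure ⟨i, p, q, h, Or.inr rfl⟩)
    unfold rPrB at h1
    rw [map_mul, map_mul, map_inv] at h1
    exact mul_inv_eq_one.1 h1

private theorem descPr {a b : Vtx D} (h : (gr D).Adj a b) (hc : b.1.1 < a.1.1) :
    (b.1.1, a.1.2⁻¹ * b.1.2) ∈ D.T a.1.1 := by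
  rw [adj_iff] at h
  rcases h with h | h
  · have h0 := D.lt _ _ h
    have h1 : a.1.1 < b.1.1 := h0
    omega
  · exact h

private theorem triPr {a b c : Vtx D} (hab : (gr D).Adj a b) (hbc : (gr D).Adj b c)
    (hac : (gr D).Adj a c) (h1 : b.1.1 < a.1.1) (h2 : c.1.1 < a.1.1) :
    xPr D a b * xPr D b c = xPr D a c ∧ xPr D b c * xPr D a b = xPr D a c := by
  have hb := descPr D hab h1
  have hc := descPr D hac h2
  set i : Fin D.m := ⟨a.1.1, a.2⟩ with hi
  set p : {p : ℕ × G // p ∈ D.T i.1} := ⟨(b.1.1, a.1.2⁻¹ * b.1.2), hb⟩ with hp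
  set q : {p : ℕ × G // p ∈ D.T i.1} := ⟨(c.1.1, a.1.2⁻¹ * c.1.2), hc⟩ with hq
  have ea : vAct D a.1.2 (basePr D i) = a := by
    apply Subtype.ext
    change (a.1.1, a.1.2 * 1) = a.1
    rw [mul_one]
  have eb : vAct D a.1.2 (vtPr D i p) = b := by
    apply Subtype.ext
    change (b.1.1, a.1.2 * (a.1.2⁻¹ * b.1.2)) = b.1
    rw [mul_inv_cancel_left]
  have ec : vAct D a.1.2 (vtPr D i q) = c := by
    apply Subtype.ext
    change (c.1.1, a.1.2 * (a.1.2⁻¹ * c.1.2)) = c.1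
    rw [mul_inv_cancel_left]
  have hpq : (gr D).Adj (vtPr D i p) (vtPr D i q) := by
    rw [← vAct_adj D a.1.2, eb, ec]
    exact hbc
  obtain ⟨t1, t2⟩ := tri_base D i p q hpq
  have ab : xPr D a b = fPr D a.1.2 * xPr D (basePr D i) (vtPr D i p) * (fPr D a.1.2)⁻¹ := by
    rw [← xPr_act, ea, eb]
  have ac : xPr D a c = fPr D a.1.2 * xPr D (basePr D i) (vtPr D i q) * (fPr D a.1.2)⁻¹ := by
    rw [← xPr_act, ea, ec]
  have bc : xPr D b c = fPr D a.1.2 * xPr D (vtPr D i p) (vtPr D i q) * (fPr D a.1.2)⁻¹ := by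
    rw [← xPr_act, eb, ec]
  constructor
  · rw [ab, bc, ac, ← t1]
    group
  · rw [ab, bc, ac, ← t2]
    group

private theorem tri_all {u v w : Vtx D} (huv : (gr D).Adj u v) (hvw : (gr D).Adj v w)
    (huw : (gr D).Adj u w) :
    xPr D u v * xPr D v w = xPr D u w ∧ xPr D v w * xPr D u v = xPr D u w := by
  have c1 : u.1.1 ≠ v.1.1 := col_ne D u v huv
  have c2 : v.1.1 ≠ w.1.1 := col_ne D v w hvw
  have c3 : u.1.1 ≠ w.1.1 := col_ne D u w huw
  by_cases hu : v.1.1 < u.1.1 ∧ w.1.1 < u.1.1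
  · exact triPr D huv hvw huw hu.1 hu.2
  · by_cases hv : u.1.1 < v.1.1 ∧ w.1.1 < v.1.1
    · obtain ⟨t1, t2⟩ := triPr D huv.symm huw hvw hv.1 hv.2
      have h1 : xPr D u v = (xPr D v u)⁻¹ := eq_inv_of_mul_eq_one_left (xPr_mul D u v)
      constructor
      · rw [h1, ← t1]
        group
      · rw [h1, ← t2]
        group
    · have hw : u.1.1 < w.1.1 ∧ v.1.1 < w.1.1 := by omega
      obtain ⟨t1, t2⟩ := triPr D huw.symm huv hvw.symm hw.1 hw.2
      have h1 : xPr D v w = (xPr D w v)⁻¹ := eq_inv_of_mul_eq_one_left (xPr_mul D v w)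
      have h2 : xPr D u w = (xPr D w u)⁻¹ := eq_inv_of_mul_eq_one_left (xPr_mul D u w)
      constructor
      · rw [h1, h2, ← t1]
        group
      · rw [h1, h2, ← t2]
        group

private noncomputable def Psi : CPr D →* (D.deg D.m).ker :=
  Monoid.Coprod.lift (kι D) (FreeGroup.lift fun e : EPr D => ke D (basePr D e.1) (vtPr D e.1 e.2))

private theorem Psi_inl (g : G) : Psi D (Monoid.Coprod.inl g) = kι D g :=
  Monoid.Coprod.lift_apply_inl _ _ g

private theorem Psi_inr (e : EPr D) : Psi D (Monoid.Coprod.inr (FreeGroup.of e)) =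
    ke D (basePr D e.1) (vtPr D e.1 e.2) := by
  unfold Psi
  rw [Monoid.Coprod.lift_apply_inr, FreeGroup.lift_apply_of]

private theorem cj_act (g : G) (i : ℕ) (h : G) :
    D.cj D.m (i, g * h) = D.ι D.m g * D.cj D.m (i, h) * (D.ι D.m g)⁻¹ := by
  change D.ι D.m (g * h) * D.v D.m i * (D.ι D.m (g * h))⁻¹ =
    D.ι D.m g * (D.ι D.m h * D.v D.m i * (D.ι D.m h)⁻¹) * (D.ι D.m g)⁻¹
  rw [map_mul]
  group

private theorem Psi_YPr {u w : Vtx D} (h : (w.1.1, u.1.2⁻¹ * w.1.2) ∈ D.T u.1.1) :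
    Psi D (YPr D u w) = ke D u w := by
  have e := ed_pos D ⟨u.1.1, u.2⟩ ⟨(w.1.1, u.1.2⁻¹ * w.1.2), h⟩
  unfold YPr
  rw [e, map_mul, map_mul, map_inv, Psi_inl, Psi_inr]
  apply Subtype.ext
  change D.ι D.m u.1.2 * (D.cj D.m (u.1.1, 1) * (D.cj D.m (w.1.1, u.1.2⁻¹ * w.1.2))⁻¹) *
    (D.ι D.m u.1.2)⁻¹ = D.cj D.m u.1 * (D.cj D.m w.1)⁻¹
  have e1 : D.cj D.m u.1 = D.ι D.m u.1.2 * D.cj D.m (u.1.1, 1) * (D.ι D.m u.1.2)⁻¹ := by
    rw [← cj_act, mul_one]
  have e2 : D.cj D.m w.1 = D.ι D.m u.1.2 * D.cj D.m (w.1.1, u.1.2⁻¹ * w.1.2) *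
      (D.ι D.m u.1.2)⁻¹ := by
    rw [← cj_act, mul_inv_cancel_left]
  rw [e1, e2]
  group

private theorem ke_mul (u w : Vtx D) : ke D u w * ke D w u = 1 := by
  apply Subtype.ext
  change (D.cj D.m u.1 * (D.cj D.m w.1)⁻¹) * (D.cj D.m w.1 * (D.cj D.m u.1)⁻¹) = 1
  group

private theorem Psi_XPr {u w : Vtx D} (h : (gr D).Adj u w) : Psi D (XPr D u w) = ke D u w := by
  rcases lt_or_gt_of_ne (col_ne D u w h) with hc | hc
  · have hc' : u.1.1 < w.1.1 := hc
    have h1 := descPr D h.symm hc'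
    have h2 : (w.1.1, u.1.2⁻¹ * w.1.2) ∉ D.T u.1.1 := by
      intro h3
      have h4 := D.lt _ _ h3
      have h5 : w.1.1 < u.1.1 := h4
      omega
    unfold XPr
    rw [YPr_neg D h2, one_mul, map_inv, Psi_YPr D h1]
    exact (eq_inv_of_mul_eq_one_left (ke_mul D u w)).symm
  · have hc' : w.1.1 < u.1.1 := hc
    have h1 := descPr D h hc'
    have h2 : (u.1.1, w.1.2⁻¹ * u.1.2) ∉ D.T w.1.1 := by
      intro h3
      have h4 := D.lt _ _ h3
      have h5 : u.1.1 < w.1.1 := h4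
      omega
    unfold XPr
    rw [YPr_neg D h2, inv_one, mul_one, Psi_YPr D h1]

private theorem base_adj (i : Fin D.m) (p : {p : ℕ × G // p ∈ D.T i.1}) :
    (gr D).Adj (basePr D i) (vtPr D i p) := by
  rw [adj_iff]
  right
  change (p.1.1, (1 : G)⁻¹ * p.1.2) ∈ D.T i.1
  rw [inv_one, one_mul]
  exact p.2

private theorem Psi_rel (r : CPr D) (hr : r ∈ RelPr D) : Psi D r = 1 := by
  obtain ⟨i, p, q, hpq, h | h⟩ := hr
  · rw [h, rPrA, map_mul, map_mul, map_inv, Psi_XPr D (base_adj D i p), Psi_XPr D hpq,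
      Psi_XPr D (base_adj D i q)]
    apply Subtype.ext
    change (D.cj D.m (basePr D i).1 * (D.cj D.m (vtPr D i p).1)⁻¹) *
      (D.cj D.m (vtPr D i p).1 * (D.cj D.m (vtPr D i q).1)⁻¹) *
      (D.cj D.m (basePr D i).1 * (D.cj D.m (vtPr D i q).1)⁻¹)⁻¹ = 1
    group
  · rw [h, rPrB, map_mul, map_mul, map_inv, Psi_XPr D (base_adj D i p), Psi_XPr D hpq,
      Psi_XPr D (base_adj D i q)]
    apply Subtype.ext
    change (D.cj D.m (vtPr D i p).1 * (D.cj D.m (vtPr D i q).1)⁻¹) *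
      (D.cj D.m (basePr D i).1 * (D.cj D.m (vtPr D i p).1)⁻¹) *
      (D.cj D.m (basePr D i).1 * (D.cj D.m (vtPr D i q).1)⁻¹)⁻¹ = 1
    have c1 : Commute (D.cj D.m (vtPr D i p).1) (D.cj D.m (vtPr D i q).1) := D.cj_comm hpq
    have c2 : Commute (D.cj D.m (basePr D i).1) (D.cj D.m (vtPr D i p).1) :=
      D.cj_comm (base_adj D i p)
    have c3 : Commute (D.cj D.m (basePr D i).1) (D.cj D.m (vtPr D i q).1) :=
      D.cj_comm (base_adj D i q)
    have e1 : (D.cj D.m (vtPr D i p).1 * (D.cj D.m (vtPr D i q).1)⁻¹) *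
      (D.cj D.m (basePr D i).1 * (D.cj D.m (vtPr D i p).1)⁻¹) =
      D.cj D.m (basePr D i).1 * (D.cj D.m (vtPr D i q).1)⁻¹ := by
      have h1 : Commute (D.cj D.m (vtPr D i p).1) ((D.cj D.m (vtPr D i q).1)⁻¹ *
          D.cj D.m (basePr D i).1) := c1.inv_right.mul_right c2.symm
      calc (D.cj D.m (vtPr D i p).1 * (D.cj D.m (vtPr D i q).1)⁻¹) *
            (D.cj D.m (basePr D i).1 * (D.cj D.m (vtPr D i p).1)⁻¹)
          = (D.cj D.m (vtPr D i p).1 * ((D.cj D.m (vtPr D i q).1)⁻¹ * D.cj D.m (basePr D i).1)) *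
            (D.cj D.m (vtPr D i p).1)⁻¹ := by group
        _ = (D.cj D.m (vtPr D i q).1)⁻¹ * D.cj D.m (basePr D i).1 := by
            rw [h1.eq, mul_assoc, mul_inv_cancel, mul_one]
        _ = D.cj D.m (basePr D i).1 * (D.cj D.m (vtPr D i q).1)⁻¹ := (c3.inv_right).eq.symm
    rw [e1, mul_inv_cancel]

private noncomputable def psi : MPr D →* (D.deg D.m).ker :=
  QuotientGroup.lift _ (Psi D) (by
    refine Subgroup.normalClosure_le_normal (N := (Psi D).ker) ?_
    intro r hr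
    rw [SetLike.mem_coe, MonoidHom.mem_ker]
    exact Psi_rel D r hr)

private theorem psi_mk (r : CPr D) :
    psi D (QuotientGroup.mk' (Subgroup.normalClosure (RelPr D)) r) = Psi D r := rfl

theorem fpres_ker [Group.IsFinitelyPresented G] (h : Good D) :
    Group.IsFinitelyPresented (D.deg D.m).ker := by
  obtain ⟨hm, hconn, hsc, -⟩ := h
  have hM : Group.IsFinitelyPresented (MPr D) := by
    have hC : Group.IsFinitelyPresented (CPr D) := coprod_fp G (EPr D)
    exact Group.IsFinitelyPresented.quotient _ ⟨RelPr D, RelPr_finite D, rfl⟩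
  obtain ⟨H, hH1, hH2⟩ := exists_hom D hsc hconn (MPr D) (fPr D) (xPr D)
    (fun u v _ => xPr_mul D u v) (fun u v w a b c => (tri_all D a b c).1)
    (fun u v w a b c => (tri_all D a b c).2) (fun g u v _ => xPr_act D g u v)
  have hid : H.comp (psi D) = MonoidHom.id _ := by
    apply QuotientGroup.monoidHom_ext
    apply Monoid.Coprod.hom_ext
    · refine MonoidHom.ext fun g => ?_
      change H (Psi D (Monoid.Coprod.inl g)) = fPr D g
      rw [Psi_inl]
      exact DFunLike.congr_fun hH1 g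
    · refine FreeGroup.ext_hom _ _ fun e => ?_
      change H (Psi D (Monoid.Coprod.inr (FreeGroup.of e))) =
        QuotientGroup.mk' (Subgroup.normalClosure (RelPr D)) (Monoid.Coprod.inr (FreeGroup.of e))
      rw [Psi_inr, hH2 _ _ (base_adj D e.1 e.2)]
      unfold xPr XPr
      have h2 : ((basePr D e.1).1.1, (vtPr D e.1 e.2).1.2⁻¹ * (basePr D e.1).1.2) ∉
          D.T (vtPr D e.1 e.2).1.1 := by
        intro h3
        have h4 := D.lt _ _ h3
        have h5 : e.1.1 < e.2.1.1 := h4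
        have h6 := D.lt _ _ e.2.2
        omega
      rw [YPr_neg D h2, inv_one, mul_one]
      unfold YPr
      have e1 : ((vtPr D e.1 e.2).1.1, (basePr D e.1).1.2⁻¹ * (vtPr D e.1 e.2).1.2) = e.2.1 := by
        change (e.2.1.1, (1 : G)⁻¹ * e.2.1.2) = e.2.1
        rw [inv_one, one_mul]
      rw [e1]
      have e2 : (basePr D e.1).1.2 = 1 := rfl
      have e3 : (basePr D e.1).1.1 = e.1.1 := rfl
      rw [e2, e3, ed_pos, map_one, one_mul, inv_one, mul_one]
  have hinj : Injective (psi D) := by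
    intro a b hab
    have h1 : H (psi D a) = H (psi D b) := by rw [hab]
    have h2 : ∀ z, H (psi D z) = z := fun z => DFunLike.congr_fun hid z
    rwa [h2, h2] at h1
  have hsurj : Surjective (psi D) := by
    rw [← MonoidHom.range_eq_top]
    apply ker_gen D hm hconn
    · intro g
      exact ⟨fPr D g, Psi_inl D g⟩
    · intro u v huv
      exact ⟨xPr D u v, Psi_XPr D huv⟩
  exact Group.IsFinitelyPresented.equiv (MulEquiv.ofBijective (psi D) ⟨hinj, hsurj⟩)

end Pool.Agent.H16.BV
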