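import Mathlib
import Pool.Agent.H16.BV.Pres
import Pool.Agent.H16.BV.ActK

/-!
The theorem of Bestvina and Brady for a flag complex with a free cocompact action of a group.
-/

set_option autoImplicit false

namespace Pool.Agent.H16.BV

open Pool.Agent.H16.BB

/-- If `G` is finitely presented and acts freely and cocompactly on a connected, simply connected
and acyclic flag complex, then the kernel of `deg` is finitely presented and of type FP. -/
theorem bestvinaBrady {G : Type} [Group G] (hG : Group.IsFinitelyPresented G) (D : Datum G)
    (h : Good D) : FPres (D.deg D.m).ker :=
  ⟨fpres_ker D h, fp_ker D h⟩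

end Pool.Agent.H16.BV
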